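import Pool.Agent.QSX.Defs

/-!
# Squad QSB (MP_dc0713_gt), roots: from weak to algebraic embeddings in equal rank

Definitions on the level of the data (independent of the structure `MB`) and rows `BWT JCB JCC TRW DLT
ALB`.  One statement per row; every docstring contains a complete proof.  A row is proved as a theorem
with the statements named after the word uses as hypotheses, in this order.
-/

set_option autoImplicit false

namespace Pool.Agent.QSB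

open Matrix Finset Pool.Agent.QSX

/-- `x ∈ n` has the weight `ρ` -/
def WtV (X : Dat) (ρ : X.b →ₗ[ℝ] ℝ) (x : Matrix (Fin X.m) (Fin X.m) ℝ) : Prop :=
  x ∈ X.n ∧ ∀ c : X.b, diagonal (c : Fin X.m → ℝ) * x - x * diagonal (c : Fin X.m → ℝ) = ρ c • x

/-- `x` is a root vector (not `0`) of the root `ρ` -/
def RtV (X : Dat) (ρ : X.b →ₗ[ℝ] ℝ) (x : Matrix (Fin X.m) (Fin X.m) ℝ) : Prop :=
  WtV X ρ x ∧ x ≠ 0

/-- `ρ` is a root -/
def IsRt (X : Dat) (ρ : X.b →ₗ[ℝ] ℝ) : Prop := ∃ x, RtV X ρ x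

/-- not proportional -/
def NPr {V : Type} [AddCommGroup V] [Module ℝ V] (ρ σ : V →ₗ[ℝ] ℝ) : Prop :=
  (∀ c : ℝ, ρ ≠ c • σ) ∧ ∀ c : ℝ, σ ≠ c • ρ

/-- proportional roots have the ratio `1`, `2` or `1 / 2` -/
def Ray (X : Dat) : Prop :=
  ∀ (ρ : X.b →ₗ[ℝ] ℝ) (c : ℝ), IsRt X ρ → IsRt X (c • ρ) → c = 1 ∨ c = 2 ∨ c = 1 / 2

/-- `n` is spanned by root vectors -/
def Spn (X : Dat) : Prop := ∀ x ∈ X.n, x ∈ Submodule.span ℝ {z | ∃ ρ, RtV X ρ z}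

/-- the root space of `ρ` is spanned by brackets of root vectors of non proportional roots -/
def Gnd (X : Dat) (ρ : X.b →ₗ[ℝ] ℝ) : Prop :=
  ∀ x, RtV X ρ x → x ∈ Submodule.span ℝ {z | ∃ σ σ' y y', NPr σ σ' ∧ σ + σ' = ρ ∧ RtV X σ y ∧
    RtV X σ' y' ∧ z = y * y' - y' * y}

/-- **The condition on the source** (true if no simple root of multiplicity `> 1` is an end of the
diagram of a component of type `A_r`). -/
def S3 (X : Dat) : Prop :=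
  ∀ ρ : X.b →ₗ[ℝ] ℝ, IsRt X ρ →
    Gnd X ρ ∨ (∃ σ, IsRt X σ ∧ ρ = (2 : ℝ) • σ) ∨
    (∀ x y, RtV X ρ x → RtV X ρ y → ∃ c : ℝ, y = c • x) ∨
    (∃ γ, IsRt X γ ∧ IsRt X ((2 : ℝ) • ρ + γ)) ∨
    (∃ γ γ', IsRt X γ ∧ IsRt X γ' ∧ NPr γ ρ ∧ NPr γ' ρ ∧ IsRt X (ρ + γ) ∧ IsRt X (ρ + γ') ∧
      IsRt X (ρ + γ + γ'))

/-- **The condition on the target** (true for every symmetric space). -/
structure RR (Y : Dat) : Prop where
  ray : Ray Y
  inj : ∀ (ρ γ : Y.b →ₗ[ℝ] ℝ) (w z : Matrix (Fin Y.m) (Fin Y.m) ℝ), IsRt Y ρ →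
    RtV Y ((2 : ℝ) • ρ) w → RtV Y γ z → IsRt Y ((2 : ℝ) • ρ + γ) → w * z - z * w ≠ 0
  two : ∀ ρ γ γ' : Y.b →ₗ[ℝ] ℝ, IsRt Y ρ → IsRt Y ((2 : ℝ) • ρ) → IsRt Y γ → IsRt Y γ' →
    NPr γ ρ → NPr γ' ρ → IsRt Y (ρ + γ) → IsRt Y (ρ + γ') → IsRt Y (ρ + γ + γ') →
    IsRt Y ((2 : ℝ) • ρ + γ) ∨ IsRt Y ((2 : ℝ) • ρ + γ')

/-- reduced: no root is the double of a root -/
def Red (Y : Dat) : Prop := ∀ ρ : Y.b →ₗ[ℝ] ℝ, IsRt Y ρ → ¬ IsRt Y ((2 : ℝ) • ρ)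

/-- **Weak embeddings**: an injective linear map `n_X → n_Y` and an injective linear map `b_X → b_Y`
compatible with the actions of `b_X` and `b_Y`, such that the linear map preserves the brackets of
root vectors of non proportional roots. -/
def WkP (X Y : Dat) : Prop :=
  ∃ (T : X.n →ₗ[ℝ] Matrix (Fin Y.m) (Fin Y.m) ℝ) (P : X.b →ₗ[ℝ] (Fin Y.m → ℝ)),
    (∀ x, T x ∈ Y.n) ∧ (∀ a, P a ∈ Y.b) ∧ Function.Injective T ∧ Function.Injective P ∧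
    (∀ (a : X.b) (x : X.n), T ⟨_, X.stab a a.2 x x.2⟩ =
      diagonal (P a) * T x - T x * diagonal (P a)) ∧
    (∀ ρ σ : X.b →ₗ[ℝ] ℝ, NPr ρ σ → ∀ x y : X.n, WtV X ρ x → WtV X σ y →
      T ⟨_, X.lie x x.2 y y.2⟩ = T x * T y - T y * T x)

/-- the linear map `T` preserves the brackets of vectors of non proportional weights -/
def BrP (X : Dat) (m : ℕ) (T : X.n →ₗ[ℝ] Matrix (Fin m) (Fin m) ℝ) : Prop :=
  ∀ ρ σ : X.b →ₗ[ℝ] ℝ, NPr ρ σ → ∀ x y : X.n, WtV X ρ x → WtV X σ y →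
    T ⟨_, X.lie x x.2 y y.2⟩ = T x * T y - T y * T x

/-- **BWT** (easy, no hypotheses).  The weight of a bracket; roots are not `0`.
Proof.  (1) `[D, x y - y x] = [D, x] y + x [D, y] - [D, y] x - y [D, x]`, `D = diag c`; `X.lie`.  (2) If `ρ = 0` then `(0 : ℝ) • ρ = ρ` is a root, so `0 = 1 ∨ 0 = 2 ∨ 0 = 1/2` by `Ray`. -/
def BwtStmt : Prop :=
  (∀ (X : Dat) (ρ σ : X.b →ₗ[ℝ] ℝ) (x y : Matrix (Fin X.m) (Fin X.m) ℝ), WtV X ρ x → WtV X σ y →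
    WtV X (ρ + σ) (x * y - y * x)) ∧
  ∀ (X : Dat), Ray X → ∀ ρ, IsRt X ρ → ρ ≠ 0

/-- **JCB** (medium, uses BWT).  Brackets inside a direction whose root space is generated.
Proof.  Fix `y` of weight `c • ρ`, `0 < c`.  Both sides are linear in `x`, so by `Gnd` (`Submodule.span_induction`; all elements of the set are in `X.n`) we may take `x = [u, v]`, `u` of weight `σ`, `v` of weight `σ'`, `NPr σ σ'`, `σ + σ' = ρ`.
`T [u, v] = [T u, T v]`.  `σ'` and `c • ρ = c σ + c σ'` are not proportional (`c ≠ 0`, `NPr σ σ'`), so `T [v, y] = [T v, T y]`, the same for `u`.  `[v, y]` has the weight `σ' + c ρ = c σ + (1 + c) σ'`, not proportional to `σ` (`1 + c ≠ 0`), so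
`T [u, [v, y]] = [T u, [T v, T y]]`, and `T [v, [u, y]] = [T v, [T u, T y]]`.  Jacobi: `[[u,v],y] = [u,[v,y]] - [v,[u,y]]` on both sides. -/
def JcbStmt : Prop :=
  ∀ (X : Dat) (m : ℕ) (T : X.n →ₗ[ℝ] Matrix (Fin m) (Fin m) ℝ), BrP X m T →
    ∀ ρ : X.b →ₗ[ℝ] ℝ, Gnd X ρ → ∀ (c : ℝ), 0 < c → ∀ x y : X.n, RtV X ρ x → WtV X (c • ρ) y →
      T ⟨_, X.lie x x.2 y y.2⟩ = T x * T y - T y * T x

/-- **JCC** (medium, uses BWT).  The defect of the bracket inside a direction commutes with the vectors of the other directions.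
Proof.  Let `δ = [T x, T y] - T [x, y]`.  By Jacobi and `BrP`: `[[T x, T y], T u] = [T x, [T y, T u]] - [T y, [T x, T u]] = [T x, T [y, u]] - [T y, T [x, u]]` (`c • ρ` and `γ`, `ρ` and `γ` are not proportional) `= T [x, [y, u]] - T [y, [x, u]]`
(the weight `c ρ + γ` of `[y, u]` is not proportional to `ρ`, the weight `ρ + γ` of `[x, u]` is not proportional to `c ρ`) `= T [[x, y], u] = [T [x, y], T u]` (the weight `(1 + c) ρ` of `[x, y]` is not proportional to `γ`). -/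
def JccStmt : Prop :=
  ∀ (X : Dat) (m : ℕ) (T : X.n →ₗ[ℝ] Matrix (Fin m) (Fin m) ℝ), BrP X m T →
    ∀ (ρ γ : X.b →ₗ[ℝ] ℝ), NPr γ ρ → ∀ (c : ℝ), 0 < c → ∀ x y u : X.n,
      WtV X ρ x → WtV X (c • ρ) y → WtV X γ u →
      (T x * T y - T y * T x - T ⟨_, X.lie x x.2 y y.2⟩) * T u -
        T u * (T x * T y - T y * T x - T ⟨_, X.lie x x.2 y y.2⟩) = 0

/-- **TRW** (easy-medium, no hypotheses).  Transport of the weights in equal rank.
Proof.  `P`, as a map `X.b → Y.b`, is injective, so bijective (`LinearMap.injective_iff_surjective_of_finrank_eq_finrank`); `g` its inverse (`LinearEquiv.ofBijective`).  For `d ∈ Y.b`, `d = P a`, `a = g d`: `[diag d, T x] = T [diag a, x] = T (ρ a • x) = ρ (g d) • T x`. -/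
def TrwStmt : Prop :=
  ∀ (X Y : Dat) (T : X.n →ₗ[ℝ] Matrix (Fin Y.m) (Fin Y.m) ℝ) (P : X.b →ₗ[ℝ] (Fin Y.m → ℝ)),
    (∀ x, T x ∈ Y.n) → (∀ a, P a ∈ Y.b) → Function.Injective P →
    (∀ (a : X.b) (x : X.n), T ⟨_, X.stab a a.2 x x.2⟩ =
      diagonal (P a) * T x - T x * diagonal (P a)) →
    Module.finrank ℝ X.b = Module.finrank ℝ Y.b →
    ∃ g : Y.b →ₗ[ℝ] X.b, Function.Bijective g ∧
      ∀ (ρ : X.b →ₗ[ℝ] ℝ) (x : X.n), WtV X ρ x → WtV Y (ρ ∘ₗ g) (T x)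

/-- **DLT** (medium-strong, uses BWT JCB JCC).  The defect vanishes.
Proof.  `ρ ↦ ρ ∘ g` is linear, injective and preserves (non) proportionality (`g` bijective); it maps roots of `X` to roots of `Y` (`T` injective).  Let `δ = [T x, T y] - T [x, y]`, of weight `(1 + c) • (ρ ∘ g)` (BWT; `T [x, y]` has the weight `((1 + c) ρ) ∘ g`), suppose `δ ≠ 0`.  By `Ray X`, `c = 1, 2` or `1/2`.
`c = 2` or `1/2`: `(1 + c) • (ρ ∘ g)` and `ρ ∘ g` are roots of `Y`, `1 + c = 3` or `3/2`: against `ray`.  `c = 1`, so `y` has the weight `ρ` and `2 • (ρ ∘ g)` is a root: against `Red Y`.  So `S3 X` holds; its cases for `ρ`: (1) `Gnd`: JCB.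
(2) `ρ = 2 σ`: `σ ∘ g` and `4 • (σ ∘ g)` are roots of `Y`: against `ray`.  (3) `y = c' • x`: `[x, y] = 0`, `[T x, T y] = 0` (`T` linear).  (4) `γ`, `2 ρ + γ` roots.  `NPr γ ρ`: if `γ = d • ρ` then `d` and `2 + d` are both in `{1, 2, 1/2}` (`Ray X`), impossible; if
`ρ = d • γ`, then `d ≠ 0` (BWT), so `γ = d⁻¹ • ρ`.  Let `u` be a root vector of `γ`: `RR.inj` for `ρ ∘ g`, `γ ∘ g`, `w = δ`, `z = T u` says `[δ, T u] ≠ 0`, against JCC.  (5) `RR.two` for `ρ ∘ g`, `γ ∘ g`, `γ' ∘ g`: `2 (ρ ∘ g) + γ ∘ g` (or the same with `γ'`) is a root of `Y`; again `RR.inj` and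
JCC. -/
def DltStmt : Prop :=
  ∀ (X Y : Dat) (T : X.n →ₗ[ℝ] Matrix (Fin Y.m) (Fin Y.m) ℝ) (g : Y.b →ₗ[ℝ] X.b),
    (∀ x, T x ∈ Y.n) → Function.Injective T → Function.Bijective g → BrP X Y.m T →
    (∀ (ρ : X.b →ₗ[ℝ] ℝ) (x : X.n), WtV X ρ x → WtV Y (ρ ∘ₗ g) (T x)) →
    Ray X → RR Y → (S3 X ∨ Red Y) →
    ∀ (ρ : X.b →ₗ[ℝ] ℝ) (c : ℝ) (x y : X.n), RtV X ρ x → RtV X (c • ρ) y →
      T ⟨_, X.lie x x.2 y y.2⟩ = T x * T y - T y * T x

/-- **ALB** (medium, uses BWT TRW DLT).  The weak embedding is algebraic.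
Proof.  `g` from TRW.  We must show `T [x, y] = [T x, T y]` for all `x, y ∈ n_X`; both sides are bilinear, so by `Spn` we may take root vectors `x` of `ρ`, `y` of `σ` (`Submodule.span_induction` twice).  If `NPr ρ σ`: hypothesis.  Otherwise `σ = c • ρ` or `ρ = c • σ`; in the second case `c ≠ 0` (BWT), so
`σ = c⁻¹ • ρ`.  DLT. -/
def AlbStmt : Prop :=
  ∀ X Y : Dat, Spn X → Ray X → RR Y → (S3 X ∨ Red Y) →
    Module.finrank ℝ X.b = Module.finrank ℝ Y.b → WkP X Y → AlgEmb X Y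

end Pool.Agent.QSB
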