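import Pool.Agent.QSB.StmtsB2
import Pool.Agent.QSN.StmtsC

/-!
# Squad QSB, part C: from the matrices over the residue field to weak embeddings

Versions of the rows of `Pool/Agent/QSN/StmtsC.lean` (GRN TRN CLN) and `StmtsD.lean` (WKE WKM) for
data of type `MB`: `rt l ≠ rt l'` is replaced by `hX.Np l l'`.  MIN is the row of QSN.
-/

set_option autoImplicit false

namespace Pool.Agent.QSB

open Matrix Finset Pool.Agent.QSX Pool.Agent.QSN

/-- **Graded families** (`GrM` with the last clause only for the components of indices, as in `GrC`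
of QSX). -/
def GrN (X Y : Dat) (hX : MB X) (F : Type) [Field F] [Algebra ℝ F]
    (P : X.b →ₗ[ℝ] (Fin Y.m → ℝ)) (κ : hX.J → ℝ)
    (C : hX.ι → Matrix (Fin Y.m) (Fin Y.m) F) : Prop :=
  (∀ l, C l ∈ Y.nF F) ∧
  (∀ l i k, C l i k ≠ 0 → ∀ a : X.b, P a i - P a k = κ (hX.comp l) * hX.rt l a) ∧
  (∀ l l', hX.Np l l' → C l * C l' - C l' * C l = hX.br C l l') ∧
  (∀ l₀ : hX.ι, LinearIndependent F
    fun t : {t : hX.ι // hX.rt t = hX.rt (hX.top (hX.comp l₀))} => C t.1)

/-- **Row GRN** (the graded part; version of `GRD`). Uses: `PmuStmt`, `PnfStmt` (StmtsB of QSX).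
Medium: copy of `Helper86_QSX/GRD.lean`.

Proof. For `j : hX.J` the matrix `C (top j)` has a nonzero entry `(i, k)`, and there is a number
`> 0`, say `s j`, with `P a i - P a k = s j * rt (top j) a` for all `a` (choice). Define `κ j = s j`
if `hX.One j`, and `κ j = 1` otherwise (`by classical`). Put `ρ l a = κ (comp l) * rt l a` and
`C' l = part P (ρ l) (C l)`.
(1) `C' l ∈ Y.nF F` by `PNF` (with the linear form `κ (comp l) • rt l`). (2) The support condition is
immediate from the definition of `part`.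
(3) Let `rt l ≠ rt l'`. As in `GRD`: `rt l`, `rt l'` are linearly independent: if
`s rt l + t rt l' = s' rt l + t' rt l'` (all `a`) and `s ≠ s'` then
`rt l = ((t' - t) / (s - s')) • rt l'`, against `nonprop l l'`; so `s = s'`, and then
`(t - t') * rt l' a = 0` for all `a`; `rt l' ≠ 0 • rt l` by `nonprop l' l`, so `t = t'`.
By `PMU` (with `r = rt l`, `r' = rt l'`, the `κ` being `κ (comp l)`, `κ (comp l')`) for `(C l, C l')`
and for `(C l', C l)`, `C' l * C' l' - C' l' * C' l = part P (ρ l + ρ l') (C l * C l' - C l' * C l)`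
`= part P (ρ l + ρ l') (br C l l') = ∑ c_t part P (ρ l + ρ l') (C t)` over the factors `t` of
`L l l'` with `p = q = 1` (`part` is additive and commutes with real scalars).  For such a `t`:
`comp t = comp l = comp l'` (`L_comp`) and `rt t = rt l + rt l'` (`L_rt`), so
`ρ l a + ρ l' a = κ (comp t) * rt t a = ρ t a` and the summand is `c_t C' t`.
(4) Let `l₀` be given, `j = comp l₀`; `comp (top j) = j` (`comp_top l₀`). If `rt t = rt (top j)` then
`comp t = comp (top j) = j` (`comp_rt`). Case not `One j`: `κ j = 1`, so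
`C' t = part P (fun a => rt t a) (C t)` for these `t`, and the claim is the hypothesis `TopInj` for
`j`. Case `One j`: by `rank1` for `top j` (every `l'` with `comp l' = comp (top j) = j` has
`rt l' = rt (top j)`) every `t` with `comp t = j` is `top j`; so the index type has only the element
`top j` (`Subsingleton`), and `C' (top j) ≠ 0`, because its entry `(i, k)` chosen above is an entry of
weight `κ j * rt (top j) = ρ (top j)` (`linearIndependent_unique_iff` or
`LinearIndependent` of a subsingleton family of nonzero vectors). -/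
def GrnStmt : Prop :=
  ∀ (X Y : Dat) (hX : MB X) (F : Type) [Field F] [Algebra ℝ F]
    (P : X.b →ₗ[ℝ] (Fin Y.m → ℝ)), (∀ a, P a ∈ Y.b) →
    ∀ C : hX.ι → Matrix (Fin Y.m) (Fin Y.m) F, GoodM X Y hX F P C → TopInj X Y hX F P C →
      ∃ κ : hX.J → ℝ, (∀ j, 0 < κ j) ∧
        ∃ C' : hX.ι → Matrix (Fin Y.m) (Fin Y.m) F, GrN X Y hX F P κ C'

/-- **Row TRN** (the graded family over the real numbers; version of `TRF`). Uses: `TraStmt`,
`NfrStmt` (StmtsB of QSX), `MIN`. Medium: copy of `Helper10_QSX/TRF.lean`.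

Proof. For each `l` apply `NFR` with `ρ = κ (comp l) • rt l`: `d l`, `y l r`, `c l r`
(`r : Fin (d l)`) with `C l = ∑ r, c l r • (y l r).map (algebraMap ℝ F)`. Let
`σ = Σ l, Fin (d l)` (finite), `c : σ → S.FF`, and for `l` the matrix of polynomials
`M l i k = ∑ r, MvPolynomial.C (y l r i k) * MvPolynomial.X ⟨l, r⟩ : MvPolynomial σ ℝ`. Then
`aeval c (M l i k) = C l i k`, and for a real point `x` the numbers `eval x (M l i k)` are the
entries of `C' l = ∑ r, x ⟨l, r⟩ • y l r`. Let `E` be the set of the polynomials (entries)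
`(M l * M l' - M l' * M l - br M l l') i k`, `rt l ≠ rt l'` (write `br` out; the ring homomorphisms
`aeval c` and `eval x` applied entrywise commute with products, differences, list sums and real
scalars): they vanish at `c` by the brackets of `C`. For each `l₀` let
`T = {t // rt t = rt (top (comp l₀))}` (finite; `Classical.decEq`) and let `p` be the places of `MIN`
for `v t = C t` over `S.FF`; let `N` be the set of the polynomials
`det (Matrix.of fun s t : T => M t (p s).1 (p s).2)`, one for each `l₀` (`Finset.univ.image`). The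
value `aeval c` of this determinant is the determinant of the values (`RingHom.map_det`,
`AlgHom.map_det`), not `0`. `TRA` gives `x`. Then `C' l ∈ Y.n`, so `C' l ∈ Y.nF ℝ`
(`Submodule.subset_span`, `algebraMap ℝ ℝ = id`), the support condition holds since it holds for
every `y l r`, the brackets hold because the polynomials of `E` vanish at `x`, and the last clause of
`GrN` holds by `MIN` from right to left, since `eval x` of the polynomial in `N` is the minor of the
`C' t`. -/
def TrnStmt : Prop :=
  ∀ (X Y : Dat) (hX : MB X) (S : Scale) (P : X.b →ₗ[ℝ] (Fin Y.m → ℝ)), (∀ a, P a ∈ Y.b) →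
    ∀ (κ : hX.J → ℝ) (C : hX.ι → Matrix (Fin Y.m) (Fin Y.m) S.FF), GrN X Y hX S.FF P κ C →
      ∃ C' : hX.ι → Matrix (Fin Y.m) (Fin Y.m) ℝ, GrN X Y hX ℝ P κ C'

/-- **Row CLN** (all root spaces are injective; version of `CLM`). Uses: `BRN` (StmtsA). Medium.

Proof. By `lin` there is a linear map `T` on the space of all matrices with `T (e l) = C l` (extend
the linearly independent family `e` to a basis, `Module.Basis.extend`, `Module.Basis.constr`, or
`LinearIndependent.exists_extend`-like lemmas on the span and `LinearMap.exists_extend`). `T` is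
linear, so `T (br e l l') = br C l l'` (`br` is a list sum), and by `BRN`
(*) `T (e l * e k - e k * e l) = C l * C k - C k * C l` whenever `rt l ≠ rt k`.
Say that `l₀` is bad if the family `C t`, `rt t = rt l₀`, is not linearly independent. Let `a₊` be as
in `pos`, suppose that there is a bad `l₀` and take one with `rt l₀ a₊` maximal
(`Finset.exists_max_image`). By the last hypothesis `rt l₀ ≠ rt (top (comp l₀))` (otherwise the two
index types agree). There are numbers `z t` (`rt t = rt l₀`), not all `0`, with `∑ z t • C t = 0`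
(`Fintype.not_linearIndependent_iff`). Put `x = ∑ z t • e t` (a combination of the `e t` with
`rt t = rt l₀`), so `x ≠ 0` by `lin` and `T x = 0`. By `climb` (contrapositive) there is `k` with
`rt k ≠ rt l₀` and `u = x * e k - e k * x ≠ 0`. By linearity and (*) `T u = T x * C k - C k * T x = 0`.
By `BRN` and `L_rt` (`p = q = 1`) `u` is a combination of vectors `e s` with
`rt s = rt l₀ + rt k`: write `u = ∑ s, y s • e s` with `y s = 0` unless `rt s = rt l₀ + rt k`
(membership in the span of `e '' {s | rt s = rt l₀ + rt k}`). `u ≠ 0`, so there is `s₀` with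
`y s₀ ≠ 0`; then `rt s₀ = rt l₀ + rt k` and `∑ y s • C s = T u = 0`, a nontrivial relation between the
`C s` with `rt s = rt s₀`. So `s₀` is bad, and `rt s₀ a₊ = rt l₀ a₊ + rt k a₊ > rt l₀ a₊`, a
contradiction. -/
def ClnStmt : Prop :=
  ∀ (X : Dat) (hX : MB X) (m : ℕ) (C : hX.ι → Matrix (Fin m) (Fin m) ℝ),
    (∀ l l', hX.Np l l' → C l * C l' - C l' * C l = hX.br C l l') →
    (∀ l₀ : hX.ι, LinearIndependent ℝ
      fun t : {t : hX.ι // hX.rt t = hX.rt (hX.top (hX.comp l₀))} => C t.1) →
    ∀ l₀ : hX.ι, LinearIndependent ℝ fun t : {t : hX.ι // hX.rt t = hX.rt l₀} => C t.1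

/-- `x` is of weight `ρ` -/
def Wt (X : Dat) (ρ : X.b →ₗ[ℝ] ℝ) (x : Matrix (Fin X.m) (Fin X.m) ℝ) : Prop :=
  ∀ c : X.b, diagonal (c : Fin X.m → ℝ) * x - x * diagonal (c : Fin X.m → ℝ) = ρ c • x

/-- **Weak embeddings** (with non reduced roots): an injective linear map `n_X → n_Y` and an injective
linear map `b_X → b_Y` compatible with the actions of `b_X` and `b_Y`, such that the linear map
preserves the brackets of root vectors of non proportional roots. -/
def WkT (X Y : Dat) (T : X.n →ₗ[ℝ] Matrix (Fin Y.m) (Fin Y.m) ℝ)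
    (P : X.b →ₗ[ℝ] (Fin Y.m → ℝ)) : Prop :=
  (∀ x, T x ∈ Y.n) ∧ (∀ a, P a ∈ Y.b) ∧ Function.Injective T ∧ Function.Injective P ∧
  (∀ (a : X.b) (x : X.n), T ⟨_, X.stab a a.2 x x.2⟩ =
    diagonal (P a) * T x - T x * diagonal (P a)) ∧
  (∀ ρ ρ' : X.b →ₗ[ℝ] ℝ, (∀ c : ℝ, ρ ≠ c • ρ') → ∀ x y : X.n, Wt X ρ x → Wt X ρ' y →
    T ⟨_, X.lie x x.2 y y.2⟩ = T x * T y - T y * T x)

/-- **WKE** (medium, uses BRN WTX; version of the row WKE of QSN, see `Pool/Agent/QSN/StmtsD.lean`).  From a graded family with injective root spaces to a weak embedding.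
Proof.  As in QSN: `D` from `hX.scal` for `κ⁻¹`, `P' = P ∘ D`, `T ⟨e l, _⟩ = C l`; `C l i k ≠ 0` implies `P' a i - P' a k = rt l a`.  Brackets: let `x` have weight `ρ`, `y` weight `ρ'`, not proportional.  By WTX `x` is in the span of the `e t` with `rt t = ρ`, `y` in the span of the `e t` with `rt t = ρ'`.
Both sides are bilinear, so we may take `x = e l`, `y = e l'` with `Np l l'`: by BRN `T [e l, e l'] = T (br e l l') = br C l l' = C l C l' - C l' C l` (third clause of `GrN`). -/
def WkeStmt : Prop :=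
  ∀ (X Y : Dat) (hX : MB X) (P : X.b →ₗ[ℝ] (Fin Y.m → ℝ)), (∀ a, P a ∈ Y.b) →
    ∀ κ : hX.J → ℝ, (∀ j, 0 < κ j) → ∀ C : hX.ι → Matrix (Fin Y.m) (Fin Y.m) ℝ,
      GrN X Y hX ℝ P κ C →
      (∀ l₀ : hX.ι, LinearIndependent ℝ fun t : {t : hX.ι // hX.rt t = hX.rt l₀} => C t.1) →
      ∃ T P', WkT X Y T P'

/-- **WKM** (easy, uses GRN TRN CLN WKE).  Summary: GRN gives `κ > 0` and a graded family over `S.FF`, TRN one over `ℝ`, CLN: the root spaces are injective; WKE. -/
def WkmStmt : Prop :=
  ∀ (X Y : Dat) (hX : MB X) (S : Scale) (P : X.b →ₗ[ℝ] (Fin Y.m → ℝ)), (∀ a, P a ∈ Y.b) →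
    ∀ C : hX.ι → Matrix (Fin Y.m) (Fin Y.m) S.FF, GoodM X Y hX S.FF P C →
      TopInj X Y hX S.FF P C → ∃ T P', WkT X Y T P'

end Pool.Agent.QSB
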