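import Pool.Agent.QSB.StmtsA

/-!
# Squad QSB, part F: the rational short form `MRB`

Versions of the rows CBM CCM CKM CDM CVM of `Pool/Agent/QSN/StmtsA.lean` (Block E) with
`rt l ≠ rt l'` replaced by: not proportional.  CAM is the row of QSN.
-/

set_option autoImplicit false

namespace Pool.Agent.QSB

open Matrix Finset Pool.Agent.QSX Pool.Agent.QSN

/-! ### Block E: the rational short form -/

/-- Data with root spaces of arbitrary dimension, short form: `n` has a basis of rational root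
vectors; the commutator formula is automatic. -/
structure MRB (X : Dat) where
  ι : Type
  fin : Fintype ι
  dec : DecidableEq ι
  e : ι → Matrix (Fin X.m) (Fin X.m) ℝ
  rat : ∀ l i j, ∃ q : ℚ, e l i j = (q : ℝ)
  span_e : Submodule.span ℝ (Set.range e) = X.n
  lin : LinearIndependent ℝ e
  rt : ι → X.b →ₗ[ℝ] ℝ
  wt : ∀ l, ∀ c : X.b, diagonal (c : Fin X.m → ℝ) * e l - e l * diagonal (c : Fin X.m → ℝ) =
    rt l c • e l
  pos : ∃ a : X.b, ∀ l, 0 < rt l a
  sep : ∀ a : X.b, (∀ l, rt l a = 0) → a = 0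
  ray : ∀ l l', ∀ c : ℝ, rt l = c • rt l' → c = 1 / 2 ∨ c = 1 ∨ c = 2
  /-- the root vectors of a root proportional to `p rt l + q rt l'` are combinations of
  brackets of root vectors of non proportional roots -/
  gen : ∀ t s l l', (∀ c : ℝ, rt l ≠ c • rt l') → ∀ p q : ℕ, 1 ≤ p → 1 ≤ q →
    rt s = (p : ℝ) • rt l + (q : ℝ) • rt l' → (∃ c : ℝ, rt t = c • rt s) →
    e t ∈ Submodule.span ℝ {z | ∃ w w', (∀ c : ℝ, rt w ≠ c • rt w') ∧ rt w + rt w' = rt t ∧
      z = e w * e w' - e w' * e w}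
  J : Type
  comp : ι → J
  top : J → ι
  comp_top : ∀ l, comp (top (comp l)) = comp l
  comp_rt : ∀ l l', ∀ c : ℝ, rt l = c • rt l' → comp l = comp l'
  climb : ∀ l, rt l ≠ rt (top (comp l)) → ∀ x ∈ Submodule.span ℝ (e '' {l' | rt l' = rt l}),
    (∀ k, (∀ c : ℝ, rt k ≠ c • rt l) → x * e k - e k * x = 0) → x = 0
  rank1 : ∀ l, (∀ l', comp l' = comp l → rt l' = rt l) → ∀ l', comp l' = comp l → l' = l
  scal : ∀ κ : J → ℝ, (∀ j, 0 < κ j) → ∃ S : X.b →ₗ[ℝ] X.b, ∀ l a, rt l (S a) = κ (comp l) * rt l a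

attribute [instance] MRB.fin MRB.dec

/-- homogeneous polynomial families of elements of `exp n`, for a pair `(l, l')` of roots -/
structure FamB {X : Dat} (hX : MRB X) (l l' : hX.ι) (G : Matrix (Fin X.m) (Fin X.m) R2) : Prop where
  uu : UU G
  mem : ∀ x y, ∃ z ∈ X.n, evM x y G = mexp z
  hom : ∀ (a : X.b) (x y : ℝ), diagonal (fun i => Real.exp ((a : Fin X.m → ℝ) i)) * evM x y G *
    diagonal (fun i => Real.exp (-(a : Fin X.m → ℝ) i)) =
      evM (Real.exp (hX.rt l a) * x) (Real.exp (hX.rt l' a) * y) G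
  triv : ∀ x, evM x 0 G = 1 ∧ evM 0 x G = 1
  rat : ∀ i j, ∃ q : ℚ, evM 1 1 G i j = (q : ℝ)

/-- **CBM** (strong, uses CHA LGM of QSX; copy of `Helper62_QSX/CHB.lean`).  The logarithm of a homogeneous family is a sum of monomials.
Proof.  `Z = mlog G` over `R2`; `evM x y Z = mlog (evM x y G)` (ring homomorphism) is in `n` (LGM: `mlog (mexp z) = z`).  Let `φ_t` be real linear functionals on the matrices with `φ_t (e_s) = δ_ts`, and `z_t = ∑_ij φ_t(E_ij) Z_ij ∈ R2`:
`evM x y Z = ∑_t z_t(x,y) e_t`.  By `wt` the nonzero entries `(i,j)` of `e_t` satisfy `a_i - a_j = rt t a`, so conjugation with `diag (exp a)` multiplies `e_t` by `exp (rt t a)`, and `mlog` commutes with conjugation: `hom` gives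
`z_t(exp(rt l a) x, exp(rt l' a) y) = exp(rt t a) z_t(x,y)` for all `x, y`; so (`MvPolynomial.funext`, coefficients) the coefficient `c_pq` of `z_t` satisfies `c_pq (exp((p rt l + q rt l')(a)) - exp(rt t a)) = 0` for all `a`: if `c_pq ≠ 0` then
`rt t = p rt l + q rt l'`.  `triv` and `mlog 1 = 0`: `z_t(x,0) = z_t(0,y) = 0`, so `c_pq ≠ 0` implies `p, q ≥ 1`.  `(p,q)` is unique: `rt l`, `rt l'` are linearly independent (`nonprop`, `rt l' ≠ 0` by `pos`).  So `z_t = c_t X^p Y^q` with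
`c_t = z_t(1,1)`, the coordinate of `mlog (evM 1 1 G)`, a rational matrix (`rat`; `mlog` has rational coefficients): CHA.  (`P t = (p, q)`, `c t = 0` and `P t` arbitrary if `z_t = 0`.) -/
def CbmStmt : Prop :=
  ∀ (X : Dat) (hX : MRB X) (l l' : hX.ι), (∀ c : ℝ, hX.rt l ≠ c • hX.rt l') →
    ∀ G : Matrix (Fin X.m) (Fin X.m) R2,
    FamB hX l l' G → ∃ (c : hX.ι → ℚ) (P : hX.ι → ℕ × ℕ),
      (∀ t, c t ≠ 0 → 1 ≤ (P t).1 ∧ 1 ≤ (P t).2 ∧
        hX.rt t = ((P t).1 : ℝ) • hX.rt l + ((P t).2 : ℝ) • hX.rt l') ∧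
      ∀ x y : ℝ, evM x y G = mexp (∑ t, (((c t : ℚ) : ℝ) * x ^ (P t).1 * y ^ (P t).2) • hX.e t)

/-- **CCM** (medium, uses MCJ BCH LGM of QSX; copy of `Helper31_QSX/CHC.lean`).  Homogeneous families: products, monomial factors, the commutator.
Proof.  (i) products: BCH for `mem` (`ue`), the rest entrywise (`evM` is multiplicative).  (ii) `G = mexp (c X^p Y^q e_t)` (over `R2`, `e_t` mapped to `R2`): `evM x y G = mexp (c x^p y^q e_t)`; `hom`: the nonzero entries `(i,j)` of `e_t` satisfy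
`a_i - a_j = rt t a = p rt l a + q rt l' a`, so conjugation by `diag (exp a)` multiplies `e_t` by `exp (p rt l a + q rt l' a)`; `triv` because `p, q ≥ 1`; `rat`: `mexp` has rational coefficients.  (iii) the commutator
`mexp (X e_l) mexp (Y e_l') mexp (-X e_l) mexp (-Y e_l')`: the same; `triv`: for `y = 0` it is `mexp (x e_l) mexp (- x e_l) = 1`. -/
def CcmStmt : Prop :=
  ∀ (X : Dat) (hX : MRB X) (l l' : hX.ι),
    (∀ G H : Matrix (Fin X.m) (Fin X.m) R2, FamB hX l l' G → FamB hX l l' H → FamB hX l l' (G * H)) ∧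
    (∀ (t : hX.ι) (p q : ℕ) (c : ℚ), 1 ≤ p → 1 ≤ q →
      hX.rt t = (p : ℝ) • hX.rt l + (q : ℝ) • hX.rt l' →
      ∃ G, FamB hX l l' G ∧ ∀ x y : ℝ, evM x y G = mexp (((c : ℝ) * x ^ p * y ^ q) • hX.e t)) ∧
    ∃ G, FamB hX l l' G ∧ ∀ x y : ℝ, evM x y G =
      mexp (x • hX.e l) * mexp (y • hX.e l') * mexp (-(x • hX.e l)) * mexp (-(y • hX.e l'))

/-- **CKM** (strong, uses BCH LGM of QSX; copy of `Helper66_QSX/CHK.lean`).  Stripping the factors of lowest height, at one point.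
Proof.  Say that a matrix `x` has weight `ρ : X.b → ℝ` if `(a_i - a_j - ρ(a)) x_ij = 0` for all `a`, `i`, `j`.  Let `W_K` be the span of the matrices of weight `p rt l + q rt l'`, `p, q ∈ ℕ`, `1 ≤ p`, `1 ≤ q`, `K ≤ p + q`.  Products: `W_K W_K' ⊆ W_(K+K')`, and
`W_K ⊆ W_K'` for `K' ≤ K`.  `e_t ∈ W_(h t)` (`wt`), so `z ∈ W_K`, `mexp z ∈ 1 + z + W_(2K)`, and `∏ mexp (- z_t e_t) ∈ 1 - ∑_(t ∈ S) z_t e_t + W_(2K)` (`1 ≤ K`, so `2 K ≥ K + 1`).  The product is in `1 + W_(K+1)`, because `z - ∑_(t ∈ S) z_t e_t ∈ W_(K+1)`.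
So `x = mlog (product) ∈ W_(K+1)`, and `x ∈ n` by BCH, LGM: `x = ∑ x_t e_t`.  The entries of weight `ρ` of `x` (the projection `part`-like map: keep the entries `(i,j)` with `a_i - a_j = ρ(a)` for all `a`) are `0` unless `ρ = p rt l + q rt l'` with
`p, q ≥ 1`, `p + q ≥ K + 1`; for `ρ = rt t` they are the sum of the `x_t' e_t'` over the `t'` with `rt t' = rt t`, which is not `0` if `x_t ≠ 0` (`lin`).  So `x_t ≠ 0` implies `rt t = p rt l + q rt l'`, `p, q ≥ 1`, `p + q ≥ K + 1`.  (This is the only change: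
in QSX the sum has one term.) -/
def CkmStmt : Prop :=
  ∀ (X : Dat) (hX : MRB X) (l l' : hX.ι), (∀ c : ℝ, hX.rt l ≠ c • hX.rt l') → ∀ (K : ℕ), 1 ≤ K →
    ∀ (z : hX.ι → ℝ) (h : hX.ι → ℕ), (∀ t, z t ≠ 0 → K ≤ h t ∧ ∃ p q : ℕ, 1 ≤ p ∧ 1 ≤ q ∧ p + q = h t ∧
      hX.rt t = (p : ℝ) • hX.rt l + (q : ℝ) • hX.rt l') →
    ∀ S : List hX.ι, S.Nodup → (∀ t, z t ≠ 0 → h t = K → t ∈ S) → (∀ t ∈ S, z t ≠ 0 ∧ h t = K) →
    ∃ x : hX.ι → ℝ, mexp (∑ t, z t • hX.e t) * (S.map fun t => mexp (-(z t • hX.e t))).prod =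
        mexp (∑ t, x t • hX.e t) ∧
      ∀ t, x t ≠ 0 → ∃ p q : ℕ, 1 ≤ p ∧ 1 ≤ q ∧ K + 1 ≤ p + q ∧
        hX.rt t = (p : ℝ) • hX.rt l + (q : ℝ) • hX.rt l'

/-- **CDM** (medium-strong, uses LGM of QSX, CBM CCM CKM; copy of `Helper10_QSX/CHD.lean`).  Every homogeneous family is a product of monomial factors.
Proof.  For `t` with `rt t = p rt l + q rt l'`, `p, q ≥ 1` (then `(p,q)` is unique, `h t = p + q`).  Let `H` be an upper bound of the `h t`.  Claim for `K ≥ 1`, by induction on `H + 1 - K`: a family `G` whose monomials (CBM) all have `h t ≥ K` is a product over a list with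
different `t`, all of height `≥ K`.  `K > H`: `G = 1`, empty list.  Step: `S` = a list of the `t` with `c t ≠ 0`, `h t = K`; `G' = G ∏_(t ∈ S) mexp (- c_t X^p Y^q e_t)` (CCM) is a homogeneous family, its monomials `c'_t X^p Y^q` (CBM) are all of height `≥ K + 1`:
evaluate at `(1,1)`, CKM gives `evM 1 1 G' = mexp (∑ x_t e_t)` with all heights `≥ K + 1`, and `c'_t = x_t` (LGM: `mlog`, and `lin`).  By induction `G'` is a product over a list `L'` with heights `≥ K + 1`; `G = G' ∏_(t ∈ reverse S) mexp (c_t X^p Y^q e_t)`. -/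
def CdmStmt : Prop :=
  ∀ (X : Dat) (hX : MRB X) (l l' : hX.ι), (∀ c : ℝ, hX.rt l ≠ c • hX.rt l') →
    ∀ G : Matrix (Fin X.m) (Fin X.m) R2,
    FamB hX l l' G → ∃ L : List (hX.ι × ℕ × ℕ × ℚ),
      (∀ t ∈ L, 1 ≤ t.2.1 ∧ 1 ≤ t.2.2.1 ∧
        hX.rt t.1 = (t.2.1 : ℝ) • hX.rt l + (t.2.2.1 : ℝ) • hX.rt l') ∧
      (L.map fun t => t.1).Nodup ∧
      ∀ x y : ℝ, evM x y G =
        (L.map fun t => mexp (((t.2.2.2 : ℝ) * x ^ t.2.1 * y ^ t.2.2.1) • hX.e t.1)).prod

/-- **CVM** (medium, uses CHA (QSX) CAM (QSN) CCM CDM; version of `Helper23_QSN/CVM.lean`).  The short form implies the long form.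
Proof.  `self`: `z = [e l, e l']`, `rt l = rt l'`, is a rational matrix in `n` of weight `2 • rt l`; `z = ∑ c_t e_t` with real `c_t` (`span_e`), `c_t = 0` unless `rt t = 2 • rt l` (`wt`, `lin`), and the `c_t` are rational (CHA).  `L l l'`: for `rt l ≠ rt l'` the list of CDM for the commutator family of CCM (iii), for `rt l = rt l'` the empty list (decide with `Classical`).  `com`: `ue` of the strictly upper triangular matrices `x • e l` is `mexp` (`ue_val`, `ue_inv_val`, `List.prod` of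
units).  `gen`: let `t ∈ L l l'`, `rt t' = rt t.1 = p rt l + q rt l'`; `MRB.gen` and CAM (the brackets of rational matrices are rational) give `e t'` as a rational combination of brackets; choose `w`, `w'` for each.  `L_comp`: let `t` be in the list of `l`, `l'` and
`κ : J → ℝ` positive, `S = scal κ`: `κ(comp t) (p rt l + q rt l') = κ(comp l) p rt l + κ(comp l') q rt l'` (apply `rt t = p rt l + q rt l'` at `S a`), so by linear independence of `rt l`, `rt l'` (`nonprop`, `pos`)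
`κ(comp t) = κ(comp l) = κ(comp l')` for every positive `κ` (`κ = 2` at one component, `1` elsewhere): `comp t = comp l = comp l'`.  The other fields are the same. -/
def CvmStmt : Prop := ∀ X : Dat, Nonempty (MRB X) → Nonempty (MB X)

end Pool.Agent.QSB
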