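import Pool.Agent.QSB.StmtsE
import Pool.Agent.QSB.StmtsC
import Pool.Agent.QSB.StmtsF

/-!
# Squad QSB, examples, second part (helper18)

Rows `MBH PRB MSB WKX FNB EXB`.  NOTATION: `R i = Fin.rev i`, `σ = sg p d`, `m = 2 p + d`, `r` = the first
middle index `p` (`d ≥ 1`), `c_i = cH i`.
-/

set_option autoImplicit false

namespace Pool.Agent.QSB

open Matrix Finset Pool.Agent.QSX Pool.Agent.QSN

/-- **MBH** (strong, uses EHM RYH of StmtsE; compare `Helper30_QSN/MSU.lean`, `Helper70_QSN/MSO.lean`).  The datum of `SU (p, p + d)`, `Sp (p, p + d)` is of type `MRB`.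
Proof.  Choose a finite rational basis `B` of `𝔻` (as in MSD) and a finite rational basis `B'` of `H = {h ∈ 𝔻 : hᵀ = - h}` (`H` is spanned by the rational matrices `z - zᵀ`, `z ∈ S`; see MSU).
`ι = {(i,j,β) : i < p, i < j, i + j < m - 1, β ∈ B} ⊕ {(i,h) : i < p, h ∈ B'}`; `e (i,j,β) = blk (eH i j β)`, root `c_i - c_j`; `e (i,h) = blk (eH i (R i) h)`, `eH i (R i) h = single i (R i) (2 h)`, root `c_i - c_(R i) = 2 c_i`.  TYPES: (A) `j < p`: root `c_i - c_j`; (B) `j` middle: root `c_i` (`c_j = 0`);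
(C) `j = R h`, `i < h < p`: root `c_i + c_h`; (L) root `2 c_i`.  `rat`: the blocks are `β`, `-βᵀ`, `2 h`.
`span_e`, `lin`: every position `(a,b)`, `a < b`, not (middle, middle), or its mirror image `(σ b, σ a)` is `(i,j)` with `i < p`, `i + j < m - 1`, or `(i, R i)`: so `x = ∑ eH i j (x i j) + ∑ single i (R i) (x i (R i))`, and `x i (R i) ∈ H`; compare blocks.
`wt`: EHM.  `pos`: the vector with `c_i = p - i` (`i < p`; EHM, last part): values `j - i`, `p - i`, `(p - i) + (p - h)`, `2 (p - i)`, integers `≥ 1`.  `sep`: type (B) exists: all `c_i = 0`.  `ray`: `RR.ray` of RYH (`e l ≠ 0` is a root vector).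
`gen` for `t'`: (A) `j ≥ i + 2`, `h = i + 1`: `eH i j β = [eH i h 1, eH h j β]`.  (B) `i ≤ p - 2`, `h = i + 1`: the same formula.  (C) `eH i (R h) β = [eH i r (-β), eH h r 1]` (roots `c_i`, `c_h`).  (L) `i ≤ p - 2`, `h = i + 1`: `eH i (R i) g = [eH i h 1, eH h (R i) g]` (roots `c_i - c_h`, `c_h + c_i`; `eH h (R i) g` is, up to sign,
`eH i (R h) gᵀ`, an element of the basis space (C)).  (`[eH i h a, eH h b' b] = eH i b' (a b)`, `b' = j` or `R i`; `[eH i r a, eH h r b] = - eH i (R h) (a bᵀ)`.)  `1 = ∑ q_β β`; the brackets are bilinear; the two roots are not proportional and their sum is `rt t'`.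
Otherwise `rt t'` is proportional to a simple root `α_i`: (A) `j = i + 1`, or `i = p - 1` and (B), (L).  Then `gen` has no instance: let `u ∈ b` be the vector with `c_h = p - 1 - h` for `h ≤ i` and `c_h = p - h` for `i < h < p`.  All roots are `≥ 0` at `u`, and `0` only if they are proportional to `α_i` (check the types).
`rt t' (u) = 0`, so `rt t (u) = 0` (`rt t' = c • rt t`, `c ≠ 0`), and `rt t = p rt l + q rt l'`, so `rt l (u) = rt l' (u) = 0` and `rt l`, `rt l'` are proportional: against the hypothesis.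
`J = Unit`, `top = (0, h₀)`, `h₀ ∈ B'` (`B'` is not empty), root `2 c_0`.  `climb`: `x = blk y`; all blocks of `y` are in row `i` and their mirror images.  (1) `i > 0`: `k = (0,i,β)`, root `c_0 - c_i`: the block `(0,j)` of `[y, eH 0 i β]` is `- β (y i j)` for all `j`; all `β ∈ B`: `y i j = 0`.  (2) `i = 0`, (A): `k = (j,r,β)`,
root `c_j`: block `(0,r)` of `[y, eH j r β]` is `(y 0 j) β`.  (3) `i = 0`, (B): `k = (1,r,β)`, `r` any middle index: block `(0, R 1)` of the bracket is `- (y 0 r) βᵀ`.  (4) `i = 0`, (C), `y = eH 0 (R h) a`, `1 ≤ h < p`: `k = (0,h,β)`, root `c_0 - c_h`: the block `(0, R 0)` of `[eH 0 h β, y]` is `- (β aᵀ - a βᵀ)`; if it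
vanishes for all `β ∈ B`, so for all `β ∈ 𝔻`, and `a ≠ 0`, take `β = g b`, `aᵀ b = 1`, so `b aᵀ = 1` and `β aᵀ = g`, `gᵀ = - g ≠ 0`: `g = β aᵀ = a βᵀ = gᵀ = - g`, contradiction.  `rank1`: the roots `c_0 - c_1`, `2 c_0` are different.  `scal`: `S = κ • id`. -/
def MbhStmt : Prop :=
  ∀ (p d k : ℕ) (𝔻 : Subalgebra ℝ (Matrix (Fin k) (Fin k) ℝ)), 0 < k → 2 ≤ p → 1 ≤ d →
    Herm 𝔻 1 → Nonempty (MRB (datH p d 𝔻))

/-- **PRB** (medium-strong, uses EBD of QSX; version of PRM, copy of `Helper80_QSN/PRM.lean`).  Products of data of type `MB`.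
Proof.  As PRM (`QSN/StmtsE.lean`), with `rt l ≠ rt l'` replaced by not proportional.  The root of an `inl` is `0` on `b₂` and not `0` on `b₁`, so it is not proportional to the root of an `inr`. -/
def PrbStmt : Prop :=
  ∀ X₁ X₂ : Dat, Nonempty (MB X₁) → Nonempty (MB X₂) → Nonempty (MB (X₁.prod X₂))

/-- **MSB** (easy-medium, uses CSR of QSN).  `MS` implies `MB`. -/
def MsbStmt : Prop := ∀ X : Dat, Nonempty (MS X) → Nonempty (MB X)

/-- **WKX** (uses VGQ WKM). -/
def WkxStmt : Prop := ∀ X Y : Dat, Nonempty (MB X) → QE X Y → WkP X Y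

/-- **FNB** (uses WKX ALB and EMB of QSX).  The main theorem in equal rank. -/
def FnbStmt : Prop :=
  ∀ X Y : Dat, Nonempty (MB X) → RR Y → (S3 X ∨ Red Y) →
    Module.finrank ℝ X.b = Module.finrank ℝ Y.b →
    (QE X Y ↔ AlgEmb X Y) ∧ ((∃ f : X.Pt → Y.Pt, QIE X.dist Y.dist f) ↔ AlgEmb X Y)

end Pool.Agent.QSB
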