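import Pool.Agent.QSB.StmtsT
import Pool.Agent.QSN.StmtsD

/-!
# Squad QSB, sources (helper19): the class `Src` of the symmetric spaces which are admissible as sources

Rows `MSM MNR PNR CNR ALC`.  A row is proved as a theorem without hypotheses (all rows: uses none).
NOTATION in the docstrings: `[x,y] = x * y - y * x`.
-/

set_option autoImplicit false

namespace Pool.Agent.QSB

open Matrix Finset Pool.Agent.QSX Pool.Agent.QSN

/-- Symmetric spaces which are admissible as sources: `n` has a basis of rational root vectors, there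
is no Euclidean factor, and no factor of rank one except the hyperbolic plane. -/
def Src (X : Dat) : Prop := Nonempty (Sym X) ∧ ∃ R : RBas X, R.NR

/-- Transport of the scalar product of functionals. -/
theorem ip_trans {X Z : Dat} (q : Z.b →ₗ[ℝ] X.b) (j : X.b →ₗ[ℝ] Z.b) {r : ℝ} (hr : r ≠ 0)
    (h : ∀ a c, bil Z (j a) c = r * bil X a (q c)) (μ : X.b →ₗ[ℝ] ℝ) (ν : Z.b →ₗ[ℝ] ℝ) :
    ip Z (μ ∘ₗ q) ν = r⁻¹ * ν (j (tv X μ)) := by
  have h1 : tv Z (μ ∘ₗ q) = r⁻¹ • j (tv X μ) := by
    refine (tv Z).symm.injective ?_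
    rw [LinearEquiv.symm_apply_apply]
    refine LinearMap.ext fun c => ?_
    show μ (q c) = bil Z (r⁻¹ • j (tv X μ)) c
    rw [map_smul, LinearMap.smul_apply, h, bil_tv, smul_eq_mul, inv_mul_cancel_left₀ hr]
  rw [ip_comm, ← ip_eq, h1, map_smul, smul_eq_mul]

/-- **MSM** (easy, no hypotheses; compare `Helper18_QSB/MSB.lean`).  `MRS` implies `MRB`.
Proof.  In a datum of type `MRS` proportional roots are equal (`nonprop`), and `rt l = c • rt l'` implies then `c = 1` (`pos`): `ray`.  `gen`: `rt t = c • rt s` gives `rt t = rt s`, and `rt w ≠ rt w'` implies `∀ c, rt w ≠ c • rt w'`; `comp_rt`, `climb`: the same.  All other fields are those of `hX`. -/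
def MsmStmt : Prop := ∀ X : Dat, Nonempty (MRS X) → Nonempty (MRB X)

/-- **MNR** (medium, no hypotheses).  A datum of type `MRB` has a rational basis with the property `NR`.
Proof.  `R` has the same `ι`, `e`, `rt` as `hX`.  Let `a₁` be the vector of `pos`; so `rt l a₁ > 0`, `rt l ≠ 0`.  (*) If `[e l, e k] ≠ 0` and `rt k` is not proportional to `rt l`, then `rt l + rt k = rt t` for some `t`, and `comp t = comp l = comp k`: `[e l, e k] ∈ n` has the weight `rt l + rt k` (`wt`), so (proof of `Helper45_QSB/WTX.lean`: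
write it as `∑ x_t e_t` and compare coefficients, `lin`) `x_t ≠ 0` for some `t` with `rt t = rt l + rt k`.  For `κ : J → ℝ` positive and `S = scal κ`: `κ(comp t) (rt l + rt k) = κ(comp l) rt l + κ(comp k) rt k` (apply the equation at `S a`), so by the linear independence of `rt l`, `rt k` (not proportional, `≠ 0`) `κ(comp t) = κ(comp l) = κ(comp k)`;
`κ = 2` at one component, `1` elsewhere (`Classical`): the components are equal.
Let `l : ι`; suppose that the first alternative of `NR` is false: (1) every `k` with `rt k` not proportional to `rt l` (`∀ c, rt k ≠ c • rt l`) has `ip (rt l) (rt k) = 0`.  Claim A: for every `k` with `comp k = comp l` there is `c` with `rt k = c • rt l`.  Otherwise choose such a `k` which is not proportional to `rt l`, with `rt k a₁` maximal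
(`ι` is finite: `Finset.exists_max_image`).  If `rt k ≠ rt (top (comp k))`: by `climb` (with `x = e k ≠ 0`) there is `k'`, not proportional to `rt k`, with `[e k, e k'] ≠ 0`, so by (*) `rt k + rt k' = rt t`, `comp t = comp k' = comp l`, `rt t a₁ > rt k a₁`, so by maximality `rt t = c • rt l`; `rt k' = c • rt l - rt k` is not proportional
to `rt l` (otherwise `rt k` is), so `ip (rt l) (rt k') = 0 = ip (rt l) (rt k)` by (1), so `0 = ip (rt l) (rt t) = c |rt l|²`, so `c = 0`, `rt t = 0`: contradiction.  If `rt k = rt (top (comp l))`, then `rt l ≠ rt (top (comp l))` (`k` is not proportional to `l`), so by `climb` for `l` (`x = e l`) there is `k'` not proportional to `rt l`, `[e l, e k'] ≠ 0`,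
`rt l + rt k' = rt t` by (*); `rt t` is not proportional to `rt l`; by (1) `ip (rt l) (rt k') = 0` and `ip (rt l) (rt t) = 0`, so `|rt l|² = 0`: contradiction.
Claim B: `rt k = rt l` for all `k` with `comp k = comp l`.  Otherwise one of `rt k`, `rt l` is different from `rt (top (comp l))`; let `k₀ ∈ {k, l}` be this index; by `climb` there is `k'` not proportional to `rt k₀` with `[e k₀, e k'] ≠ 0`, by (*) `comp k' = comp k₀ = comp l`, by Claim A `rt k'` and `rt k₀` are multiples of `rt l` (`≠ 0` multiples): so they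
are proportional, a contradiction.
So by `rank1` every `k` with `comp k = comp l` is `l`.  Second alternative: if `ip (rt l) (rt l') ≠ 0` then by (1) `rt l' = c • rt l` for some `c`, so `comp l' = comp l` (`comp_rt`), `l' = l`. -/
def MnrStmt : Prop := ∀ X : Dat, Nonempty (MRB X) → ∃ R : RBas X, R.NR

/-- **PNR** (medium, no hypotheses; compare `Helper20_QSB/PRB.lean`).  Products.
Proof.  `ι = ι₁ ⊕ ι₂`, `e (inl l) = bd (e l) 0`, `e (inr l) = bd 0 (e l)`, `rt (inl l) = rt l ∘ₗ p₁`, `rt (inr l) = rt l ∘ₗ p₂` with the projections `p_i` of `b` (restriction to the coordinates `castAdd`, `natAdd`).  `rat`, `span_e`, `lin`, `wt`, `sep` as in PRB.  Scalar product: `j₁ a = Fin.append a 0`, `j₂ a = Fin.append 0 a`,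
`bil Z (j₁ a) c = bil X₁ a (p₁ c)` (`Fin.sum_univ_add`), so by `ip_trans` (`r = 1`) `ip (rt l ∘ p₁) (rt l' ∘ p₁) = ip (rt l) (rt l')` and `ip (rt l ∘ p₁) (rt l' ∘ p₂) = 0`.  `NR` for `inl l`: if `l'` is as in the first alternative for `l`, then `inl l'` is (`rt l' ∘ p₁ = c • (rt l ∘ p₁)` implies `rt l' = c • rt l`, `p₁ ∘ j₁ = id`); second
alternative: `ip ≠ 0` implies that the other index is `inl l'`, and `l' = l`. -/
def PnrStmt : Prop :=
  ∀ X₁ X₂ : Dat, (∃ R : RBas X₁, R.NR) → (∃ R : RBas X₂, R.NR) → ∃ R : RBas (X₁.prod X₂), R.NR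

/-- **CNR** (medium, no hypotheses; compare row MCX of `StmtsT`, `Helper10_QSX/CEX.lean`).  Complexifications.
Proof.  `ι' = ι × Bool`, `e' (l, false) = blk (cx (e l) 0)`, `e' (l, true) = blk (cx 0 (e l))`, `rt' (l, _) = rt l ∘ₗ q`, `q : X.C.b → X.b`, `q (cst 2 m d) = d`.  `rat`: entries `0`, `± e l i j` (`cx_apply`, `blk_apply`, `jj`).  `span_e`: `blk (cx x y)`, `x, y ∈ n`, `cx x y = ∑ x_l cx (e l) 0 + ∑ y_l cx 0 (e l)`.  `lin`: `cx_inj`.  `wt`: `blk_dia`, `dia_cx`,
`cx_mul`.  `sep`: clear.  Scalar product: `j a = cst 2 m a`, `bil X.C (j a) c = 2 * bil X a (q c)` (`Fintype.sum_prod_type` after `finProdFinEquiv`), so by `ip_trans` `ip (rt l ∘ q) (rt l' ∘ q) = ip (rt l) (rt l') / 2`.  `NR`: the first alternative for `l` (hypothesis) gives the first alternative for `(l, _)`. -/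
def CnrStmt : Prop :=
  ∀ (X : Dat) (R : RBas X),
    (∀ l, ∃ l', (∀ c : ℝ, R.rt l' ≠ c • R.rt l) ∧ ip X (R.rt l) (R.rt l') ≠ 0) →
    ∃ R' : RBas X.C, R'.NR

/-- **ALC** (easy-medium, no hypotheses; compare `Helper12_QSN/SLS.lean`, `Helper67_QSN/SLR.lean`).  The real numbers, the complex numbers, the quaternions.
Proof.  `RatSp`: row SLS (`Helper12_QSN/SLS.lean`, no hypotheses).  Inverses: first claim of row SLR (`Helper67_QSN/SLR.lean`, no hypotheses).  Transpose: `(leftMulMatrix basisOneI z)ᵀ = leftMulMatrix basisOneI (conj z)`, and the same for the quaternions with `star` (compute the entries: `Algebra.leftMulMatrix_eq_repr_mul`; the matrices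
of the left multiplications with the basis elements `1`, `i`, `j`, `k` are `1` and skew symmetric, and the transpose is linear); for `ℝ`, `k = 1`: `xᵀ = x` (`Fin 1`).  `h`: for `ε = -1` take `h = 1`; for `ε = 1` the matrix of `i`, a skew symmetric matrix. -/
def AlcStmt : Prop :=
  (Div (reg ℝ (Module.Basis.singleton (Fin 1) ℝ)) ∧
    Herm (reg ℝ (Module.Basis.singleton (Fin 1) ℝ)) (-1)) ∧
  (Div (reg ℂ Complex.basisOneI) ∧ Herm (reg ℂ Complex.basisOneI) 1 ∧
    Herm (reg ℂ Complex.basisOneI) (-1)) ∧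
  (Div (reg (Quaternion ℝ) (QuaternionAlgebra.basisOneIJK (-1) 0 (-1))) ∧
    Herm (reg (Quaternion ℝ) (QuaternionAlgebra.basisOneIJK (-1) 0 (-1))) 1 ∧
    Herm (reg (Quaternion ℝ) (QuaternionAlgebra.basisOneIJK (-1) 0 (-1))) (-1))

end Pool.Agent.QSB
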