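import Pool.Agent.QSB.StmtsX4
import Pool.Agent.QSB.StmtsU

/-!
# Squad QSB: the condition on the source in a natural form (helper45)

`A2f X`: the symmetric space `X` has a factor of type `A_2` with root spaces of dimension `> 1`
(`SL_3 (ℂ)`, `SL_3 (ℍ)`, `E_6(-26)`).  For the admissible sources this is the negation of `S4s`.
-/

set_option autoImplicit false

namespace Pool.Agent.QSB

open Matrix Finset Pool.Agent.QSX Pool.Agent.QSN

/-- There is a factor of type `A_2` with root spaces of dimension `> 1`: two roots `α`, `β`, not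
proportional, such that `α + β` is a root and all the other roots are orthogonal to `α` and `β`, and the
root space of `α` has two vectors which are not proportional. -/
def A2f (X : Dat) : Prop :=
  ∃ α β : X.b →ₗ[ℝ] ℝ, IsRt X α ∧ IsRt X β ∧ IsRt X (α + β) ∧ NPr α β ∧
    (∀ γ, IsRt X γ → γ = α ∨ γ = β ∨ γ = α + β ∨ (ip X γ α = 0 ∧ ip X γ β = 0)) ∧
    ∃ x y, RtV X α x ∧ RtV X α y ∧ ∀ c : ℝ, y ≠ c • x

/-- **NAS** (medium-strong, uses GWB INT WTR SMR SPR SUP of StmtsS).  Without a factor of type `A_2` with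
root spaces of dimension `> 1` the condition `S4s` holds.
Proof.  GWB (1), (4), (2): if `u`, `w` are root vectors of `σ`, `τ` and `[u, w] ≠ 0` then `σ + τ` is a root.
So INT says: (a) if `σ`, `τ` are roots and `ip τ σ < 0` then `σ + τ` is a root; (b) if `ip τ σ = - ip σ σ`
then `τ + 2 σ` is a root (third claim; then also `[x, z] ≠ 0`, so `σ + τ` is a root and
`[x, [x, z]]` is a root vector of `σ + (σ + τ)`).  Every root `γ` has `γ(a₀) > 0`.
Let `α` be simple and suppose that the first alternative of `S4s` is false: there are root vectors `x`,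
`y` of `α`, `y ≠ c • x` for all `c`; `A = |α|² > 0`.
(0) There is a root `δ₀`, not a multiple of `α`, with `ip α δ₀ ≠ 0`.  By WTR `α = rt l` for some `l`.  If
the second alternative of `NR` holds for `l`, then `l` is the only index with `rt l' = α` (as
`ip α α ≠ 0`), so by WTR (first claim) `x` and `y` are multiples of `e l`: a contradiction to
`y ≠ c • x`, `x ≠ 0`.  So the first alternative holds.
(1) There is a simple root `β ≠ α` with `ip α β ≠ 0`: otherwise SUP with `{α}` and the set of the simple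
roots `≠ α` says that `δ₀` is a sum of copies of `α` (a multiple of `α`), or a sum of simple roots
orthogonal to `α` (so `ip α δ₀ = 0`): contradiction.  By SPR (`α ≠ β`) `ip α β < 0`.  Different simple
roots `α`, `β` are not proportional if `ip α β < 0`: if `β = c α` or `α = c β` then `c > 0` (values at
`a₀`) and `ip α β > 0`.  `α + β` is a root by (a).
(2) Let `2 ip β α = n |α|²` (INT), `n ≤ -1`.  If `n ≤ -2` then `2 α + β` is a root: for `n = -2` by (b);
for `n ≤ -3` by (a) twice (`ip (α + β) α = (1 + n/2) A < 0`).  Second alternative of `S4s` with `γ = β`.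
So `n = -1` for every such `β`, i.e. `ip β α = - A/2`.  Let `2 ip α β = k |β|²`, `k ≤ -1`.  If `k ≤ -2`
then in the same way `α + 2 β` is a root: third alternative with `γ = γ' = β`.  So `k = -1`, `|β|² = A`.
(3) If there is another simple root `β' ≠ α, β` with `ip α β' ≠ 0`: it is `< 0`, `α + β'` is a root, and
`ip (α + β) β' = ip α β' + ip β β' < 0` (SPR), so `α + β + β'` is a root: third alternative with `γ = β`,
`γ' = β'` (`NPr` as in (1)).  So assume that all simple roots `≠ α, β` are orthogonal to `α`.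
(4) Suppose that some simple root `γ ≠ α, β` has `ip β γ ≠ 0`, so `< 0`.  `ip α γ = 0`.  `β + γ` is a root
(a), `ip (α + β) γ < 0`, so `α + β + γ` is a root.  If `κ = β + γ + β` is a root: `ip κ α = - A`, so by (b)
`2 α + κ` is a root: second alternative with `κ`.  Otherwise the last alternative with `β`, `γ`
(`NPr γ α`, `NPr γ β`: different simple roots: if `γ = c α` or `α = c γ` then `c > 0`, but
`ip α γ = 0`; `NPr (β + γ) α`: if `β + γ = c α` or `α = c (β + γ)`, then `c > 0` and
`ip (β + γ) α = - A/2 < 0`: contradiction).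
(5) Otherwise SUP with `{α, β}` and the set of the simple roots `≠ α, β` (orthogonal to `α`, `β`): every
root is a sum of copies of `α`, `β`, or a sum of roots orthogonal to `α` and `β`.  `A2f X` is false, so
there is a root `δ`, `δ ≠ α, β, α + β`, which is not orthogonal to both; so `δ = a α + b β`, `a`, `b`
natural numbers (count the elements of the list).  `|δ|² = q A`, `q = a² - a b + b² > 0`; INT (`μ = δ`):
`2 ip α δ = (2 a - b) A` and `2 ip β δ = (2 b - a) A` are integral multiples of `q A`: `q` divides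
`2 a - b` and `2 b - a`.  If `2 a = b`: `q = 3 a²` divides `3 a`, so `a = 1`, `δ = α + 2 β`: third
alternative with `γ = γ' = β`.  If `a = 2 b`: in the same way `δ = 2 α + β`: second alternative.
Otherwise `q² ≤ (2 a - b)² = 4 q - 3 b²`, and `q² ≤ 4 q - 3 a²`, so `q ≤ 4`, `3 a², 3 b² ≤ 4`, `a, b ≤ 1`:
`δ ∈ {0, α, β, α + β}`: contradiction (`δ ≠ 0`). -/
def NasStmt : Prop :=
  ∀ X : Dat, Nonempty (Sym X) → ∀ R : RBas X, R.NR → ¬ A2f X → S4s X

/-- **SNA** (medium, uses GWB).  `S4` excludes the factors of type `A_2` with root spaces of dimension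
`> 1`.
Proof.  Every root `γ` has `γ(a₀) > 0` (GWB (1)), so sums of roots are not `0`.  Let `α`, `β`, `x`, `y` be as
in `A2f`, `A = |α|² > 0`, `O(γ)`: `ip γ α = 0 ∧ ip γ β = 0`.
(i) `α - β` and `β - α` are no roots: let `κ = α - β` be a root.  `κ = α`: `β = 0`; `κ = β`: `α = 2 β`,
against `NPr`; `κ = α + β`: `β = 0`; `O(κ)`: `ip κ κ = 0`, `κ = 0`, `α = β`.  The same for `β - α`.
(ii) `2 α + β` and `α + 2 β` are no roots: `2 α + β = α`, `β`, `α + β` imply `α + β = 0`, `α = 0`, `α = 0`;
`O(2 α + β)` implies `ip (2 α + β) (2 α + β) = 0`, `2 α + β = 0`.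
(iii) If `γ` is a root, `NPr γ α` and `α + γ` is a root, then `γ = β`: `γ = α` is excluded by `NPr`;
`γ = α + β`: `2 α + β` is a root, no; `O(γ)`: `ip (α + γ) α = A ≠ 0`, so `α + γ` is `α` (`γ = 0`), `β`
(`γ = β - α`, no by (i)) or `α + β` (`γ = β`, and then `ip β β = 0`).
Now `S4` for `ρ = α`.  (1) `Gnd`: `x ≠ 0` is in the span of a set, so the set is not empty: roots `σ`, `σ'`
with `σ + σ' = α`.  `ip σ α + ip σ' α = A`, so (by symmetry) `ip σ α ≠ 0`, so `σ = α` (`σ' = 0`), `σ = β`
(`σ' = α - β`, no) or `σ = α + β` (`σ' = - β`, negative at `a₀`).  (2) `α = 2 σ`: `ip σ α = A/2 ≠ 0`, so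
`σ = α` (`α = 0`), `σ = β` (`NPr`) or `σ = α + β` (`α + 2 β = 0`).  (3) contradicts the choice of `x`, `y`.
(4) `γ`, `τ = 2 α + γ` roots.  `γ = α`: `τ = 3 α` is `α`, `β`, `α + β` (then `α = 0`, or against `NPr`) or
`O(τ)` (`A = 0`).  `γ = β`: (ii).  `γ = α + β`: `τ = 3 α + β` is `α` (`2 α + β = 0`), `β`, `α + β` (`α = 0`) or
`O(τ)` (`ip τ τ = 0`).  `O(γ)`: `ip τ α = 2 A ≠ 0`: `τ = α` (`γ = - α`), `τ = β` (`γ = β - 2 α`, and
`ip γ γ = ip γ β - 2 ip γ α = 0`), `τ = α + β` (`γ = β - α`, no).
(5) `γ = γ' = β` by (iii), and `α + β + β` is a root: no by (ii).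
(6) `β' = β` by (iii) (`β'` the first root of the last alternative of `S4`), and `κ = β + γ'` is a root with
`NPr κ α`, `α + κ` a root: `κ = β` by (iii), `γ' = 0`, but `γ'(a₀) > 0`. -/
def SnaStmt : Prop := ∀ X : Dat, Nonempty (Sym X) → S4 X → ¬ A2f X

end Pool.Agent.QSB
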