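import Pool.Agent.QSB.SymDefs
import Pool.Agent.QSB.StmtsF

/-!
# Squad QSB, symmetric spaces (helper18): structure theory of self adjoint Lie algebras

Definitions `Sym`, `GW`, `tv`, `ip` with their basic lemmas are in `QSB/SymDefs.lean` (the scalar product
`ip X μ ν` of functionals on `b`: `ip_eq : μ (tv X ν) = ip X μ ν`, `ip_comm`, `ip_add_left`, .., `ip_self_pos`,
strict Cauchy-Schwarz `ip_cs`).  Roots, root vectors: `IsRt`, `RtV`, `WtV`, `NPr`, `Ray`, `RR`, `S3` in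
`QSB/StmtsR.lean`.  One statement per row; every docstring contains a complete proof.  A row is proved as a theorem
with the statements named after the word uses as hypotheses, in this order.  NOTATION in the docstrings:
`[x,y] = x * y - y * x`, `|μ|² = ip μ μ`, `D = diagonal c`.
-/

set_option autoImplicit false

namespace Pool.Agent.QSB

open Matrix Finset Pool.Agent.QSX

/-! ### The target: `RR` for symmetric spaces -/

/-- **GWB** (medium, no hypotheses).  Basic facts on weight vectors.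
Proof.  (1) `x ∈ g` (`n_mem`), `x ≠ 0`: take an entry `x_ij ≠ 0`; `a₀_j < a₀_i` and `ρ(a₀) x_ij = (a₀_i - a₀_j) x_ij`, so `ρ(a₀) = a₀_i - a₀_j > 0`.  (2) If `x_ij ≠ 0` then `a₀_i - a₀_j = μ(a₀) > 0`; `n_mem`.  (3) Transpose the equation.  (4) `[D,[x,z]] = [[D,x],z] + [x,[D,z]]`.
(5) Suppose `μ(c) ≠ 0`.  The diagonal entries of `x` vanish (`0 = μ(c) x_ii`).  `x + xᵀ` commutes with `diag a₀` (by (3)), so it is diagonal, so it is `0`: `xᵀ = -x`.  By (3) `x` has the weights `μ` and `-μ`, so `2 μ(c) x = 0`, `x = 0`, a contradiction. -/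
def GwbStmt : Prop :=
  ∀ (X : Dat) (S : Sym X),
    (∀ (ρ : X.b →ₗ[ℝ] ℝ) (x : Matrix (Fin X.m) (Fin X.m) ℝ), RtV X ρ x → GW S ρ x ∧ 0 < ρ S.a₀) ∧
    (∀ (μ : X.b →ₗ[ℝ] ℝ) (x : Matrix (Fin X.m) (Fin X.m) ℝ), GW S μ x → 0 < μ S.a₀ → RtV X μ x) ∧
    (∀ (μ : X.b →ₗ[ℝ] ℝ) (x : Matrix (Fin X.m) (Fin X.m) ℝ), GW S μ x → GW S (-μ) xᵀ) ∧
    (∀ (μ ν : X.b →ₗ[ℝ] ℝ) (x z : Matrix (Fin X.m) (Fin X.m) ℝ), GW S μ x → GW S ν z →
      x * z - z * x ≠ 0 → GW S (μ + ν) (x * z - z * x)) ∧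
    (∀ (μ : X.b →ₗ[ℝ] ℝ) (x : Matrix (Fin X.m) (Fin X.m) ℝ), GW S μ x → μ S.a₀ = 0 → μ = 0)

/-- **TRI** (medium, uses GWB).  The bracket `[x, xᵀ]`.
Proof.  `trace (x * xᵀ) = ∑ x_ij² > 0` because `x ≠ 0`.  `h = [x, xᵀ] ∈ g` is symmetric and commutes with all `diag c`, `c ∈ b` (weights `μ`, `-μ`; or directly by Jacobi), so `h = diagonal d` (`reg`), `d ∈ b` (`b_mem`).  For `c ∈ b`: `∑ c_i d_i = trace (diag c * [x, xᵀ]) = trace ([diag c, x] * xᵀ) = μ(c) trace (x * xᵀ)`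
(`trace_mul_comm`, `trace_mul_cycle`), and `μ(c) = ∑ c_i (tv μ)_i` (`tv_apply`).  So `d - trace (x * xᵀ) • tv μ ∈ b` is orthogonal to `b`, in particular to itself (`bil_self_eq_zero`): it is `0`. -/
def TriStmt : Prop :=
  ∀ (X : Dat) (S : Sym X) (μ : X.b →ₗ[ℝ] ℝ) (x : Matrix (Fin X.m) (Fin X.m) ℝ), GW S μ x →
    0 < Matrix.trace (x * xᵀ) ∧
    x * xᵀ - xᵀ * x = Matrix.trace (x * xᵀ) • diagonal (tv X μ : Fin X.m → ℝ)

/-- **SLT** (medium-strong, no hypotheses).  Facts on `sl₂` triples of matrices.  Use `IsSl2Triple` (`Mathlib/Algebra/Lie/Sl2.lean`) in the Lie ring `Matrix (Fin m) (Fin m) ℝ` (`⁅x, y⁆ = x * y - y * x`, `Ring.lie_def`), acting on itself.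
Proof.  (1) `z_k = (ad e)^k z` has the weight `r + 2 k` (`lie_h_pow_toEnd_e`); these numbers are different, so some `z_k = 0` (proof of `exists_hasPrimitiveVectorWith`); for the last `k` with `z_k ≠ 0` the vector `z_k` is primitive, so `r + 2 k` is a natural number (`exists_nat`).
(2) If `[e,z] = 0` then `z` is primitive, so `r` is a natural number.  (3) `u = [e,z] ≠ 0` by (2).  Suppose `[e,u] = 0`.  `u` is primitive of weight `0`, so `[f,u] = 0` (`pow_toEnd_f_eq_zero_of_eq_nat`, `n = 0`).  Let `z_k = (ad f)^k z`, of weight `- 2 - 2 k`.  `[e,z_1] = [e,[f,z]] = [f,[e,z]] + [h,z] = - 2 z`, and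
`[e,z_(k+1)] = [f,[e,z_k]] + [h,z_k] = (a_k - 2 - 2 k) z_k` if `[e,z_k] = a_k z_(k-1)`, `k ≥ 1`; so `[e,z_k] = a_k z_(k-1)` with `a_k < 0` for all `k ≥ 1`, so all `z_k ≠ 0`: a contradiction, because eigenvectors of `ad h` with different eigenvalues are linearly independent (as in (1), for the triple `(-h, f, e)`). -/
def SltStmt : Prop :=
  ∀ (m : ℕ) (h e f z : Matrix (Fin m) (Fin m) ℝ) (r : ℝ), e * f - f * e = h →
    h * e - e * h = (2 : ℝ) • e → h * f - f * h = -((2 : ℝ) • f) → h ≠ 0 → z ≠ 0 →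
    h * z - z * h = r • z →
    (∃ n : ℤ, r = n) ∧ (r < 0 → e * z - z * e ≠ 0) ∧
    (r = -2 → e * (e * z - z * e) - (e * z - z * e) * e ≠ 0)

/-- **INT** (medium, uses GWB TRI SLT).  Integrality.
Proof.  `N = |μ|² > 0` (`ip_self_pos`), `T = trace (x * xᵀ) > 0`, `s = sqrt (2 / (T N))`, `e = s • x`, `f = s • xᵀ`, `h = [e,f] = s² T • diagonal (tv μ) = (2 / N) • diagonal (tv μ)` (TRI).  `[diagonal (tv μ), y] = κ(tv μ) y = ip κ μ • y` for `y` of weight `κ` (`ip_eq`): so `[h,e] = 2 e`, `[h,f] = -2 f`, `h ≠ 0`,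
`[h,z] = (2 ip ν μ / N) z`.  SLT with `r = 2 ip ν μ / N`; `[e,z] = s [x,z]`, `[e,[e,z]] = s² [x,[x,z]]`. -/
def IntStmt : Prop :=
  ∀ (X : Dat) (S : Sym X) (μ ν : X.b →ₗ[ℝ] ℝ) (x z : Matrix (Fin X.m) (Fin X.m) ℝ), GW S μ x →
    μ ≠ 0 → GW S ν z →
    (∃ n : ℤ, 2 * ip X ν μ = n * ip X μ μ) ∧ (ip X ν μ < 0 → x * z - z * x ≠ 0) ∧
    (ip X ν μ = - ip X μ μ → x * (x * z - z * x) - (x * z - z * x) * x ≠ 0)

/-- **CRY** (easy-medium, uses INT).  The crystallographic condition.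
Proof.  `ν ≠ 0` (`c = 0`).  INT for `(μ, ν)` and for `(ν, μ)` (`ip_comm`) gives `n`, `k` with `2 ip ν μ = n |μ|²`, `2 ip ν μ = k |ν|²`; `|μ|²`, `|ν|² > 0`, so `n`, `k` have the sign of `ip ν μ`, and `n k |μ|² |ν|² = 4 (ip ν μ)² < 4 |μ|² |ν|²` (`ip_cs`), so `n k < 4`. -/
def CryStmt : Prop :=
  ∀ (X : Dat) (S : Sym X) (μ ν : X.b →ₗ[ℝ] ℝ) (x z : Matrix (Fin X.m) (Fin X.m) ℝ), GW S μ x →
    GW S ν z → μ ≠ 0 → (∀ c : ℝ, ν ≠ c • μ) →
    ∃ n k : ℤ, 2 * ip X ν μ = n * ip X μ μ ∧ 2 * ip X ν μ = k * ip X ν ν ∧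
      ((n = 0 ∧ k = 0) ∨ (0 < n ∧ 0 < k ∧ n * k ≤ 3) ∨ (n < 0 ∧ k < 0 ∧ n * k ≤ 3))

/-- **RYS** (easy-medium, uses GWB INT).  Proportional roots.
Proof.  Let `x`, `y` be root vectors of `ρ`, `c • ρ`.  `ρ(a₀) > 0`, `c ρ(a₀) > 0` (GWB (1)), so `c > 0`, `ρ ≠ 0`.  INT for `(μ,ν) = (ρ, c ρ)`: `2 c |ρ|² = n |ρ|²`, `2 c = n`; for `(c ρ, ρ)`: `2 c |ρ|² = k c² |ρ|²`, `2 = k c`.  So `n k = 4`, `n, k > 0`: `n ∈ {1, 2, 4}`. -/
def RysStmt : Prop := ∀ X : Dat, Nonempty (Sym X) → Ray X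

/-- **IJS** (medium, uses GWB INT CRY RYS).  The field `inj` of `RR`.
Proof.  If `ip γ (2 ρ) < 0`: INT (second claim, `μ = 2 ρ`, `x = w`, `ν = γ`).  Otherwise `ip γ ρ ≥ 0`; let `σ = 2 ρ + γ`.  If `σ = c • ρ` then `γ = (c - 2) • ρ`, and RYS says `c ∈ {1, 2, 1/2}`, `c - 2 ∈ {1, 2, 1/2}`: impossible.  Otherwise CRY (`μ = ρ`, `ν = σ`): `n |ρ|² = 2 ip σ ρ = 4 |ρ|² + 2 ip γ ρ ≥ 4 |ρ|²`, so `n ≥ 4`, `k ≥ 1`, `n k ≥ 4`:
a contradiction. -/
def IjsStmt : Prop :=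
  ∀ Y : Dat, Nonempty (Sym Y) → ∀ (ρ γ : Y.b →ₗ[ℝ] ℝ) (w z : Matrix (Fin Y.m) (Fin Y.m) ℝ),
    IsRt Y ρ → RtV Y ((2 : ℝ) • ρ) w → RtV Y γ z → IsRt Y ((2 : ℝ) • ρ + γ) → w * z - z * w ≠ 0

/-- **TWS** (medium-strong, uses GWB INT CRY).  The field `two` of `RR`.
Proof.  `R = |ρ|² > 0` (`ρ(a₀) > 0`); `w` a root vector of `2 ρ`.  (*) If `σ` is a root, `σ ≠ c • ρ` for all `c`, then `ip σ ρ ∈ {-R, 0, R}`: INT with `μ = 2 ρ`, `ν = σ` gives `4 ip σ ρ = n 4 R`, so `ip σ ρ = n R`, and CRY with `μ = ρ`, `ν = σ` gives `2 ip σ ρ = n' R`, `n' = 2 n`, `|n'| ≤ 3` (`n' = 0` or `n' k ≤ 3` with `k ≥ 1`, etc.).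
`ρ + γ` is a root, not proportional to `ρ` (`NPr γ ρ`), so `R + ip γ ρ ≤ R`, `ip γ ρ ≤ 0`.  If `ip γ ρ < 0` then `[w,z] ≠ 0` for a root vector `z` of `γ` (INT, `μ = 2 ρ`), so `2 ρ + γ` is a root (GWB (4), (2), (1)).  The same for `γ'`.  Suppose now `ip γ ρ = ip γ' ρ = 0`.
CRY for `μ = ρ`, `ν = σ = ρ + γ`: `2 ip σ ρ = 2 R`, so `n = 2`, `k = 1`, `|σ|² = 2 R`, so `|γ|² = R`.  The same for `γ'`.  `τ = ρ + γ + γ'` is not proportional to `ρ`: if `τ = c ρ`, then `γ + γ' = (c - 1) ρ`, the product with `ρ` is `0 = (c - 1) R`, so `γ + γ' = 0`, but `(γ + γ')(a₀) > 0`.  CRY for `τ`: `2 ip τ ρ = 2 R`, so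
`|τ|² = 2 R`, `|γ + γ'|² = R`, `2 ip γ γ' = - R`.  Let `s` be a root vector of `σ`; `sᵀ` has weight `-σ` and `ip (2 ρ) (-σ) = - 2 R = - |σ|²`: INT (third claim, `μ = -σ`, `x = sᵀ`, `ν = 2 ρ`, `z = w`): `y = [sᵀ,[sᵀ,w]] ≠ 0`, of weight `2 ρ - 2 σ = - 2 γ` (GWB (4) twice; `[sᵀ,w] ≠ 0` since `y ≠ 0`).  `yᵀ` has weight `2 γ` (GWB (3)).
INT with `μ = 2 γ`, `ν = γ'`: `2 ip γ' (2 γ) = n |2 γ|²`: `- 2 R = 4 n R`, a contradiction. -/
def TwsStmt : Prop :=
  ∀ Y : Dat, Nonempty (Sym Y) → ∀ ρ γ γ' : Y.b →ₗ[ℝ] ℝ, IsRt Y ρ → IsRt Y ((2 : ℝ) • ρ) →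
    IsRt Y γ → IsRt Y γ' → NPr γ ρ → NPr γ' ρ → IsRt Y (ρ + γ) → IsRt Y (ρ + γ') →
    IsRt Y (ρ + γ + γ') → IsRt Y ((2 : ℝ) • ρ + γ) ∨ IsRt Y ((2 : ℝ) • ρ + γ')

/-- **RRS** (easy, uses RYS IJS TWS). -/
def RrsStmt : Prop := ∀ Y : Dat, Nonempty (Sym Y) → RR Y

/-! ### The source: `MRB` for symmetric spaces -/

/-- a basis of `n` of rational root vectors; no Euclidean factor -/
structure RBas (X : Dat) where
  ι : Type
  fin : Fintype ι
  dec : DecidableEq ι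
  e : ι → Matrix (Fin X.m) (Fin X.m) ℝ
  rat : ∀ l i j, ∃ q : ℚ, e l i j = (q : ℝ)
  span_e : Submodule.span ℝ (Set.range e) = X.n
  lin : LinearIndependent ℝ e
  rt : ι → X.b →ₗ[ℝ] ℝ
  wt : ∀ l, ∀ c : X.b, diagonal (c : Fin X.m → ℝ) * e l - e l * diagonal (c : Fin X.m → ℝ) =
    rt l c • e l
  sep : ∀ a : X.b, (∀ l, rt l a = 0) → a = 0

attribute [instance] RBas.fin RBas.dec

/-- no factor of rank one except the hyperbolic plane: the root of `l` is neither orthogonal nor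
proportional to some root, or `l` is the only index with a root not orthogonal to it -/
def RBas.NR {X : Dat} (R : RBas X) : Prop :=
  ∀ l, (∃ l', (∀ c : ℝ, R.rt l' ≠ c • R.rt l) ∧ ip X (R.rt l) (R.rt l') ≠ 0) ∨
    ∀ l', ip X (R.rt l) (R.rt l') ≠ 0 → l' = l

/-- `l`, `l'` in the same component -/
def RBas.Eqv {X : Dat} (R : RBas X) (l l' : R.ι) : Prop :=
  Relation.EqvGen (fun l l' => ip X (R.rt l) (R.rt l') ≠ 0) l l'

/-- simple roots -/
def Smp (X : Dat) (α : X.b →ₗ[ℝ] ℝ) : Prop :=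
  IsRt X α ∧ ∀ σ τ, IsRt X σ → IsRt X τ → σ + τ ≠ α

/-- **WTR** (easy-medium, no hypotheses; copy of `Helper45_QSB/WTX.lean`).  Vectors of a given weight, and the roots.
Proof.  First claim: as WTX.  Second claim: `←`: `e l ≠ 0` (`lin`), `e l ∈ n`.  `→`: if no `rt l` is equal to `ρ` then by the first claim a root vector is in the span of the empty set, so it is `0`. -/
def WtrStmt : Prop :=
  ∀ (X : Dat) (R : RBas X) (ρ : X.b →ₗ[ℝ] ℝ),
    (∀ x, WtV X ρ x → x ∈ Submodule.span ℝ (R.e '' {t | R.rt t = ρ})) ∧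
    (IsRt X ρ ↔ ∃ l, R.rt l = ρ)

/-- **SMR** (easy-medium, uses GWB WTR).  Every root is a sum of simple roots.
Proof.  Strong induction on the number of indices `l` with `rt l a₀ < ρ a₀` (`ι` is finite).  If `ρ` is simple: the list `[ρ]`.  Otherwise `ρ = σ + τ` with roots `σ`, `τ` (WTR: `σ = rt l` for some `l`), `σ a₀`, `τ a₀ > 0` (GWB (1)), so `σ a₀`, `τ a₀ < ρ a₀`: the numbers for `σ`, `τ` are smaller (the set is smaller and does not contain
the index of `σ`, resp. `τ`, itself); append the lists. -/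
def SmrStmt : Prop :=
  ∀ (X : Dat), Nonempty (Sym X) → Nonempty (RBas X) → ∀ ρ, IsRt X ρ →
    ∃ L : List (X.b →ₗ[ℝ] ℝ), (∀ α ∈ L, Smp X α) ∧ L.sum = ρ

/-- **SPR** (easy-medium, uses GWB INT).  The product of two different simple roots is `≤ 0`.
Proof.  Let `ip α β > 0`, `x` a root vector of `α`, `y` one of `β`; `yᵀ` has weight `-β` (GWB (3)).  INT (`μ = -β`, `ν = α`): `u = [yᵀ, x] ≠ 0`, of weight `α - β` (GWB (4)).  `(α - β)(a₀) ≠ 0` (GWB (5), `α ≠ β`).  If it is `> 0`, then `α - β` is a root (GWB (2)) and `β + (α - β) = α`; if `< 0`, then `uᵀ` shows that `β - α` is a root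
and `α + (β - α) = β`: contradictions. -/
def SprStmt : Prop :=
  ∀ (X : Dat), Nonempty (Sym X) → ∀ α β, Smp X α → Smp X β → α ≠ β → ip X α β ≤ 0

/-- **SLI** (easy-medium, uses GWB SPR).  A sum of simple roots which is a multiple of a simple root.
Proof.  Let `v` be the sum of the elements `≠ α` of `L` and `n` the number of the elements `= α` (induction on the list, or `List.filter`): `v = (c - n) • α`.  `v(a₀) ≥ 0`, `α(a₀) > 0`, so `c - n ≥ 0`; `ip v v = (c - n) ip α v ≤ 0` (SPR), so `v = 0`, so `v(a₀) = 0`; every element has a positive value at `a₀`, so there is no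
element `≠ α`. -/
def SliStmt : Prop :=
  ∀ (X : Dat), Nonempty (Sym X) → ∀ (L : List (X.b →ₗ[ℝ] ℝ)) (α : X.b →ₗ[ℝ] ℝ) (c : ℝ),
    (∀ β ∈ L, Smp X β) → Smp X α → L.sum = c • α → ∀ β ∈ L, β = α

/-- **GNS** (medium-strong, uses GWB INT WTR SMR).  The root space of a root which is not a multiple of a simple root is generated.
Proof.  `V = {x ∈ n : x of weight σ}` (or the span of the `e t`, `rt t = σ`), `U ⊆ V` the span of the brackets; suppose `e t ∉ U`.  With the scalar product `⟨x,y⟩ = trace (x * yᵀ) = ∑ x_ij y_ij` there is `z ∈ V`, `z ≠ 0`, orthogonal to `U` (e.g. `e t` minus its orthogonal projection on `U`; or a linear functional which vanishes on `U`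
and not on `e t`, represented by the scalar product on `V`).  `σ = L.sum`, `L` simple roots (SMR), `0 < ip σ σ = ∑ ip σ α`, so `ip σ α > 0` for some `α ∈ L`; `α = rt w` (WTR), `x = e w`.  INT (`μ = -α`, `xᵀ`, `ν = σ`, `z`): `y = [xᵀ,z] ≠ 0`, of weight `σ - α`, `(σ - α)(a₀) ≠ 0` (GWB (5); `σ ≠ α`).  If it is `< 0` then `yᵀ`
shows that `α - σ` is a root and `σ + (α - σ) = α`, against `Smp α`.  So `y ∈ n`, a combination of the `e w'` with `rt w' = σ - α` (WTR); `α` and `σ - α` are not proportional (`σ` is not a multiple of `α`; if `α = c (σ - α)` then `c ≠ 0` and `σ` is a multiple of `α`).  So `[x,y] ∈ U` and `0 = ⟨[x,y],z⟩ = ⟨y,[xᵀ,z]⟩ = ⟨y,y⟩ > 0`: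
a contradiction. -/
def GnsStmt : Prop :=
  ∀ (X : Dat), Nonempty (Sym X) → ∀ (R : RBas X) (t : R.ι),
    (∀ α, Smp X α → ∀ c : ℝ, R.rt t ≠ c • α) →
    R.e t ∈ Submodule.span ℝ {z | ∃ w w', (∀ c : ℝ, R.rt w ≠ c • R.rt w') ∧
      R.rt w + R.rt w' = R.rt t ∧ z = R.e w * R.e w' - R.e w' * R.e w}

/-- **GEM** (medium, uses WTR SMR SLI GNS).  The field `gen` of `MRB`.
Proof.  By GNS we must show that `rt t` is not a multiple `c' • α` of a simple root `α`.  Otherwise `c' ≠ 0`, `c ≠ 0` (`rt t ≠ 0`: `e t ≠ 0`, GWB-like: or `Ray`; simplest: `rt t(a₀) ≠ 0`), and `p rt l + q rt l' = rt s = (c'/c) • α`.  `rt l = L.sum`, `rt l' = L'.sum` (SMR); the list of `p` copies of `L` and `q` copies of `L'`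
(`List.replicate .. |>.flatten`) has the sum `p rt l + q rt l'`; SLI: all its elements are `α` (`p, q ≥ 1`), so `rt l` and `rt l'` are multiples of `α`, different from `0`, so `rt l` is a multiple of `rt l'`: against the hypothesis. -/
def GemStmt : Prop :=
  ∀ (X : Dat), Nonempty (Sym X) → ∀ (R : RBas X) (t s l l' : R.ι),
    (∀ c : ℝ, R.rt l ≠ c • R.rt l') → ∀ p q : ℕ, 1 ≤ p → 1 ≤ q →
    R.rt s = (p : ℝ) • R.rt l + (q : ℝ) • R.rt l' → (∃ c : ℝ, R.rt t = c • R.rt s) →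
    R.e t ∈ Submodule.span ℝ {z | ∃ w w', (∀ c : ℝ, R.rt w ≠ c • R.rt w') ∧
      R.rt w + R.rt w' = R.rt t ∧ z = R.e w * R.e w' - R.e w' * R.e w}

/-- **SUP** (medium, uses GWB INT WTR SMR).  Supports of roots are connected.
Proof.  Strong induction as in SMR.  If `ρ` is simple: `[ρ]`.  Otherwise `ρ = σ + τ` with roots of smaller value at `a₀`; by induction `σ`, `τ` are sums of elements of `A` or of `B`; if both are sums of elements of the same set: append.  Suppose `σ` is a sum of elements of `A`, `τ` one of elements of `B` (or conversely): `ip σ τ = 0`.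
Let `w` be a root vector of `ρ = σ + τ`, `y` one of `τ`: `ip ρ (-τ) = - |τ|²`, so INT (third claim, `μ = -τ`, `yᵀ`, `ν = ρ`) gives `[yᵀ,[yᵀ,w]] ≠ 0`, of weight `σ - τ` (GWB (3), (4)).  `(σ - τ)(a₀) ≠ 0`, or `σ = τ` (GWB (5)) and then `|σ|² = ip σ τ = 0`, impossible.  So `σ - τ` or `τ - σ` is a root; by symmetry let `v = σ - τ` be a
root: `v = v_A + v_B`, sums of simple roots in `A` and in `B` (SMR, split the list).  `τ + v_B = σ - v_A` is a combination of elements of `B` and of elements of `A`, so it is orthogonal to itself, so `0`; but `τ(a₀) > 0`, `v_B(a₀) ≥ 0`: a contradiction. -/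
def SupStmt : Prop :=
  ∀ (X : Dat), Nonempty (Sym X) → Nonempty (RBas X) → ∀ A B : Set (X.b →ₗ[ℝ] ℝ),
    (∀ α, Smp X α → α ∈ A ∨ α ∈ B) → (∀ α ∈ A, Smp X α) → (∀ α ∈ B, Smp X α) →
    (∀ α ∈ A, ∀ β ∈ B, ip X α β = 0) → ∀ ρ, IsRt X ρ →
      (∃ L : List (X.b →ₗ[ℝ] ℝ), (∀ α ∈ L, α ∈ A) ∧ L.sum = ρ) ∨
      ∃ L : List (X.b →ₗ[ℝ] ℝ), (∀ α ∈ L, α ∈ B) ∧ L.sum = ρ

/-- **DOM** (medium, uses WTR SMR SPR SUP).  Two dominant roots of the same component are not orthogonal.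
Proof.  Say that `v` is a sum over `A` if it is the sum of a list of elements of `A`.  (*) Let `l` be dominant, `rt l = L.sum`, `L` simple roots (SMR), `A = {α : α ∈ L}`, `B` = the simple roots not in `L`.  For `β ∈ B`: `ip (rt l) β ≥ 0` (`β = rt k`, WTR) and `ip (rt l) β = ∑_(α ∈ L) ip α β`, all terms `≤ 0` (SPR), so all are `0`: `A` and `B` are
orthogonal.  By SUP every root is a sum over `A` or over `B`.  If `rt k` is a sum over `A` and `ip (rt k) (rt k') ≠ 0`, then `rt k'` is not a sum over `B`, so it is a sum over `A` (and conversely); so (`EqvGen`, induction; both directions) `rt θ` is a sum over `A`, because `rt l` is one.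
Suppose `ip (rt l) (rt θ) = 0`.  Exchange the roles: (*) for `θ`: `rt l` is a sum over `A'`, the set of the elements of a list `L'` with `rt θ = L'.sum`.  `0 = ip (rt l) (rt θ) = ∑_(β ∈ L') ip (rt l) β`, all terms `≥ 0`, so `ip (rt l) β = 0` for all `β ∈ A'`; so `ip (rt l) (rt l) = 0`: against `rt l ≠ 0` (a hypothesis). -/
def DomStmt : Prop :=
  ∀ (X : Dat), Nonempty (Sym X) → ∀ (R : RBas X) (l θ : R.ι), R.Eqv l θ → R.rt l ≠ 0 →
    (∀ k, 0 ≤ ip X (R.rt l) (R.rt k)) → (∀ k, 0 ≤ ip X (R.rt θ) (R.rt k)) →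
    ip X (R.rt l) (R.rt θ) ≠ 0

/-- **HVT** (medium-strong, uses GWB TRI INT WTR DOM).  A vector which commutes with `n` is in the top root space.
Proof.  `x` is a root vector of `rt l`; `y = e θ`.  (i) `ip (rt l) (rt k) ≥ 0` for all `k`: otherwise `[e k, x] ≠ 0` (INT, `μ = rt k`).  (ii) `[y, e k] = 0` for all `k`: otherwise `rt θ + rt k = rt s` for some `s` (GWB, WTR); `ip (rt s) (rt θ) = |rt θ|² + ip (rt k) (rt θ)`; if it is `0`, then `ip (rt k) (rt θ) ≠ 0` and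
`ip (rt s) (rt k) ≠ 0` (because `|rt s|² ≠ 0`); so `Eqv l s` in any case, but `rt s (a₀) > rt θ (a₀)`: against the maximality.  So also `ip (rt θ) (rt k) ≥ 0` for all `k`, and `[y,u] = 0` for all `u ∈ n`, `[x,u] = 0` for all `u ∈ n` (`span_e`).  (iii) By DOM and (i) `ip (rt l) (rt θ) > 0`.  Suppose `rt l ≠ rt θ`.  INT (`μ = - rt θ`, `yᵀ`,
`ν = rt l`): `u = [yᵀ,x] ≠ 0`, of weight `rt l - rt θ`, with value `≠ 0` at `a₀` (GWB (5)).  If it is `> 0`: `u ∈ n`, so `0 = [y,u] = [[y,yᵀ],x] + [yᵀ,[y,x]] = trace (y * yᵀ) ip (rt l) (rt θ) x` (TRI; `[y,x] = 0`, `x ∈ n`), a contradiction.  If `< 0`: `uᵀ = [xᵀ,y] ∈ n`, so `0 = [x,uᵀ] = [[x,xᵀ],y] + [xᵀ,[x,y]] =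
trace (x * xᵀ) ip (rt θ) (rt l) y`, a contradiction. -/
def HvtStmt : Prop :=
  ∀ (X : Dat) (S : Sym X) (R : RBas X) (l θ : R.ι) (x : Matrix (Fin X.m) (Fin X.m) ℝ), R.Eqv l θ →
    (∀ k, R.Eqv l k → R.rt k S.a₀ ≤ R.rt θ S.a₀) → RtV X (R.rt l) x →
    (∀ k, x * R.e k - R.e k * x = 0) → R.rt l = R.rt θ

/-- **CLB** (medium-strong, uses GWB INT CRY RYS WTR HVT).  The field `climb` of `MRB`.
Proof.  Suppose `x ≠ 0`; `ρ = rt l`, `x` is a root vector of `ρ` (a combination of the `e t`, `rt t = ρ`).  CASE 1: `2 ρ` is no root.  Then `[x, e k] = 0` for all `k`: if `rt k = c ρ` then `c ∈ {1, 2, 1/2}` (RYS; `rt k = c ρ` with both roots), `c ≠ 2`, and the weight `(1 + c) ρ` of `[x, e k]` is `2 ρ`, no root, or `(3/2) ρ = 3 rt k`, no root by RYS;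
so HVT gives `rt l = rt θ`, a contradiction.  CASE 2: `2 ρ` is a root, `2 ρ = rt s`.  `ip ρ (rt s) = 2 |ρ|² ≠ 0` and `s ≠ l`, so the second case of `NR` is false for `l`, and there is `l'` with `rt l' ≠ c ρ` for all `c`, `ip ρ (rt l') ≠ 0`.  `R = |ρ|²`.  Let `z = e l'`, `κ = rt l'` or `z = (e l')ᵀ`, `κ = - rt l'`, such that `ip κ ρ < 0`.
INT with `μ = 2 ρ` (root vector `e s`) says `ip κ ρ = n R`, CRY with `μ = ρ` says `2 ip κ ρ = n' R`, `n' = 2 n`, `n' ≥ -3`: so `ip κ ρ = - R`.  INT (third claim, `μ = ρ`, `x`): `[x,[x,z]] ≠ 0`.  `z₁ = [x,z]` has weight `κ + ρ`, not proportional to `ρ`, `(κ + ρ)(a₀) ≠ 0` (GWB (5)).  If it is `> 0` then `z₁ ∈ n` is a combination of the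
`e k` with `rt k = κ + ρ` (WTR), not proportional to `ρ`, so `[x,z₁] = 0`, a contradiction.  If `< 0`: let `z' = [x,z₁]ᵀ`, of weight `κ' = -(κ + 2 ρ)`, `ip κ' ρ = R - 2 R = - R`; the same argument with `z'`: `[x,[x,z']] ≠ 0` and `[x,z']` has weight `κ' + ρ = -(κ + ρ)`, positive at `a₀`: a contradiction. -/
def ClbStmt : Prop :=
  ∀ (X : Dat) (S : Sym X) (R : RBas X), R.NR → ∀ l θ : R.ι, R.Eqv l θ →
    (∀ k, R.Eqv l k → R.rt k S.a₀ ≤ R.rt θ S.a₀) → R.rt l ≠ R.rt θ →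
    ∀ x ∈ Submodule.span ℝ (R.e '' {l' | R.rt l' = R.rt l}),
      (∀ k, (∀ c : ℝ, R.rt k ≠ c • R.rt l) → x * R.e k - R.e k * x = 0) → x = 0

/-- **SCB** (medium, no hypotheses).  The field `scal` of `MRB`.
Proof.  The `rt l` span the dual space `b*` (`sep`: a vector `a` which is killed by the span is `0`; finite dimension: `Subspace.dualAnnihilator` / `Submodule.dualCoannihilator`, or with `tv`: a functional `ip`-orthogonal to all `rt l` is `0`).  Choose a linearly independent subfamily which spans (`exists_linearIndependent'` or a basis of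
`b*` contained in the range of `rt`, `Basis.extend` ..), `S'` the linear map with `S' β = κ β` on this basis.  Claim: `S' (rt l) = κ_l rt l`: write `rt l = ∑ c_β β`; the part with `κ_β ≠ κ_l` is orthogonal (`ip`) to the `β` with `κ_β = κ_l` and to `rt l`, so it is orthogonal to itself, so it is `0` and its coefficients are `0`.
`S` = the transpose of `S'` (`φ (S a) = (S' φ) (a)`; `Module.evalEquiv`, `Module.Dual.transpose` / `LinearMap.dualMap`; or `S a = ` the vector with `bil (S a) (tv φ) = (S' φ) a`). -/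
def ScbStmt : Prop :=
  ∀ (X : Dat) (R : RBas X) (κ : R.ι → ℝ), (∀ l l', ip X (R.rt l) (R.rt l') ≠ 0 → κ l = κ l') →
    ∃ S : X.b →ₗ[ℝ] X.b, ∀ l a, R.rt l (S a) = κ l * R.rt l a

/-- **RKB** (easy, no hypotheses).  The field `rank1` of `MRB`.
Proof.  The first case of `NR` is false for `l`: such an `l'` would be equivalent to `l`, so `rt l' = rt l = 1 • rt l`.  So `ip (rt l) (rt l') ≠ 0` implies `l' = l`.  `EqvGen` induction: if `Eqv a b` then `a = l ↔ b = l` (`ip_comm`). -/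
def RkbStmt : Prop :=
  ∀ (X : Dat) (R : RBas X), R.NR → ∀ l : R.ι, (∀ l', R.Eqv l' l → R.rt l' = R.rt l) →
    ∀ l', R.Eqv l' l → l' = l

/-- **MRA** (medium, assembly, uses GWB RYS GEM CLB SCB RKB).  A symmetric space with a rational basis, without rank one factors except the hyperbolic plane, is of type `MRB`.
Proof.  `J = Quotient` of `R.ι` by the equivalence relation `Eqv` (`Relation.EqvGen.setoid`), `comp` the projection, `top j` an element of the class `j` with the maximal value `rt k a₀` (finite, nonempty).  `pos`: `a₀` (GWB (1)).  `ray`: RYS.  `comp_rt`: `rt l = c • rt l'`, `rt l ≠ 0` (value at `a₀`), so `c ≠ 0` and `ip (rt l) (rt l') =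
c |rt l'|² ≠ 0`.  `gen`: GEM.  `climb`: CLB.  `rank1`: RKB.  `scal`: SCB with `κ ∘ comp`. -/
def MraStmt : Prop :=
  ∀ X : Dat, Nonempty (Sym X) → ∀ R : RBas X, R.NR → Nonempty (MRB X)

/-- **The condition on the simple roots of the source**: no simple root with a root space of dimension
`≥ 2` is an end of a component of type `A_r`. -/
def S3s (X : Dat) : Prop :=
  ∀ α : X.b →ₗ[ℝ] ℝ, Smp X α →
    (∀ x y, RtV X α x → RtV X α y → ∃ c : ℝ, y = c • x) ∨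
    (∃ γ, IsRt X γ ∧ IsRt X ((2 : ℝ) • α + γ)) ∨
    (∃ γ γ', IsRt X γ ∧ IsRt X γ' ∧ NPr γ α ∧ NPr γ' α ∧ IsRt X (α + γ) ∧ IsRt X (α + γ') ∧
      IsRt X (α + γ + γ'))

/-- **S3A** (easy-medium, uses RYS WTR GNS).  `S3s` implies `S3`.
Proof.  Let `ρ` be a root.  If `ρ = c • α`, `α` simple, then `c ∈ {1, 2, 1/2}` (RYS).  `c = 1`: `S3s`.  `c = 2`: second case of `S3`.  `c = 1/2`: `α = 2 ρ = ρ + ρ`: not simple.  Otherwise the first case (`Gnd`): `ρ = rt t`; every root vector of `ρ` is a combination of the `e t`, `rt t = ρ` (WTR), and for these GNS applies; the elements of the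
generating set of GNS are elements of the generating set of `Gnd` (`NPr`: `rt w ≠ c • rt w'`, and `rt w' ≠ c • rt w`, since `c ≠ 0`). -/
def S3aStmt : Prop :=
  ∀ X : Dat, Nonempty (Sym X) → Nonempty (RBas X) → S3s X → S3 X

end Pool.Agent.QSB
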