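import Pool.Agent.QSB.StmtsE
import Pool.Agent.QSB.StmtsG
import Pool.Agent.QSB.StmtsS

/-!
# Squad QSB, roots, second part: the condition `S4` on the source

In `StmtsR.lean` the condition `S3` excludes the sources with a nonsplit factor of type `A_r`, `r ≥ 2`
(for the targets which are not reduced).  Here the condition is weakened to `S4`, which excludes only the
nonsplit factors of type `A_2`.  The condition on the target gets a third part (`RQ`), which is true for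
every symmetric space.  One statement per row; every docstring contains a complete proof.
-/

set_option autoImplicit false

namespace Pool.Agent.QSB

open Matrix Finset Pool.Agent.QSX Pool.Agent.QSN

/-- **The condition on the source**, weak form (true if there is no factor of type `A_2` with root
multiplicities `> 1`). -/
def S4 (X : Dat) : Prop :=
  ∀ ρ : X.b →ₗ[ℝ] ℝ, IsRt X ρ →
    Gnd X ρ ∨ (∃ σ, IsRt X σ ∧ ρ = (2 : ℝ) • σ) ∨
    (∀ x y, RtV X ρ x → RtV X ρ y → ∃ c : ℝ, y = c • x) ∨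
    (∃ γ, IsRt X γ ∧ IsRt X ((2 : ℝ) • ρ + γ)) ∨
    (∃ γ γ', IsRt X γ ∧ IsRt X γ' ∧ NPr γ ρ ∧ NPr γ' ρ ∧ IsRt X (ρ + γ) ∧ IsRt X (ρ + γ') ∧
      IsRt X (ρ + γ + γ')) ∨
    (∃ β γ, IsRt X β ∧ IsRt X γ ∧ NPr β ρ ∧ NPr γ ρ ∧ NPr γ β ∧ NPr (β + γ) ρ ∧
      IsRt X (ρ + β) ∧ IsRt X (β + γ) ∧ IsRt X (ρ + β + γ) ∧ ¬ IsRt X (β + γ + β))

/-- **The condition on the target**, with a third part (true for every symmetric space: if the other
alternatives of `thr` are false then, in the coordinates of a root system of type `BC`, `ρ = e_1`,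
`β = e_2`, `γ = e_3 - e_2`, and `(ad u)^2` is injective on the root space of `γ`, because the value of
`γ` at the coroot of `β` is `- 2`). -/
structure RQ (Y : Dat) : Prop where
  rr : RR Y
  thr : ∀ ρ β γ : Y.b →ₗ[ℝ] ℝ, IsRt Y ρ → IsRt Y ((2 : ℝ) • ρ) → IsRt Y β → IsRt Y γ →
    NPr β ρ → NPr γ ρ → NPr γ β → NPr (β + γ) ρ → IsRt Y (ρ + β) → IsRt Y (β + γ) →
    IsRt Y (ρ + β + γ) →
    IsRt Y ((2 : ℝ) • ρ + β) ∨ IsRt Y ((2 : ℝ) • ρ + γ) ∨ IsRt Y ((2 : ℝ) • ρ + (β + γ)) ∨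
      ∀ u w : Matrix (Fin Y.m) (Fin Y.m) ℝ, RtV Y β u → RtV Y γ w →
        (w * u - u * w) * u - u * (w * u - u * w) ≠ 0

/-- **S43** (easy, no hypotheses).  `S3` implies `S4`; `RQ` for reduced data.
Proof.  The five alternatives of `S3` are the first five of `S4`.  `thr` assumes that `ρ` and `2 ρ` are
roots. -/
def S43Stmt : Prop :=
  (∀ X : Dat, S3 X → S4 X) ∧ ∀ Y : Dat, RR Y → Red Y → RQ Y

/-- **DL4** (easy-medium, uses BWT JCB JCC; copy of `Helper85_QSB/DLT.lean` with one more case).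
Proof.  As DLT.  The new case: `β`, `γ` as in the last alternative of `S4`; let `ρ' = ρ ∘ g` etc.  All the
assumptions of `RQ.thr` for `ρ'`, `β'`, `γ'` are satisfied (`trI`, `trN`; `LinearMap.add_comp`; `2 • ρ'` is
a root because `δ ≠ 0`).  The first three alternatives of `thr` are false by `key` (for `β`, `γ` and
`β + γ`, which is a root of `X`).  So `[[w, u], u] ≠ 0` for `u = T u₀`, `w = T w₀`, `u₀`, `w₀` root vectors
of `β`, `γ`.  `[w, u] = T [w₀, u₀]` (`BrP`, `NPr γ β`), `[w₀, u₀]` has the weight `γ + β`, and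
`NPr (γ + β) β` (if `γ + β = c β` then `γ = (c - 1) β`; if `β = c (γ + β)` then `c ≠ 0`, as `β ≠ 0`, and
`γ = (c⁻¹ - 1) β`).  So `[[w, u], u] = T [[w₀, u₀], u₀]`, and `[[w₀, u₀], u₀]` has the weight
`γ + β + β`, which is not a root (`β + γ + β` reordered), so it is `0`, and `T 0 = 0`: contradiction. -/
def Dl4Stmt : Prop :=
  ∀ (X Y : Dat) (T : X.n →ₗ[ℝ] Matrix (Fin Y.m) (Fin Y.m) ℝ) (g : Y.b →ₗ[ℝ] X.b),
    (∀ x, T x ∈ Y.n) → Function.Injective T → Function.Bijective g → BrP X Y.m T →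
    (∀ (ρ : X.b →ₗ[ℝ] ℝ) (x : X.n), WtV X ρ x → WtV Y (ρ ∘ₗ g) (T x)) →
    Ray X → RQ Y → (S4 X ∨ Red Y) →
    ∀ (ρ : X.b →ₗ[ℝ] ℝ) (c : ℝ) (x y : X.n), RtV X ρ x → RtV X (c • ρ) y →
      T ⟨_, X.lie x x.2 y y.2⟩ = T x * T y - T y * T x

/-- **AL4** (easy, uses BWT TRW DL4; copy of `Helper20_QSB/ALB.lean`).
Proof.  As ALB, with DL4 instead of DLT. -/
def Al4Stmt : Prop :=
  ∀ X Y : Dat, Spn X → Ray X → RQ Y → (S4 X ∨ Red Y) →
    Module.finrank ℝ X.b = Module.finrank ℝ Y.b → WkP X Y → AlgEmb X Y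

/-- **RQP** (medium, no hypotheses; copy and extension of `Helper67_QSB/RRP.lean`, whose lemmas can be
imported: `Fc`, `fcL`, `fcR`, `kind`).  Products.
Proof.  As RRP.  `S4`: all alternatives are transported from the factor of `ρ` to the product; the last
one: `β ∘ p`, `γ ∘ p`; `¬ IsRt X (β ∘ p + γ ∘ p + β ∘ p)` because a root `τ ∘ p` of the product with
`(τ ∘ p) ∘ k = 0` restricts to the root `τ` of the factor (`dnR`, `upi`).  `thr`: `β` and `γ` belong to the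
factor of `ρ` (`kof` for `ρ + β`; then `kof` for `β + γ`), all the functionals restrict to roots of the
factor (`dnR`, `npr_dn`), and the conclusion is transported back (`bk`; `u = j u'`, `w = j w'` by `down`,
`F.mul`, `F.inj`). -/
def RqpStmt : Prop :=
  ∀ X₁ X₂ : Dat, Ray X₁ → Ray X₂ → (S4 X₁ → S4 X₂ → S4 (X₁.prod X₂)) ∧
    (RQ X₁ → RQ X₂ → RQ (X₁.prod X₂))

/-- **RQH** (medium, uses EHM RYH; the lemmas of `Helper96_QSB/RYH.lean` can be imported, the local facts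
`root`, `dbl`, `opt` of its proof must be copied).  The condition `RQ` for `SU (p, p + d)`,
`Sp (p, p + d)`.
Proof.  `rr` is RYH.  `thr`: in the notation of the proof of RYH: `ρ = FF (ee i)` (`dbl`).  `opt` for `β`:
`2 ρ + β` is a root (done) or `β = FF (ee j)`; `opt` for `β + γ` (`ρ + (β + γ)` is a root): `2 ρ + (β + γ)`
is a root (done) or `β + γ = FF (ee l)`.  So `γ = FF (ee l - ee j)` and `γ = FF v` with `Rs v`:
`v = ee l - ee j`, `sm v = 0`, so `v = ee a - ee b` with `a < b`, so `l = a`, `j = b` (compare the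
entries; `l = j` is impossible as `v ≠ 0`), `l < j`.  Let `u = blk y` be a root vector of `β`, `w = blk x`
one of `γ`.  By EHM (second part) and `wt_place` the nonzero blocks of `y` are at places `(io j, r)` and
`(r, σ (io j))`, `r` middle, and those of `x` at `(io l, io j)` and `(σ (io j), σ (io l))`; `x (io l) (io j)
= a ≠ 0`, and `y (io j) r ≠ 0` for some middle `r` (one of the two symmetric blocks is not `0`, and
`y (σ s) (σ r) = - (y r s)ᵀ`).  The block of `(x y - y x) y - y (x y - y x)` at the place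
`(io l, σ (io j))`: the row `io l` of `y` is `0` (`l ≠ j`, not middle), so it is
`∑_s (x y)(io l) s * y s (σ (io j)) = ∑_(s middle) a * y (io j) s * y s (σ (io j)) =
- a * ∑_(s middle) y (io j) s * (y (io j) s)ᵀ` (`(y x) (io l) s = ∑ y (io l) t * x t s = 0`).  If it is
`0`, multiply by the inverse of `a` (`b * a = 1` from `a * b = 1`, `mul_eq_one_comm`):
`∑_s y (io j) s * (y (io j) s)ᵀ = 0`, its trace is the sum of the squares of all the entries
(`Matrix.trace_mul_comm`, or the diagonal entries are sums of squares), so all `y (io j) s = 0`: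
contradiction. -/
def RqhStmt : Prop :=
  ∀ (p d k : ℕ) (𝔻 : Subalgebra ℝ (Matrix (Fin k) (Fin k) ℝ)), 0 < k → (∀ a ∈ 𝔻, aᵀ ∈ 𝔻) →
    (∀ a ∈ 𝔻, a ≠ 0 → ∃ b ∈ 𝔻, a * b = 1) → RQ (datH p d 𝔻)

/-- **S4D** (medium, no hypotheses; compare ABD, MSD of QSN and RYD).  The condition `S4` for `SL_n (𝔻)`,
`n ≥ 4`.
Proof.  The functionals `D i j = c_i - c_j` (`i < j`); as in RYD every root is a `D i j`, a root vector
`blk x` of `D i j` has its only nonzero block at `(i,j)` (`x = single i j a`; the `D i j` are pairwise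
different for `n ≥ 3`), and `blk (single i j a)`, `a ∈ 𝔻`, `a ≠ 0`, is a root vector of `D i j`
(`a = 1` shows that `D i j` is a root); `D i j` and `D i' j'` are not proportional if
`(i,j) ≠ (i',j')` (`Ray` of RYD gives `c = 1, 2, 1/2`; `c = 2`, `1/2` are impossible by `Red`; or compare at
vectors).  Let `ρ = D i j`.  If `j > i + 1`, take `h = i + 1`: `single i j a = [single i h a, single h j 1]`:
first alternative.  Let `j = i + 1`.  If `j + 2 < n` (so `j + 1 < n`, `j + 2 < n`): last alternative with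
`β = D j (j+1)`, `γ = D (j+1) (j+2)`: `ρ + β = D i (j+1)`, `β + γ = D j (j+2)`, `ρ + β + γ = D i (j+2)`,
`2 β + γ = D j (j+1) + D j (j+2)` is not a root (it has the value `2` at the unit vector of `j`, corrected
by a constant vector; the roots have the values `0, 1, -1`).  If `i ≥ 2`: last alternative with
`β = D (i-1) i`, `γ = D (i-2) (i-1)`.  Otherwise `j + 2 ≥ n ≥ 4` and `i ≤ 1`, `j = i + 1 ≤ 2`: `j = 2`,
`i = 1`, `n = 4`: fifth alternative with `γ = D 0 1`, `γ' = D 2 3`. -/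
def S4dStmt : Prop :=
  ∀ (k n : ℕ) (𝔻 : Subalgebra ℝ (Matrix (Fin k) (Fin k) ℝ)), 0 < k → 4 ≤ n → S4 (datD n 𝔻)

/-- **THS** (medium, uses GWB INT CRY of StmtsS; compare TWS).  The field `thr` of `RQ` for symmetric
spaces.
Proof.  Suppose that the first three alternatives are false.  `R = |ρ|² > 0`.
(a) Let `σ'` be a root with `NPr σ' ρ`, `ρ + σ'` a root, `2 ρ + σ'` no root.  Claim: `ip σ' ρ = 0` and
`|σ'|² = R`.  Let `w₂` be a root vector of `2 ρ`, `z` one of `σ'`.  If `ip σ' ρ < 0` then INT (`μ = 2 ρ`,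
`ν = σ'`, second claim) says `[w₂, z] ≠ 0`, so `2 ρ + σ'` is a root (GWB (4), (2), (1)): no.  INT (first
claim): `2 ip σ' (2 ρ) = n |2 ρ|²`, so `ip σ' ρ = n R`, `n ≥ 0` an integer.  CRY for `μ = ρ`,
`ν = ρ + σ'` (not a multiple of `ρ`: otherwise `σ'` would be one): `2 ip ν ρ = n' R`, so `n' = 2 + 2 n > 0`,
`n' k ≤ 3`, `k ≥ 1`: `n' = 2`, `k = 1`, `n = 0`: `2 R = 2 ip ν ρ = |ν|² = R + |σ'|²`.
(b) (a) for `β` and for `κ = β + γ` (`ρ + κ = ρ + β + γ`): `ip β ρ = ip κ ρ = 0`, `|β|² = |κ|² = R`.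
(c) INT for `μ = ρ + β`, `ν = κ`: `2 ip κ (ρ + β) = n |ρ + β|² = 2 n R`, so `ip κ β = n R`; `κ ≠ c β` (`NPr γ β`),
`β ≠ 0`, so `ip_cs`: `n² R² < R²`, `n = 0`, `ip κ β = 0`, `ip γ β = - |β|²`.
(d) INT (third claim, `μ = β`, `x = u`, `ν = γ`, `z = w`): `u (u w - w u) - (u w - w u) u ≠ 0`, and this is
`(w u - u w) u - u (w u - u w)`. -/
def ThsStmt : Prop :=
  ∀ Y : Dat, Nonempty (Sym Y) → ∀ ρ β γ : Y.b →ₗ[ℝ] ℝ, IsRt Y ρ → IsRt Y ((2 : ℝ) • ρ) →
    IsRt Y β → IsRt Y γ → NPr β ρ → NPr γ ρ → NPr γ β → NPr (β + γ) ρ → IsRt Y (ρ + β) →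
    IsRt Y (β + γ) → IsRt Y (ρ + β + γ) →
    IsRt Y ((2 : ℝ) • ρ + β) ∨ IsRt Y ((2 : ℝ) • ρ + γ) ∨ IsRt Y ((2 : ℝ) • ρ + (β + γ)) ∨
      ∀ u w : Matrix (Fin Y.m) (Fin Y.m) ℝ, RtV Y β u → RtV Y γ w →
        (w * u - u * w) * u - u * (w * u - u * w) ≠ 0

/-- the condition `S4` on the simple roots: the source has no factor of type `A_2` with root spaces of
dimension `> 1` -/
def S4s (X : Dat) : Prop :=
  ∀ α : X.b →ₗ[ℝ] ℝ, Smp X α →
    (∀ x y, RtV X α x → RtV X α y → ∃ c : ℝ, y = c • x) ∨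
    (∃ γ, IsRt X γ ∧ IsRt X ((2 : ℝ) • α + γ)) ∨
    (∃ γ γ', IsRt X γ ∧ IsRt X γ' ∧ NPr γ α ∧ NPr γ' α ∧ IsRt X (α + γ) ∧ IsRt X (α + γ') ∧
      IsRt X (α + γ + γ')) ∨
    (∃ β γ, IsRt X β ∧ IsRt X γ ∧ NPr β α ∧ NPr γ α ∧ NPr γ β ∧ NPr (β + γ) α ∧
      IsRt X (α + β) ∧ IsRt X (β + γ) ∧ IsRt X (α + β + γ) ∧ ¬ IsRt X (β + γ + β))

/-- **S4A** (easy-medium, uses RYS WTR GNS of StmtsS; copy of the row S3A).  `S4s` implies `S4`.
Proof.  As S3A (StmtsS). -/
def S4aStmt : Prop :=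
  ∀ X : Dat, Nonempty (Sym X) → Nonempty (RBas X) → S4s X → S4 X

/-- **FN4** (easy, uses WKX of StmtsG, AL4, EMB of QSX; copy of `Helper18_QSB/FNB.lean`).  The main theorem in
equal rank. -/
def Fn4Stmt : Prop :=
  ∀ X Y : Dat, Nonempty (MB X) → RQ Y → (S4 X ∨ Red Y) →
    Module.finrank ℝ X.b = Module.finrank ℝ Y.b →
    (QE X Y ↔ AlgEmb X Y) ∧ ((∃ f : X.Pt → Y.Pt, QIE X.dist Y.dist f) ↔ AlgEmb X Y)

end Pool.Agent.QSB
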