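import Pool.Agent.QSN.StmtsE
import Pool.Agent.QSB.StmtsR

/-!
# Squad QSB: the data of `SU (p, p + d)`, `Sp (p, p + d)`
-/

set_option autoImplicit false

namespace Pool.Agent.QSB

open Matrix Finset Pool.Agent.QSX Pool.Agent.QSN

section H

variable {p d k : ℕ}

/-- the strictly upper triangular matrices of blocks `x i j ∈ 𝔻`, zero in the middle block, with
`x (σ j) (σ i) = - (x i j)ᵀ`, `σ = sg p d` -/
def nH (p d : ℕ) {k : ℕ} (𝔻 : Subalgebra ℝ (Matrix (Fin k) (Fin k) ℝ)) :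
    Submodule ℝ (Matrix (Fin (2 * p + d)) (Fin (2 * p + d)) (Matrix (Fin k) (Fin k) ℝ)) where
  carrier := {x | x ∈ UD (2 * p + d) 𝔻 ∧ (∀ i j, x (sg p d j) (sg p d i) = -(x i j)ᵀ) ∧
    ∀ i j, Md p d i → Md p d j → x i j = 0}
  add_mem' := by
    intro x y hx hy
    refine ⟨(UD (2 * p + d) 𝔻).add_mem hx.1 hy.1, fun i j => ?_, fun i j hi hj => ?_⟩
    · rw [Matrix.add_apply, Matrix.add_apply, hx.2.1 i j, hy.2.1 i j, Matrix.transpose_add, neg_add]
    · rw [Matrix.add_apply, hx.2.2 i j hi hj, hy.2.2 i j hi hj, add_zero]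
  zero_mem' := ⟨(UD (2 * p + d) 𝔻).zero_mem, fun i j => by simp, fun _ _ _ _ => rfl⟩
  smul_mem' := by
    intro r x hx
    refine ⟨(UD (2 * p + d) 𝔻).smul_mem r hx.1, fun i j => ?_, fun i j hi hj => ?_⟩
    · rw [Matrix.smul_apply, Matrix.smul_apply, hx.2.1 i j, Matrix.transpose_smul, smul_neg]
    · rw [Matrix.smul_apply, hx.2.2 i j hi hj, smul_zero]

/-- The datum of the isometry group of a Hermitian form over `𝔻` (the involution of `𝔻` is the
transpose), antidiagonal on the outer `2 p` coordinates and the identity on the `d` coordinates in the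
middle.  For `𝔻 = ℝ, ℂ, ℍ`: `SO (p, p + d)`, `SU (p, p + d)`, `Sp (p, p + d)`. -/
noncomputable def datH (p d : ℕ) {k : ℕ} (𝔻 : Subalgebra ℝ (Matrix (Fin k) (Fin k) ℝ)) : Dat where
  m := (2 * p + d) * k
  b :=
    { carrier := {c | ∃ c' : Fin (2 * p + d) → ℝ, (∀ i, c' (sg p d i) = - c' i) ∧
        c = cst k (2 * p + d) c'}
      add_mem' := by
        rintro _ _ ⟨c, hc, rfl⟩ ⟨c', hc', rfl⟩
        refine ⟨c + c', fun i => ?_, rfl⟩
        rw [Pi.add_apply, Pi.add_apply, hc i, hc' i, neg_add]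
      zero_mem' := ⟨0, fun i => by simp, rfl⟩
      smul_mem' := by
        rintro r _ ⟨c, hc, rfl⟩
        refine ⟨r • c, fun i => ?_, rfl⟩
        rw [Pi.smul_apply, Pi.smul_apply, hc i, smul_neg] }
  n :=
    { carrier := {z | ∃ x ∈ nH p d 𝔻, z = blk k (2 * p + d) x}
      add_mem' := by
        rintro _ _ ⟨x, hx, rfl⟩ ⟨y, hy, rfl⟩
        exact ⟨_, (nH p d 𝔻).add_mem hx hy, (map_add _ _ _).symm⟩
      zero_mem' := ⟨0, (nH p d 𝔻).zero_mem, (map_zero _).symm⟩
      smul_mem' := by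
        rintro r _ ⟨x, hx, rfl⟩
        exact ⟨_, (nH p d 𝔻).smul_mem r hx, (map_smul _ _ _).symm⟩ }
  su := by
    rintro _ ⟨x, hx, rfl⟩ a a' h
    obtain ⟨⟨i, j⟩, rfl⟩ := finProdFinEquiv.surjective a
    obtain ⟨⟨i', j'⟩, rfl⟩ := finProdFinEquiv.surjective a'
    rw [blk_apply, hx.1.2 i i' (finProd_le h), Matrix.zero_apply]
  lie := by
    rintro _ ⟨x, hx, rfl⟩ _ ⟨y, hy, rfl⟩
    have key : ∀ x ∈ nH p d 𝔻, ∀ y ∈ nH p d 𝔻, ∀ i j,
        (x * y) (sg p d j) (sg p d i) = ((y * x) i j)ᵀ := by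
      intro x hx y hy i j
      rw [Matrix.mul_apply, Matrix.mul_apply, Matrix.transpose_sum,
        ← Equiv.sum_comp (Function.Involutive.toPerm (sg p d) sg_sg)]
      refine Finset.sum_congr rfl fun l _ => ?_
      rw [Function.Involutive.coe_toPerm, hx.2.1 l j, hy.2.1 i l, neg_mul_neg,
        Matrix.transpose_mul]
    have key2 : ∀ x ∈ nH p d 𝔻, ∀ y ∈ nH p d 𝔻, ∀ i j, Md p d i → Md p d j →
        (x * y) i j = 0 := by
      intro x hx y hy i j hi hj
      rw [Matrix.mul_apply]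
      refine Finset.sum_eq_zero fun l _ => ?_
      by_cases hl : Md p d l
      · rw [hx.2.2 i l hi hl, zero_mul]
      · rcases le_or_gt l i with h1 | h1
        · rw [hx.1.2 i l h1, zero_mul]
        · rw [hy.1.2 l j (by unfold Md at hi hj hl; rw [Fin.lt_def] at h1; rw [Fin.le_def]; omega),
            mul_zero]
    refine ⟨x * y - y * x, ⟨(UD (2 * p + d) 𝔻).sub_mem (UD_mul hx.1 hy.1) (UD_mul hy.1 hx.1),
      fun i j => ?_, fun i j hi hj => ?_⟩, by rw [map_sub, map_mul, map_mul]⟩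
    · rw [Matrix.sub_apply, Matrix.sub_apply, key x hx y hy, key y hy x hx, Matrix.transpose_sub]
      abel
    · rw [Matrix.sub_apply, key2 x hx y hy i j hi hj, key2 y hy x hx i j hi hj, sub_zero]
  stab := by
    rintro _ ⟨c, hc, rfl⟩ _ ⟨x, hx, rfl⟩
    have e : ∀ i j, (dia k c * x - x * dia k c) i j = (c i - c j) • x i j := by
      intro i j
      rw [Matrix.sub_apply, dia, Matrix.diagonal_mul, Matrix.mul_diagonal, Matrix.smul_mul,
        Matrix.mul_smul, Matrix.one_mul, Matrix.mul_one, sub_smul]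
    refine ⟨dia k c * x - x * dia k c, ⟨UD_dia c hx.1, fun i j => ?_, fun i j hi hj => ?_⟩,
      by rw [map_sub, map_mul, map_mul, blk_dia]⟩
    · rw [e, e, hx.2.1 i j, hc i, hc j, Matrix.transpose_smul, smul_neg, ← neg_smul, ← neg_smul]
      congr 1
      ring
    · rw [e, hx.2.2 i j hi hj, smul_zero]

end H

end Pool.Agent.QSB
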