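import Pool.Agent.QSB.Defs

/-!
# Squad QSB, part A: from the algebraic data on `Γ` to the brackets (non reduced roots allowed)

Versions of the rows of QSN (`Pool/Agent/QSN/StmtsA.lean`) with `rt l ≠ rt l'` replaced by `Np l l'`.
The group theory rows NSM CRM CMM of QSN are used as they are, with `cl l` = the ray of `l`.
-/

set_option autoImplicit false

namespace Pool.Agent.QSB

open Matrix Finset Pool.Agent.QSX Pool.Agent.QSN

/-! ### Block 0: basic lemmas (proved) -/

section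

variable {X : Dat} (hX : MB X)

theorem MB.su_e (l : hX.ι) : SU (hX.e l) := by
  apply X.su
  rw [← hX.span_e]
  exact Submodule.subset_span ⟨l, rfl⟩

theorem MB.e_mem (l : hX.ι) : hX.e l ∈ X.n := by
  rw [← hX.span_e]
  exact Submodule.subset_span ⟨l, rfl⟩

theorem MB.rt_ne (l : hX.ι) : hX.rt l ≠ 0 := by
  obtain ⟨a, ha⟩ := hX.pos
  intro h
  have := ha l
  rw [h] at this
  exact lt_irrefl _ this

theorem MB.np_symm {l l' : hX.ι} (h : hX.Np l l') : hX.Np l' l := by
  intro c e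
  have hc : c ≠ 0 := by
    rintro rfl
    rw [zero_smul] at e
    exact hX.rt_ne l' e
  apply h c⁻¹
  rw [e, smul_smul, inv_mul_cancel₀ hc, one_smul]

theorem MB.np_ne {l l' : hX.ι} (h : hX.Np l l') : hX.rt l ≠ hX.rt l' := by
  intro e
  exact h 1 (by rw [one_smul]; exact e)

theorem MB.np_iff {l l' : hX.ι} : ¬ hX.Np l l' ↔ ∃ c : ℝ, hX.rt l = c • hX.rt l' := by
  unfold MB.Np
  push Not
  rfl

/-- if the roots of `l`, `l'` are proportional, the same roots are not proportional to them -/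
theorem MB.np_congr {l l' m : hX.ι} (h : ¬ hX.Np l l') : hX.Np m l ↔ hX.Np m l' := by
  have key : ∀ l l' m : hX.ι, ¬ hX.Np l l' → hX.Np m l' → hX.Np m l := by
    intro l l' m h hm c e
    obtain ⟨d, hd⟩ := hX.np_iff.1 h
    apply hm (c * d)
    rw [e, hd, smul_smul]
  refine ⟨key l' l m (fun h' => h (hX.np_symm h')), key l l' m h⟩

theorem MB.np_refl (l : hX.ι) : ¬ hX.Np l l :=
  fun h => h 1 (one_smul _ _).symm

/-- the ray of `l` -/
def MB.cl (l : hX.ι) : Set hX.ι := {m | ¬ hX.Np m l}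

theorem MB.cl_ne {l l' : hX.ι} : hX.cl l ≠ hX.cl l' ↔ hX.Np l l' := by
  constructor
  · intro h
    by_contra h'
    apply h
    ext m
    simp only [MB.cl]
    exact not_congr (hX.np_congr h')
  · intro h e
    have h1 : l ∈ hX.cl l := hX.np_refl l
    rw [e] at h1
    exact h1 h

theorem MB.cl_eq {l l' : hX.ι} : hX.cl l = hX.cl l' ↔ ¬ hX.Np l l' := by
  rw [← hX.cl_ne, not_not]

/-- non proportional roots are linearly independent -/
theorem MB.indep {l l' : hX.ι} (h : hX.Np l l') {s t s' t' : ℝ}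
    (e : s • hX.rt l + t • hX.rt l' = s' • hX.rt l + t' • hX.rt l') : s = s' ∧ t = t' := by
  have key : ∀ l l' : hX.ι, hX.Np l l' → ∀ s t s' t' : ℝ,
      s • hX.rt l + t • hX.rt l' = s' • hX.rt l + t' • hX.rt l' → s = s' := by
    intro l l' h s t s' t' e
    by_contra hs
    apply h ((t' - t) / (s - s'))
    have hs' : s - s' ≠ 0 := sub_ne_zero.2 hs
    have h1 : (s - s') • hX.rt l = (t' - t) • hX.rt l' := by
      apply LinearMap.ext
      intro a
      have e1 := congrArg (fun f : X.b →ₗ[ℝ] ℝ => f a) e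
      simp only [LinearMap.add_apply, LinearMap.smul_apply, smul_eq_mul] at e1 ⊢
      linear_combination e1
    rw [div_eq_inv_mul, mul_smul, ← h1, smul_smul, inv_mul_cancel₀ hs', one_smul]
  refine ⟨key l l' h s t s' t' e, key l' l (hX.np_symm h) t s t' s' ?_⟩
  rw [add_comm (t • hX.rt l'), e, add_comm]

/-- the roots of the factors of a commutator formula are not proportional to `rt l` and `rt l'` -/
theorem MB.t_ne (l l' : hX.ι) (h : hX.Np l l') (t : hX.ι × ℕ × ℕ × ℚ)
    (ht : t ∈ hX.L l l') : hX.Np t.1 l ∧ hX.Np t.1 l' := by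
  obtain ⟨hp, hq, hr⟩ := hX.L_rt l l' t ht
  have hp' : (t.2.1 : ℝ) ≠ 0 := by positivity
  have hq' : (t.2.2.1 : ℝ) ≠ 0 := by positivity
  constructor
  · intro c h1
    have h2 : (t.2.1 : ℝ) • hX.rt l + (t.2.2.1 : ℝ) • hX.rt l' =
        c • hX.rt l + (0 : ℝ) • hX.rt l' := by
      rw [← hr, h1, zero_smul, add_zero]
    exact hq' (hX.indep h h2).2
  · intro c h1
    have h2 : (t.2.1 : ℝ) • hX.rt l + (t.2.2.1 : ℝ) • hX.rt l' =
        (0 : ℝ) • hX.rt l + c • hX.rt l' := by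
      rw [← hr, h1, zero_smul, zero_add]
    exact hp' (hX.indep h h2).1

/-- factors with the same root have the same exponents -/
theorem MB.t_pq (l l' : hX.ι) (h : hX.Np l l') (t t' : hX.ι × ℕ × ℕ × ℚ)
    (ht : t ∈ hX.L l l') (ht' : t' ∈ hX.L l l') (e : hX.rt t.1 = hX.rt t'.1) :
    t.2.1 = t'.2.1 ∧ t.2.2.1 = t'.2.2.1 := by
  have h1 := (hX.L_rt l l' t ht).2.2
  have h2 := (hX.L_rt l l' t' ht').2.2
  rw [h1, h2] at e
  have h3 := hX.indep h e
  exact ⟨by exact_mod_cast h3.1, by exact_mod_cast h3.2⟩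

end

/-! ### Block X: the group `Γ` -/

/-- **WTX** (easy-medium, no hypotheses).  An element of `n` of weight `ρ` is a combination of the `e t` with `rt t = ρ`.
Proof.  Write `x = ∑ x_t e_t` (`span_e`, `ι` finite: `Submodule.mem_span_range_iff_exists_fun`).  For `c ∈ b` the linear map `y ↦ diag c y - y diag c` maps `x` to `∑ x_t rt_t(c) e_t` (`wt`) and to `ρ(c) ∑ x_t e_t`; so by `lin`
`x_t (rt_t(c) - ρ(c)) = 0` for all `c` and `t`.  If `x_t ≠ 0`, then `rt t = ρ`.  So `x` is a sum of elements `x_t e_t` of the span. -/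
def WtxStmt : Prop :=
  ∀ (X : Dat) (hX : MB X) (ρ : X.b →ₗ[ℝ] ℝ), ∀ x ∈ X.n,
    (∀ c : X.b, diagonal (c : Fin X.m → ℝ) * x - x * diagonal (c : Fin X.m → ℝ) = ρ c • x) →
    x ∈ Submodule.span ℝ (hX.e '' {t | hX.rt t = ρ})

/-- **CSR** (easy-medium, uses WTX; version of `Helper27_QSN/CSR.lean`).  The root spaces of `X` are abelian if `2 rt l` is not a root.
Proof.  It is enough to prove `e l * e l' = e l' * e l` for `rt l = rt l'` (bilinearity, `Submodule.span_induction` twice).  `z = e l * e l' - e l' * e l ∈ n` (`X.lie`), and with `D = diag c`: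
`D z - z D = [D e_l - e_l D, e_l'] + [e_l, D e_l' - e_l' D] = 2 rt_l(c) z` (`wt`).  By WTX `z` is in the span of the `e t` with `rt t = (2 : ℝ) • rt l`, but there is no such `t` by hypothesis.  So `z = 0`. -/
def CsrStmt : Prop :=
  ∀ (X : Dat) (hX : MB X) (l : hX.ι), (∀ t, hX.rt t ≠ (2 : ℝ) • hX.rt l) →
    ∀ x ∈ Submodule.span ℝ (hX.e '' {t | hX.rt t = hX.rt l}),
    ∀ y ∈ Submodule.span ℝ (hX.e '' {t | hX.rt t = hX.rt l}), x * y = y * x

/-- **CS2** (easy-medium, uses WTX).  Brackets in a root space.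
Proof.  `z = x y - y x` has weight `2 • rt l` (as in CSR), so WTX.  `z w - w z` (`w` in the root space of `l` or of `2 rt l`) has weight `3 • rt l` or `4 • rt l`, which is not a root (`ray`), so it is `0` by WTX (the set `{t | rt t = ρ}` is empty, the span is `⊥`). -/
def Cs2Stmt : Prop :=
  ∀ (X : Dat) (hX : MB X) (l : hX.ι),
    ∀ x ∈ Submodule.span ℝ (hX.e '' {t | hX.rt t = hX.rt l}),
    ∀ y ∈ Submodule.span ℝ (hX.e '' {t | hX.rt t = hX.rt l}),
      x * y - y * x ∈ Submodule.span ℝ (hX.e '' {t | hX.rt t = (2 : ℝ) • hX.rt l}) ∧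
      (∀ w ∈ Submodule.span ℝ (hX.e '' {t | hX.rt t = hX.rt l}),
        (x * y - y * x) * w = w * (x * y - y * x)) ∧
      ∀ w ∈ Submodule.span ℝ (hX.e '' {t | hX.rt t = (2 : ℝ) • hX.rt l}), x * w = w * x

/-- **BRN** (easy, uses COF of QSX; copy of `Helper16_QSX/BRE.lean`).  The brackets of the basis.
Proof.  `hX.com` for natural `x`, `y` is the identity required by COF with `F = ℝ`, `A = e l`, `B = e l'`, `C t = e t` (`su_e`); `L_rt` gives `p, q ≥ 1`. -/
def BrnStmt : Prop :=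
  ∀ (X : Dat) (hX : MB X) (l l' : hX.ι), hX.Np l l' →
    hX.e l * hX.e l' - hX.e l' * hX.e l = hX.br hX.e l l'

/-- the group generated by the root elements (with rational parameters) of the roots not proportional to `rt t` -/
def MB.K {X : Dat} (hX : MB X) (t : hX.ι) : Subgroup (Matrix (Fin X.m) (Fin X.m) ℝ)ˣ :=
  Subgroup.closure {g | ∃ (m : hX.ι) (y : ℚ), hX.Np m t ∧ g = ue ((y : ℝ) • hX.e m)}

/-- **KNR** (medium, no hypotheses).  The group `K t` is normalised by the root elements of the root `rt t`.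
Proof.  Let `g = ue (y e_s)`, `rt s = rt t`.  For a generator `h = ue (z e_m)`, `rt m ≠ rt t`, `com s m` gives `g h g⁻¹ = (∏_(r ∈ L s m) ue (c_r y^p z^q e_r)) h`, and `rt r ≠ rt s = rt t` (`t_ne`), the parameters are rational: all factors
are generators of `K t`.  So `g h g⁻¹ ∈ K t` for all `h ∈ K t` (`Subgroup.closure_induction`; or `Subgroup.closure_le` for the preimage of `K t` under the conjugation). -/
def KnrStmt : Prop :=
  ∀ (X : Dat) (hX : MB X) (t s : hX.ι) (y : ℚ), ¬ hX.Np s t → ∀ h ∈ hX.K t,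
    ue ((y : ℝ) • hX.e s) * h * (ue ((y : ℝ) • hX.e s))⁻¹ ∈ hX.K t

/-- **BC2** (medium, no hypotheses).  Baker-Campbell-Hausdorff for two strictly upper triangular matrices with central bracket.
Proof.  `c = a b - b a` commutes with `a` and `b`.  By induction `a^k b = b a^k + k a^(k-1) c`, so `mexp a * b = (b + c) * mexp a` (all powers of strictly upper triangular matrices beyond `m` vanish: use `SU.pow_eq_zero`), so `mexp a * mexp b = mexp (b + c) * mexp a = mexp b * mexp c * mexp a` (`mexp_add` for the commuting `b`, `c`).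
For the claim: let `G(s) = mexp (s a) * mexp (s b)`, `H(s) = mexp (s (a + b)) * mexp (s^2 c / 2)` (polynomials in `s`); both satisfy `G' = (a + b + s c) G` (`G' = a G + mexp (s a) b mexp (s b) = a G + (b + s c) G`; `H' = (a + b) H + s c H`) and `G(0) = H(0) = 1`; the coefficients of the powers of `s` are determined
recursively.  Alternatively: Lagrange / binomial identity, or the formula `mexp (a + b) = mexp a mexp b mexp (-c/2)` via `(a + b)^n = ∑ ...`. -/
def Bc2Stmt : Prop :=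
  ∀ (m : ℕ) (a b : Matrix (Fin m) (Fin m) ℝ), SU a → SU b →
    (a * b - b * a) * a = a * (a * b - b * a) → (a * b - b * a) * b = b * (a * b - b * a) →
    ue a * ue b = ue (a + b) * ue ((1 / 2 : ℝ) • (a * b - b * a))

/-- **GEN** (strong, uses CSR CS2 BC2 BRN KNR and GLS of QSN; version of `Helper17_QSN/GEN.lean`).  The root elements of a ray which occurs in a commutator formula are products of root elements of other rays.
Proof.  `K = hX.K t'`; it is the same for all `t'` of the ray (`np_congr`).  For a pair `w`, `w'` with `Np w w'` and `x ∈ ℚ` the commutator of `ue (x e_w)` and `ue (1 e_w')` is `∏_(s ∈ L w w') ue (c_s x^p e_s)` (`com`).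
STEP 1: `t'` such that `2 rt t'` is not a root.  As in QSN: (a) let `Np w w'`, `rt w + rt w' = rt t'`; `Np w t'`, `Np w' t'` (if `rt w = c • rt t'` then `rt w' = (1 - c) • rt t'` and `w`, `w'` are proportional, `rt_ne`), so the commutator is in `K`.  A factor with `Np s t'` is in `K`; a factor with `¬ Np s t'` normalises `K` (KNR).  For such a factor
`p rt w + q rt w' = rt s = c rt t' = c rt w + c rt w'`, so `p = q = c` (`indep`), `c ∈ {1/2, 1, 2}` (`ray`), so `p = q = 1` or `p = q = 2`; `p = q = 2` is excluded here (`rt s = 2 rt t'`).  So GLS (predicate `p = 1 ∧ q = 1`) gives: the product of the `ue (c_s x e_s)` over the `s` with `p = q = 1` is in `K`; these `e_s` commute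
(CSR), so it is `ue (x • br e w w') = ue (x z_w)`, `z_w = [e w, e w']` (BRN).  (b) `gen` (for `l`, `l'`, `t`): `e t' = ∑_w q_w z_w`, the `z_w` commute (CSR), so `ue (x e_t') = ∏ ue (x q_w z_w) ∈ K`.
STEP 2: `2 rt t'` is a root.  All `s'` with `rt s' = 2 rt t'` are in the ray of `t.1`, and `2 rt s'` is not a root (`ray`), so `ue (x e_s') ∈ K` by STEP 1, for rational `x`; so `ue z ∈ K` for all rational combinations `z` of such `e_s'` (they commute: CSR); call these `z` small.  A bracket of two rational combinations of the `e_s`, `rt s = rt t'`, is small (`self`), commutes with all of them (CS2).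
For `a`, `b` rational combinations of the `e_s`, `rt s = rt t'`: `ue a * ue b = ue (a + b) * ue (1/2 (a b - b a))` (BC2), so (*) `ue (a + b) ∈ K` iff `ue a * ue b ∈ K` (up to a small factor, which is in `K`).
(a) as in STEP 1, but factors with `p = q = 2` have `rt s = 2 rt t'` and are in `K`; so the product over the `s` with `p = q = 1` of the `ue (c_s x e_s)` is in `K`, and by (*) (induction on the list) `ue (x z_w) ∈ K`, `z_w = br e w w'` a rational combination.  (b) `ue (x e_t') = ue (∑ x q_w z_w) ∈ K` by (*) and induction. -/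
def GenStmt : Prop :=
  ∀ (X : Dat) (hX : MB X) (l l' : hX.ι), hX.Np l l' → ∀ t ∈ hX.L l l', ∀ t' : hX.ι,
    ¬ hX.Np t' t.1 → ∀ x : ℚ, ue ((x : ℝ) • hX.e t') ∈ hX.K t'

/-! ### Block I: invariance and the brackets -/

/-- the abstract data of `AFM` (proved) -/
noncomputable def AFM.rg {X Y : Dat} {hX : MB X} {F : Type} [Field F] [Algebra ℝ F]
    {P : X.b →ₗ[ℝ] (Fin Y.m → ℝ)} (A : AFM X Y hX F P) :
    RGM hX.ι (Set hX.ι) (Matrix (Fin X.m) (Fin X.m) ℝ)ˣ (Matrix (Fin Y.m) (Fin Y.m) F)ˣ where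
  cl := hX.cl
  u l x := ue ((x : ℝ) • hX.e l)
  add l x y := by
    rw [Rat.cast_add]; exact ue_add' (hX.su_e l) _ _
  L := hX.L
  pq l l' t ht := ⟨(hX.L_rt l l' t ht).1, (hX.L_rt l l' t ht).2.1⟩
  ne l l' h t ht := ⟨hX.cl_ne.2 (hX.t_ne l l' (hX.cl_ne.1 h) t ht).1,
    hX.cl_ne.2 (hX.t_ne l l' (hX.cl_ne.1 h) t ht).2⟩
  nodup := hX.L_nodup
  com l l' h x y := by
    rw [hX.com l l' (hX.cl_ne.1 h)]
    congr 1
    refine List.map_congr_left fun t _ => ?_
    push_cast
    rfl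
  χ := A.χ

theorem AFM.rg_Gam {X Y : Dat} {hX : MB X} {F : Type} [Field F] [Algebra ℝ F]
    {P : X.b →ₗ[ℝ] (Fin Y.m → ℝ)} (A : AFM X Y hX F P) : A.rg.Gam = hX.Gam := rfl

/-- **INM** (strong, uses FCP of QSX; copy of `Helper11_QSX/INA.lean`).  A homomorphism which separates the root elements of `rt l` from the others.
Proof.  Let `r i k` mean `0 ≤ w_ik(a)` for all `a ∈ dual {l, l'}` and `q i k` mean: `w_ik(a) = 0` for all `a` with `rt l a = 0`.  `r` is transitive.  Face property: let `r i j`, `r j k`.  `q i j`, `q j k` imply `q i k` (sum).  Conversely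
let `q i k` and `rt l a = 0`.  If `rt l' a ≥ 0`, then `a ∈ dual {l, l'}`, so `w_ij(a)`, `w_jk(a) ≥ 0` with sum `w_ik(a) = 0`: both are `0`.  If `rt l' a < 0`, apply this to `-a`.  FCP gives `G` and `π = kp q`.
All `V t n x = (χ n)⁻¹ χ (n u_t(x))` are unitriangular (`val`: they are `ue y`, and `mexp y - 1` is strictly upper triangular), and `supp` with `Ψ = {t}`, `z = x • e t` says that `V t n x i k ≠ 0`, `i < k`, implies that `w_ik ≥ 0` on
`{rt t ≥ 0}`, so by `fks` (`hX.pos`) `w_ik = κ rt t`, `κ ≥ 0`, and `κ ≠ 0` because `w_ik ≠ 0`.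
First claim (`rt t = rt l`): such an `(i,k)` satisfies `r i k` and `q i k`; so `V t n x ∈ G` and `kp q (V t n x) = V t n x`.
Second claim (`rt t = p rt l + p' rt l'` with `p ≥ 0`, `p' > 0`): `w_ik = κ rt t ≥ 0` on `dual {l, l'}`, so `r i k`; if `q i k`, then `rt t` vanishes on `ker (rt l)`, so `rt l'` vanishes on `ker (rt l)`, so `rt l' = c • rt l`
(`fks` for `rt l` and `rt l'`, or directly), which contradicts `nonprop`.  So `kp q (V t n x) = 1`. -/
def InmStmt : Prop :=
  ∀ (X Y : Dat) (hX : MB X) (F : Type) [Field F] [Algebra ℝ F]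
    (P : X.b →ₗ[ℝ] (Fin Y.m → ℝ)) (A : AFM X Y hX F P) (l l' : hX.ι), hX.Np l l' →
    ∃ (G : Subgroup (Matrix (Fin Y.m) (Fin Y.m) F)ˣ) (π : G →* (Matrix (Fin Y.m) (Fin Y.m) F)ˣ),
      (∀ t : hX.ι, hX.rt t = hX.rt l → ∀ n ∈ hX.Gam, ∀ x : ℚ,
        ∃ h : A.rg.V t n x ∈ G, π ⟨_, h⟩ = A.rg.V t n x) ∧
      (∀ t : hX.ι, (∃ p p' : ℝ, 0 ≤ p ∧ 0 < p' ∧ hX.rt t = p • hX.rt l + p' • hX.rt l') →
        ∀ n ∈ hX.Gam, ∀ x : ℚ, ∃ h : A.rg.V t n x ∈ G, π ⟨_, h⟩ = 1)

/-- **IVM** (medium, uses INM; copy of `Helper39_QSX/INV.lean`).  The invariance of the steps.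
Proof.  Let `D = A.rg`, `u = u_l(x)`, `w = u_l'(y)`, `N(a,b) = χ(a)⁻¹ χ(b)` and `G`, `π` from INM.  `V l (n w) x = N(n w, n w u) = N(n w, n) N(n, n u) N(n u, n w u)`.
`N(n w, n) = V l' (n w) (-y)`, `N(n, n u) = V l n x`.  By `com` for `-x`, `y`: `u⁻¹ w u = (∏_t u_t(z_t)) w`, `z_t = c_t (-x)^p y^q` (`u_l(-x) = u⁻¹`), so `n w u = n u (∏_t u_t(z_t)) w` and `N(n u, n w u)` is a product of
`V t (n_t) z_t`, `t ∈ L l l'`, and `V l' (n') y` with points `n_t, n' ∈ Γ` (induction on the list).  By INM all factors are in `G`; `π` is `1` on the factors of `t` and of `l'` (`rt t = p rt l + q rt l'`, `q ≥ 1`;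
`rt l' = 0 • rt l + 1 • rt l'`) and the identity on `V l n x` and on `V l (n w) x`.  Applying `π`: `V l (n w) x = V l n x`. -/
def IvmStmt : Prop :=
  ∀ (X Y : Dat) (hX : MB X) (F : Type) [Field F] [Algebra ℝ F]
    (P : X.b →ₗ[ℝ] (Fin Y.m → ℝ)) (A : AFM X Y hX F P), A.rg.Inv

/-- the matrices `C l = mlog ((χ 1)⁻¹ χ (ue (e l)))` -/
noncomputable def AFM.C {X Y : Dat} {hX : MB X} {F : Type} [Field F] [Algebra ℝ F]
    {P : X.b →ₗ[ℝ] (Fin Y.m → ℝ)} (A : AFM X Y hX F P) (l : hX.ι) :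
    Matrix (Fin Y.m) (Fin Y.m) F :=
  mlog ((((A.χ 1)⁻¹ * A.χ (ue (hX.e l)) : (Matrix (Fin Y.m) (Fin Y.m) F)ˣ)) : Matrix _ _ F)

/-- **CVL** (easy, uses LGM NFL of QSX).  The matrices `C l` and the first steps.
Proof.  `A.rg.V l 1 1 = (χ 1)⁻¹ χ (1 * ue ((1 : ℝ) • e l)) = (χ 1)⁻¹ χ (ue (e l))` (`((1 : ℚ) : ℝ) = 1`, `one_smul`, `one_mul`).  By `val` (`1 ∈ Γ`, `ue (e l) ∈ Γ`) it is `ue y`, `y ∈ n_F`, `SU y` (NFL), so `C l = mlog (mexp y) = y` (LGM). -/
def CvlStmt : Prop :=
  ∀ (X Y : Dat) (hX : MB X) (F : Type) [Field F] [Algebra ℝ F]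
    (P : X.b →ₗ[ℝ] (Fin Y.m → ℝ)) (A : AFM X Y hX F P) (l : hX.ι),
    A.C l ∈ Y.nF F ∧ SU (A.C l) ∧ A.rg.V l 1 1 = ue (A.C l) ∧
      (A.χ 1)⁻¹ * A.χ (ue (hX.e l)) = ue (A.C l)

/-- **TAD** (medium, uses LGM NFL ROO of QSX, CVL CSR IVM NSM GEN; port of `Helper18_QSN/TAD.lean`; the second and third claim only if `2 rt t` is not a root).  The steps in a root space which occurs in a commutator formula are additive (rational parameters).
Proof.  `D = A.rg`; `D.Gen` is GEN (`hX.K t'` is the group in `RGM.Gen`), `D.Inv` is IVM.  For `t'` in the class of `t.1` the steps `V t' n x` do not depend on `n ∈ Γ` (NSM), so `f x = V t' 1 x` satisfies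
`f (x + y) = V t' 1 x * V t' (u_t'(x)) y = f x * f y`, it is unitriangular (`val`), so `V t' n x = f x = ue (x • mlog (f 1)) = ue (x • C t')` (ROO, CVL).  First claim.  Second claim: let `z = ∑_(t' ∈ S) x_t' e_t'`, `S` a finite set of elements
of the class of `t.1`.  Induction on `S`: `ue z = ∏ ue (x_t' e_t')` (CSR, `mexp_add`), and `χ(n)⁻¹ χ(n g u_t'(x)) = χ(n)⁻¹ χ(n g) * V t' (n g) x`, so `χ(n)⁻¹ χ(n ue z) = ∏ ue (x_t' C t')` in any order; since the order of two factors can be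
exchanged on the left hand side (`u_t'`, `u_t''` commute), `ue (x C t')` and `ue (y C t'')` commute for all rational `x`, `y`, so for all natural numbers; comparing the coefficients of `x y` (polynomials in `x`, `y` which agree at all natural numbers; or: `mlog` of
a matrix which commutes with `g` commutes with `g`, twice) `C t'` and `C t''` commute (third claim), and the product is `ue (∑ x_t' C t')` (`mexp_add`). -/
def TadStmt : Prop :=
  ∀ (X Y : Dat) (hX : MB X) (F : Type) [Field F] [Algebra ℝ F]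
    (P : X.b →ₗ[ℝ] (Fin Y.m → ℝ)) (A : AFM X Y hX F P) (l l' : hX.ι), hX.Np l l' →
    ∀ t ∈ hX.L l l',
      (∀ t' : hX.ι, hX.rt t' = hX.rt t.1 → ∀ n ∈ hX.Gam, ∀ x : ℚ,
        (A.χ n)⁻¹ * A.χ (n * ue ((x : ℝ) • hX.e t')) = ue ((x : ℝ) • A.C t')) ∧
      ((∀ s, hX.rt s ≠ (2 : ℝ) • hX.rt t.1) →
      (∀ (S : Finset hX.ι) (x : hX.ι → ℚ), (∀ t' ∈ S, hX.rt t' = hX.rt t.1) → ∀ n ∈ hX.Gam,
        (A.χ n)⁻¹ * A.χ (n * ue (∑ t' ∈ S, ((x t' : ℚ) : ℝ) • hX.e t')) =
          ue (∑ t' ∈ S, ((x t' : ℚ) : ℝ) • A.C t')) ∧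
      (∀ t' t'' : hX.ι, hX.rt t' = hX.rt t.1 → hX.rt t'' = hX.rt t.1 →
        A.C t' * A.C t'' = A.C t'' * A.C t'))

/-- **BRM** (medium-strong, uses NFL SPT COF of QSX, CVL TAD IVM GEN CMM; copy of `Helper10_QSX/BRK.lean`).  The brackets over the residue field.
Proof.  Let `D = A.rg`, `D_l = V l 1 1 = ue (C l)` (CVL).
(1) `C l ∈ n_F`: CVL.  (2) `D_l ≠ 1` (`nondeg`, `n = 1`, `x = 1`), `ue 0 = 1`: so `C l ≠ 0`.
(3) Let `r i k` mean: there is `κ > 0` with `w_ik = κ rt l`; it is transitive.  By `supp` (`Ψ = {l}`) and `fks` (`hX.pos`) `D_l` is supported on `r` (`κ ≠ 0` since `w_ik ≠ 0`); so is `C l` (SPT; entries with `k ≤ i` of `C l`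
vanish, `SU (C l)`).
(4) Let `rt l ≠ rt l'`, `t ∈ L l l'`: `V t 1 z = ue (z • C t)` (TAD, first claim, `n = 1`).  `D_l^x = ue (x • C l)` (`ue_add'`, induction on `x`).  So CMM (with IVM, GEN) says that the hypothesis of COF holds for `A = C l`, `B = C l'`, the
family `C` and the list `L l l'` (cast `ℚ → ℝ`); its conclusion is `C l * C l' - C l' * C l = hX.br C l l'`. -/
def BrmStmt : Prop :=
  ∀ (X Y : Dat) (hX : MB X) (F : Type) [Field F] [Algebra ℝ F]
    (P : X.b →ₗ[ℝ] (Fin Y.m → ℝ)) (A : AFM X Y hX F P), GoodM X Y hX F P A.C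

end Pool.Agent.QSB
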