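import Pool.Agent.QSB.StmtsA

/-!
# Squad QSB, part B1: versions of the rows of `Pool/Agent/QSN/StmtsB.lean` for data of type `MB`

The pure rows TYQ, SQN, GZE and the definitions `Bx`, `HH`, `sh`, `Wds`, `Typ`, `UX` are those of QSN.
-/

set_option autoImplicit false

namespace Pool.Agent.QSB

open Matrix Finset Pool.Agent.QSX Pool.Agent.QSN Filter Topology

/-! ### The grid in the centre -/

/-- Brackets `w_k = [e (l k), e (m k)]` which form a basis of the sum of the top root spaces of the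
components with at least two roots. -/
structure Grd {X : Dat} (hX : MB X) where
  D : ℕ
  l : Fin D → hX.ι
  m : Fin D → hX.ι
  ne : ∀ k, hX.Np (l k) (m k)
  top : ∀ k, hX.rt (l k) + hX.rt (m k) = hX.rt (hX.top (hX.comp (l k)))
  lin : LinearIndependent ℝ fun k => hX.e (l k) * hX.e (m k) - hX.e (m k) * hX.e (l k)
  span : ∀ j, ¬ hX.One j → ∀ t, hX.rt t = hX.rt (hX.top j) → hX.e t ∈
    Submodule.span ℝ (Set.range fun k => hX.e (l k) * hX.e (m k) - hX.e (m k) * hX.e (l k))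

section

variable {X : Dat} {hX : MB X} (H : Grd hX)

/-- the vector `w_k` -/
def Grd.w (k : Fin H.D) : Matrix (Fin X.m) (Fin X.m) ℝ :=
  hX.e (H.l k) * hX.e (H.m k) - hX.e (H.m k) * hX.e (H.l k)

/-- `exp (∑ z_k w_k)` -/
noncomputable def Grd.u (z : Fin H.D → ℝ) : UX X := ue (∑ k, z k • H.w k)

/-- the grid point `exp (∑ (m_k / M) w_k)` -/
noncomputable def Grd.gp (M : ℕ) (m : Fin H.D → ℤ) : UX X := H.u fun k => (m k : ℝ) / M

/-- the points of the path from `m` to `m'` which changes one coordinate after the other -/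
def Grd.md (m m' : Fin H.D → ℤ) (k : ℕ) : Fin H.D → ℤ := fun i => if (i : ℕ) < k then m' i else m i

/-- the words of the path from `m` to `m'`: step `k` goes from `gp (md k)` to `gp (md (k+1))` by the
commutator of `exp (e (l k))` and `exp (y e (m k))`, `y = (m' k - m k) / M` -/
noncomputable def Grd.wd (i : Fin H.D × Fin 5) (M : ℕ) (m m' : Fin H.D → ℤ) : UX X :=
  match i.2 with
  | 0 => H.gp M (H.md m m' i.1)
  | 1 => H.gp M (H.md m m' i.1) * ue (hX.e (H.l i.1))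
  | 2 => H.gp M (H.md m m' i.1) * ue (hX.e (H.l i.1)) *
      ue ((((m' i.1 - m i.1 : ℤ) : ℝ) / M) • hX.e (H.m i.1))
  | 3 => H.gp M (H.md m m' (i.1 + 1)) * ue ((((m' i.1 - m i.1 : ℤ) : ℝ) / M) • hX.e (H.m i.1))
  | 4 => H.gp M (H.md m m' (i.1 + 1))

end

/-- **TPR** (medium, uses WTX BRN; version of `Helper71_QSN/TPR.lean`).  The top roots.
Proof.  Let `a₊` be as in `pos`.  (1) Fix a component `comp l` and let `l₁` be an element of it (`comp l₁ = comp l`) with `rt l₁ a₊` maximal.  `x = e l₁` commutes with all `e k`, `Np k l₁`: otherwise by BRN the list `L l₁ k` contains a `t`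
with `p = q = 1` (`c_t ≠ 0`), `comp t = comp l₁` (`L_comp`) and `rt t a₊ = rt l₁ a₊ + rt k a₊ > rt l₁ a₊`.  As `e l₁ ≠ 0` (`lin`), `climb` gives `rt l₁ = rt (top (comp l₁)) = rt (top (comp l))`.  So `rt l a₊ ≤ rt (top (comp l)) a₊`.
(4) If `rt t = 2 • rt (top (comp l))`, then `comp t = comp (top (comp l)) = comp l` (`comp_rt`, `comp_top`) and `rt t a₊ = 2 rt (top (comp l)) a₊ > rt (top (comp t)) a₊`, against (1).
(2) If `rt t = rt (top (comp t))`, then `e t` commutes with all `e k`: for `Np k t` the same argument (a nonzero bracket gives an element of the component of `t` with a larger value at `a₊`, against (1)).  For `rt k = c • rt t` the bracket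
`z = [e t, e k] ∈ n` has weight `(1 + c) • rt t`; if `z ≠ 0` then by WTX there is `s` with `rt s = (1 + c) • rt t` (otherwise the span is `⊥`), `comp s = comp t` (`comp_rt`), and `c > 0` (`pos`), so `rt s a₊ > rt t a₊`, against (1).
(3) For `t ∈ L l l'` with `Np l l'` and `rt l + rt l' = rt (top (comp l))`: `rt t = p rt l + q rt l'`, and if `(p,q) ≠ (1,1)` then `rt t a₊ > rt l a₊ + rt l' a₊ = rt (top (comp l)) a₊` and `comp t = comp l`, against (1). -/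
def TprStmt : Prop :=
  ∀ (X : Dat) (hX : MB X), (∀ a : X.b, (∀ l, 0 < hX.rt l a) → ∀ l, hX.rt l a ≤
      hX.rt (hX.top (hX.comp l)) a) ∧
    (∀ t, hX.rt t = hX.rt (hX.top (hX.comp t)) → ∀ x ∈ X.n, hX.e t * x = x * hX.e t) ∧
    (∀ l l', hX.Np l l' → hX.rt l + hX.rt l' = hX.rt (hX.top (hX.comp l)) →
      ∀ t ∈ hX.L l l', t.2.1 = 1 ∧ t.2.2.1 = 1 ∧ hX.rt t.1 = hX.rt (hX.top (hX.comp l))) ∧
    (∀ l t, hX.rt t ≠ (2 : ℝ) • hX.rt (hX.top (hX.comp l)))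

/-- **CEN** (medium, uses BRN (StmtsA) TPR).  Central elements and the commutator.
Proof.  (1) `w_k = [e (l k), e (m k)] = ∑_(t ∈ L (l k) (m k)) c_t e_t` (BRN; all `t` have `p = q = 1` by TPR (3)), and all `rt t = rt (top (comp (l k))) = rt (top (comp t))` (`L_comp`), so by TPR (2) `w_k` commutes with `X.n`.
(2) `com` for `l k`, `m k` with `x = 1`: the right side is `∏ ue ((c_t y) e_t)`; the `e_t` commute, so it is `ue (y ∑ c_t e_t) = ue (y w_k)` (`mexp_add`).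
(3), (4) `mexp_add` for commuting matrices. -/
def CenStmt : Prop :=
  ∀ (X : Dat) (hX : MB X) (H : Grd hX),
    (∀ k, H.w k ∈ X.n ∧ ∀ x ∈ X.n, H.w k * x = x * H.w k) ∧
    (∀ k (y : ℝ), ue (hX.e (H.l k)) * ue (y • hX.e (H.m k)) * (ue (hX.e (H.l k)))⁻¹ *
      (ue (y • hX.e (H.m k)))⁻¹ = ue (y • H.w k)) ∧
    (∀ z z', H.u (z + z') = H.u z * H.u z') ∧
    (∀ z, ∀ x ∈ X.n, H.u z * ue x = ue x * H.u z)

/-- **BAS** (medium, uses BRN (StmtsA) TPR).  The grid exists.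
Proof.  Consider the set of the pairs `(l, m)` with `rt l ≠ rt m`, `rt l + rt m = rt (top (comp l))`, and choose among the brackets `[e l, e m]` of these pairs a basis of their span (`exists_linearIndependent`, finite; index by `Fin D`).
`span`: let `¬ One j`.  Then there is `l` with `comp l = j` and `rt l ≠ rt (top j)`; take such an `l` with `rt l a₊` maximal.  Note `comp (top j) = j` (`comp_top`).  By `climb` (for `x = e l`) there is `k` with `rt k ≠ rt l`, `[e l, e k] ≠ 0`; by BRN there is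
`t₀ ∈ L l k` with `p = q = 1` and `comp t₀ = j`, `rt t₀ = rt l + rt k`, so `rt t₀ a₊ > rt l a₊`: by maximality `rt t₀ = rt (top j)`.  Now let `rt t = rt (top j) = rt t₀`.  `gen` (for `l`, `k`, `t₀`, `t' = t`) writes `e t` as a combination of brackets of pairs
`(w.1, w.2.1)` with `rt w.1 ≠ rt w.2.1`, `rt w.1 + rt w.2.1 = rt t`.  If such a bracket is not `0`, then (BRN, `L_comp`) it is a combination of `e_i` with `rt i = rt w.1 + rt w.2.1 = rt t` and `comp i = comp w.1`; `comp_rt`: `comp w.1 = comp t = j`, so the pair is in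
our set; brackets which are `0` are in the span anyway. -/
def BasStmt : Prop := ∀ (X : Dat) (hX : MB X), Nonempty (Grd hX)

/-- **WDS** (medium, uses CEN).  The words are equivariant and bounded.
Proof.  (1) `U M m = gp M m`, `gp M 0 = ue 0 = 1`.  `md (m + m0) (m' + m0) k = md m m' k + m0`, `gp M (m + m0) = gp M m0 * gp M m` (CEN (3), commuting), `(m' + m0) k - (m + m0) k = m' k - m k`.
(2) A product of at most three elements `ue x`, `x ∈ n`, is `ue z`, `z ∈ n` (BCH).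
(3) `len (g h) ≤ len g + len h` (LEN), and each factor is `ue x` with `x` in a bounded set (coordinates `|m_k / M| ≤ HH D`, `|(m'_k - m_k)/M| ≤ 2 HH D`): PLN with `c = 0`.
(4) The same for `gp M m * γ`. -/
def WdsStmt : Prop :=
  ∀ (X : Dat) (hX : MB X) (H : Grd hX),
    (∀ M, H.gp M 0 = 1) ∧
    (∀ i M m m' m0, H.wd i M (m + m0) (m' + m0) = H.gp M m0 * H.wd i M m m') ∧
    (∀ i M m m', ∃ x ∈ X.n, H.wd i M m m' = ue x) ∧
    (∀ M m, ∀ y ∈ X.n, ∃ x ∈ X.n, H.gp M m * ue y = ue x) ∧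
    (∃ K0 : ℝ, ∀ i (M : ℕ) m m', 0 < M → (∀ k, |m k| ≤ ((HH H.D * M : ℕ) : ℤ)) → (∀ k, |m' k| ≤ ((HH H.D * M : ℕ) : ℤ)) →
      len (H.wd i M m m') ≤ K0) ∧
    (∀ γ : UX X, ∃ K0 : ℝ, ∀ (M : ℕ) m, 0 < M → (∀ k, |m k| ≤ ((HH H.D * M : ℕ) : ℤ)) →
      len (H.gp M m * γ) ≤ K0)

/-- the words of the grid -/
noncomputable def Grd.wds {X : Dat} {hX : MB X} (H : Grd hX) (h0 : ∀ M, H.gp M 0 = 1)
    (hs : ∀ i M m m' m0, H.wd i M (m + m0) (m' + m0) = H.gp M m0 * H.wd i M m m') :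
    Wds (UX X) H.D (Fin H.D × Fin 5) where
  U := H.gp
  W := H.wd
  U0 := h0
  shift := hs

/-! ### From the embedding to the flats -/

/-- the common part of the analytic structures: scale, linear map, good sets, typical words -/
structure Bas (X Y : Dat) (hX : MB X) (H : Grd hX) where
  S : Scale
  one_le : ∀ s, 1 ≤ S.R s
  P : X.b →ₗ[ℝ] (Fin Y.m → ℝ)
  Pb : ∀ a, P a ∈ Y.b
  /-- the good elements of `exp n` at the stage `s` -/
  Gd : ℕ → Set (UX X)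
  gdn : ∀ s, ∀ n ∈ Gd s, ∃ x ∈ X.n, n = ue x
  gam : ∀ n ∈ hX.Gam, ∀ᶠ s in (S.ω : Filter ℕ), n ∈ Gd s
  M : ℕ → ℕ
  /-- the mesh `1 / M` is a power of two, smaller than every `exp (-(c R))` -/
  pow : ∀ s, ∃ k : ℕ, M s = 2 ^ k
  big : ∀ c : ℝ, ∀ᶠ s in (S.ω : Filter ℕ), Real.exp (c * S.R s) ≤ M s
  a : ℕ → Fin H.D → ℕ
  ε : ℕ → ℝ
  ε0 : Tendsto ε (S.ω : Filter ℕ) (𝓝 0)
  half : ∀ s k, 2 * a s k < HH H.D * M s
  pair : ∀ s, (({q : (Fin H.D → ℤ) × (Fin H.D → ℤ) | q.1 ∈ Bx (HH H.D * M s) (a s) ∧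
    q.2 ∈ Bx (HH H.D * M s) (a s) ∧ ∃ i, H.wd i (M s) q.1 q.2 ∉ Gd s}.ncard : ℕ) : ℝ) ≤
      ε s * ((HH H.D * M s : ℕ) : ℝ) ^ (2 * H.D)
  star : ∀ s, (({m : Fin H.D → ℤ | m ∈ Bx (HH H.D * M s) (a s) ∧ ∃ i, (H.wd i (M s) 0 m ∉ Gd s ∨
    ∃ k, m + sh (M s) k ∈ Bx (HH H.D * M s) (a s) ∧
      H.wd i (M s) (sh (M s) k) (m + sh (M s) k) ∉ Gd s)}.ncard : ℕ) : ℝ) ≤
      ε s * ((HH H.D * M s : ℕ) : ℝ) ^ H.D

section

variable {X Y : Dat} {hX : MB X} {H : Grd hX} (B : Bas X Y hX H)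

/-- a sequence of good elements -/
def Bas.Good (n : ℕ → UX X) : Prop := ∀ᶠ s in (B.S.ω : Filter ℕ), n s ∈ B.Gd s

/-- a bounded sequence of elements of `exp n` -/
def Bas.Bd (n : ℕ → UX X) : Prop :=
  ∃ K : ℝ, ∀ᶠ s in (B.S.ω : Filter ℕ), ∃ x ∈ X.n, n s = ue x ∧ ∀ i j, |x i j| ≤ K

end

/-- **The flats.**  `F n s a` is the image (a point of `Y`) of the point `n · diag (exp (R s a))`. -/
structure FltQ (X Y : Dat) (hX : MB X) (H : Grd hX) extends Bas X Y hX H where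
  F : UX X → ℕ → X.b → Y.Pt
  L : ℝ
  C : ℝ
  one_le_L : 1 ≤ L
  zero_le_C : 0 ≤ C
  δ : ℕ → ℝ
  δ0 : Tendsto δ (S.ω : Filter ℕ) (𝓝 0)
  lip : ∀ s, ∀ n ∈ Gd s, ∀ a a',
    len ((Y.mat (F n s a))⁻¹ * Y.mat (F n s a')) ≤ L * (S.R s * ‖a - a'‖) + C
  up : ∀ s, ∀ n ∈ Gd s, ∀ n' ∈ Gd s, ∀ (a : X.b),
    len ((Y.mat (F n s a))⁻¹ * Y.mat (F n' s a)) ≤
      L * len ((ud (S.R s • (a : Fin X.m → ℝ)))⁻¹ * (n⁻¹ * n') * ud (S.R s • (a : Fin X.m → ℝ))) + C
  aff : ∀ s, ∀ n ∈ Gd s, ∀ a : X.b, ‖a‖ ≤ 1 → ∀ i,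
    |((F n s a).2 : Fin Y.m → ℝ) i - S.R s * P a i| ≤ δ s * S.R s
  dn : ∀ s, ∀ n ∈ Gd s, ∀ n' ∈ Gd s, ∀ a : X.b, ‖a‖ ≤ 1 →
    len ((ud (S.R s • (a : Fin X.m → ℝ)))⁻¹ * (n⁻¹ * n') * ud (S.R s • (a : Fin X.m → ℝ))) / L -
      C - δ s * S.R s ≤ len ((Y.mat (F n s a))⁻¹ * Y.mat (F n' s a))

/-- **CNQ** (medium, uses MCJ PLN of QSX, proved).  Conjugation by the diagonal, with constants.
Proof.  `z = ∑_(ν ∈ Ψ) t_ν e_ν`, `|t_ν| ≤ K₁ M₀` if all `|z i j| ≤ M₀` (the coordinates are linear functions on the finite dimensional space `n`; they vanish outside `Ψ` by `lin`).  `(ud a)⁻¹ ue z ud a = ue z'` with `z' = ∑ t_ν exp (-rt_ν a) e_ν`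
(`wt`: `e_ν` has entries only where `a_i - a_l = rt_ν a`; MCJ), `sz z' ≤ K₂ M₀ exp τ`; PLN (third inequality, `c = 0`, `ud 0 = 1`).  See `Pool/Agent/Helper68_QSX/CNR.lean`. -/
def CnqStmt : Prop :=
  ∀ (X : Dat) (hX : MB X), ∃ K : ℝ, 0 < K ∧ ∀ (Ψ : Set hX.ι), ∀ z ∈ Submodule.span ℝ (hX.e '' Ψ),
    ∀ M₀ : ℝ, 0 ≤ M₀ → (∀ i j, |z i j| ≤ M₀) → ∀ (a : X.b) (τ : ℝ), (∀ ν ∈ Ψ, -τ ≤ hX.rt ν a) →
      len ((ud (a : Fin X.m → ℝ))⁻¹ * ue z * ud (a : Fin X.m → ℝ)) ≤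
        K * (Real.log (1 + K * M₀ * Real.exp τ) + 1)

/-- **CLQ** (easy-medium, uses MCJ PLN of QSX, proved).  Lower bound for elements of a root space.
Proof.  `(ud a)⁻¹ ue z ud a = ue (exp (-rt_l a) z)`; PLN, second inequality with `c = 0`: `log (1 + exp (-rt_l a) |z i j|) ≤ K (len + 1)`, and `log (1 + x) ≥ log x`. -/
def ClqStmt : Prop :=
  ∀ (X : Dat) (hX : MB X), ∃ k C : ℝ, 0 < k ∧ ∀ (l : hX.ι),
    ∀ z ∈ Submodule.span ℝ (hX.e '' {t | hX.rt t = hX.rt l}), ∀ i j, z i j ≠ 0 → ∀ a : X.b,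
      k * (Real.log |z i j| - hX.rt l a) - C ≤
        len ((ud (a : Fin X.m → ℝ))⁻¹ * ue z * ud (a : Fin X.m → ℝ))

/-- **DFQ** (medium-strong, uses CNQ and GRP LUD HVB MIJ of QSX, proved).  The differentiation data.
Proof.  As `Pool/Agent/Helper25_QSX/DIF.lean` (copy it), with `Nn` = all elements `ue x`, `x ∈ X.n`.  `con`: for `g = ue z`, `z ∈ X.n = span (e '' univ)`, `D = {a : all rt l a > 0}`: CNQ with `Ψ = univ`, `τ = 0` at `j a`. -/
def DfqStmt : Prop :=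
  ∀ (X Y : Dat) (hX : MB X) (E : Type) [NormedAddCommGroup E] [InnerProductSpace ℝ E]
    (f : X.Pt → Y.Pt × E), QIE X.dist (pdist Y E) f →
    ∀ (G : Subgroup (UX X)), X.IsGrp G →
    ∃ (pt : G → X.Pt) (d : Dif G (WithLp 2 (EuclideanSpace ℝ (Fin Y.m) × E)) X.b),
      (∀ g : G, (g : UX X) = X.mat (pt g)) ∧
      (∀ g : G, d.h g = hv Y E (f (pt g))) ∧
      (∀ a : X.b, ((d.A a : G) : UX X) = ud (a : Fin X.m → ℝ)) ∧
      (∀ g : G, d.ℓ g = len (g : UX X)) ∧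
      d.Nn = {g : G | ∃ x ∈ X.n, (g : UX X) = ue x}

/-- **FLQ** (strong assembly, uses SQN DFQ WDS and GRP MDX (FSV MEA UTS FCM FEX) LMP HVB DFN LEN LUD of QSX, proved).  The flats.
Proof.  As `Pool/Agent/Helper94_QSX/FLT.lean`, with SQN instead of SEQ.  `G` from GRP, a mean from MDX, `pt`, `d` from DFQ; `Γ` = the elements of `G` in `hX.Gam` (countable, all are `ue x`: BCH); the words of `G` are those of `H` (WDS: they are `ue x`, so in `G`;
`d.ℓ = len`); `M j = 2 ^ (j ^ 2)`.  SQN gives `j`, `x`, `Q`, `ε`, `a`, `Gd`.  `S`: `ω = hyperfilter ℕ`, `R s = j s`.  `big`: `exp (c j) ≤ 2 ^ (j^2)` for large `j`.  `Bas.Gd s` = the image of `Gd s` in the matrices; `pair`, `star`: from `Typ`.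
`P`: LMP for the first components of `Q s`, bounded by `K' ‖a‖`: `|Q_i(a) - P_i(a)| ≤ ε'_s` on the unit ball with some `ε'_s → 0` along `ω` (put `ε'_s` = the supremum over the unit ball; `→ 0` by LMP).  `F n s a` = the point `r` with
`Y.mat r = (Y.mat (f (pt (x s))).1)⁻¹ * Y.mat (f (pt (x s * n * A (R s a)))).1` (DFN) for `n ∈ G` (any point otherwise).  `lip`, `up`, `aff`, `dn`, `Pb` as in FLT; `δ s = 2 (ε s + ε'_s)`: `aff`: `|r.2 i - R Q_i(a)| ≤ ε R`; `dn`: the difference of the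
`E`-parts of two good elements is `≤ 2 ε R` (same `Q s`). -/
def FlqStmt : Prop :=
  ∀ (X Y : Dat) (hX : MB X) (H : Grd hX) (E : Type) [NormedAddCommGroup E] [InnerProductSpace ℝ E]
    (f : X.Pt → Y.Pt × E), QIE X.dist (pdist Y E) f → Nonempty (FltQ X Y hX H)

/-! ### Vertical flats -/

/-- **NVP** (medium, uses NVL ENT of QSX, proved).  The vertical flats, chosen for each element.
Proof.  For `s`, `n ∈ Gd s`, `g`, `ε` let `Pr s n g ε` mean: `|((ue (F n s a).1)⁻¹ * g) i l| ≤ exp (R (P_i(a) - P_l(a) + ε))` for all `‖a‖ ≤ 1`, `i < l`, and `g = ue y`, `y ∈ Y.n`.  Let `e s n = inf {ε ≥ 0 : ∃ g, Pr s n g ε}` (the set may be empty: then take for `ψ s n` any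
element, e.g. `1 = ue 0`), and choose `ψ s n = g` with `Pr s n g (e s n + 1/(s+1))`.  Let `n` be a good sequence.  The hypothesis of NVL holds for `φ s a = ue (F (n s) s a).1` (for `s` with `n s ∉ Gd s` replace `φ s a` by `1`): for `R ‖a - a'‖ ≤ 1` the length of
`(mat F(a))⁻¹ mat F(a')` is `≤ L + C`, ENT and `aff` (see VRT, `Pool/Agent/Helper68_QSX/VRT.lean`).  NVL gives `g_s` with `Pr s (n s) (g_s) ε` eventually, for every `ε > 0`; so `e s (n s) ≤ ε` eventually, and `Pr s (n s) (ψ s (n s)) (2 ε)` eventually (`s` large along `ω`: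
`ω` is not principal because `R → ∞` along `ω`; so `1/(s+1) ≤ ε` eventually: if a finite set of `s` belonged to `ω`, `R` would be bounded on it). -/
def NvpStmt : Prop :=
  ∀ (X Y : Dat) (hX : MB X) (H : Grd hX) (V : FltQ X Y hX H),
    ∃ ψ : ℕ → UX X → UX Y, (∀ s n, ∃ y ∈ Y.n, ψ s n = ue y) ∧
      ∀ n : ℕ → UX X, V.Good n → V.S.Cls V.P {a | ‖a‖ ≤ 1}
        (fun s a => (((ue ((V.F (n s) s a).1 : Matrix (Fin Y.m) (Fin Y.m) ℝ))⁻¹ * ψ s (n s) : UX Y) :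
          Matrix _ _ ℝ))

/-- **The vertical flats** (the analogue of `Vert`, for sequences). -/
structure VertQ (X Y : Dat) (hX : MB X) (H : Grd hX) extends Bas X Y hX H where
  ψ : ℕ → UX X → UX Y
  ψn : ∀ s n, ∃ y ∈ Y.n, ψ s n = ue y
  near : ∀ n n' : ℕ → UX X, toBas.Good n → toBas.Good n' → ∀ (Ψ : Set hX.ι)
    (z : ℕ → Matrix (Fin X.m) (Fin X.m) ℝ) (K t : ℝ), 0 ≤ t →
    (∀ᶠ s in (S.ω : Filter ℕ), z s ∈ Submodule.span ℝ (hX.e '' Ψ) ∧
      (∀ i j, |z s i j| ≤ K * Real.exp (-(t * S.R s))) ∧ n' s = n s * ue (z s)) →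
    S.Cl P ({a | ‖a‖ ≤ 1} ∩ {a | ∀ ν ∈ Ψ, -t ≤ hX.rt ν a})
      (fun s => (((ψ s (n s))⁻¹ * ψ s (n' s) : UX Y) : Matrix _ _ ℝ))
  far : ∀ n n' : ℕ → UX X, toBas.Good n → toBas.Good n' → ∀ (l : hX.ι)
    (z : ℕ → Matrix (Fin X.m) (Fin X.m) ℝ) (c t : ℝ), 0 < c → 0 ≤ t →
    (∀ᶠ s in (S.ω : Filter ℕ), z s ∈ Submodule.span ℝ (hX.e '' {t' | hX.rt t' = hX.rt l}) ∧
      (∃ i j, c * Real.exp (-(t * S.R s)) ≤ |z s i j|) ∧ n' s = n s * ue (z s)) →
    ∀ a : X.b, ‖a‖ ≤ 1 → hX.rt l a < -t →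
    ¬ S.Cl P {a} (fun s => (((ψ s (n s))⁻¹ * ψ s (n' s) : UX Y) : Matrix _ _ ℝ))

/-- **VRQ** (medium-strong, uses NVP CNQ CLQ and CLG ENT ENU of QSX, proved).  The vertical flats.
Proof.  As `Pool/Agent/Helper68_QSX/VRT.lean`.  `ψ` from NVP.  `near`: for `a` in the set, `up` and CNQ at `R s a` with `M₀ = |K| exp (-(t R))`, `τ = t R` (`-τ ≤ rt ν (R a)`): the length of `(mat F(n,a))⁻¹ mat F(n',a)` is bounded (`M₀ exp τ = |K|`), so by ENT and `aff` the family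
`φ(n,a)⁻¹ φ(n',a)` is in the class on this set, and `ψ(n)⁻¹ ψ(n') = (φ(n,a)⁻¹ ψ(n))⁻¹ (φ(n,a)⁻¹ φ(n',a)) (φ(n',a)⁻¹ ψ(n'))` (CLG; the class on the unit ball restricts to the subset; replace the families by `1` at the `s` where something fails, this does not change the
class condition).  `far`: suppose the class condition holds at `a`.  Then (CLG on `{a}`) `φ(n,a)⁻¹ φ(n',a)` is in the class at `a`, so by `aff` its entries are `≤ exp (c_i - c_l + 3 ε R)`, `c = (F n s a).2`, and `|c_i - c'_i| ≤ 2 δ R`; ENU: the length is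
`≤ K₁ (1 + 5 ε R)` eventually, for every `ε > 0`.  By `dn` and CLQ at `R s a` (`n⁻¹ n' = ue (z s)`) it is `≥ (k (log c - t R - R rt_l a) - C')/L - C - δ R`, and `- t - rt_l a > 0`.  Contradiction for small `ε`. -/
def VrqStmt : Prop :=
  ∀ (X Y : Dat) (hX : MB X) (H : Grd hX), Nonempty (FltQ X Y hX H) → Nonempty (VertQ X Y hX H)

/-- **The gauge fixed flats**: the entries of weight `0` of the differences of bounded good sequences
are exponentially small. -/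
structure AFQ (X Y : Dat) (hX : MB X) (H : Grd hX) extends Bas X Y hX H where
  χ : ℕ → UX X → UX Y
  χn : ∀ s n, ∃ y ∈ Y.n, χ s n = ue y
  near : ∀ n n' : ℕ → UX X, toBas.Good n → toBas.Good n' → toBas.Bd n → toBas.Bd n' →
    ∀ (Ψ : Set hX.ι) (z : ℕ → Matrix (Fin X.m) (Fin X.m) ℝ) (K t : ℝ), 0 ≤ t →
    (∀ᶠ s in (S.ω : Filter ℕ), z s ∈ Submodule.span ℝ (hX.e '' Ψ) ∧
      (∀ i j, |z s i j| ≤ K * Real.exp (-(t * S.R s))) ∧ n' s = n s * ue (z s)) →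
    S.Cl P ({a | ‖a‖ ≤ 1} ∩ {a | ∀ ν ∈ Ψ, -t ≤ hX.rt ν a})
      (fun s => (((χ s (n s))⁻¹ * χ s (n' s) : UX Y) : Matrix _ _ ℝ))
  zero : ∀ n n' : ℕ → UX X, toBas.Good n → toBas.Good n' → toBas.Bd n → toBas.Bd n' →
    ∀ i l, i < l → (∀ a, P a i - P a l = 0) →
      S.Sm (fun s => (((χ s (n s))⁻¹ * χ s (n' s) : UX Y) : Matrix _ _ ℝ) i l)
  far : ∀ n n' : ℕ → UX X, toBas.Good n → toBas.Good n' → toBas.Bd n → toBas.Bd n' →
    ∀ (l : hX.ι) (z : ℕ → Matrix (Fin X.m) (Fin X.m) ℝ) (c t : ℝ), 0 < c → 0 ≤ t →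
    (∀ᶠ s in (S.ω : Filter ℕ), z s ∈ Submodule.span ℝ (hX.e '' {t' | hX.rt t' = hX.rt l}) ∧
      (∃ i j, c * Real.exp (-(t * S.R s)) ≤ |z s i j|) ∧ n' s = n s * ue (z s)) →
    ∀ a : X.b, ‖a‖ ≤ 1 → hX.rt l a < -t →
    ¬ S.Cl P {a} (fun s => (((χ s (n s))⁻¹ * χ s (n' s) : UX Y) : Matrix _ _ ℝ))

/-- **GAQ** (medium, uses GZE and CLG PRT LGM BCH of QSX, proved).  The gauge.
Proof.  `1 ∈ Γ`, so `1 ∈ Gd s` eventually.  Put `g s n = (ψ s 1)⁻¹ * ψ s n` (an element `ue y`, `y ∈ Y.n`: BCH), `h s n = part P 0 (mlog (g s n)) ∈ Y.n` (PRT with `k = 0`, LGM), `χ s n = ψ s n * (ue (h s n))⁻¹`.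
For a good bounded sequence `n`, `n s = ue (x s)` with `x s` bounded, `near` (with `Ψ = univ`, `t = 0`, base point `1`) gives the class condition for `g s (n s)` on `{‖a‖ ≤ 1} ∩ K`, `K = dual univ`; `K` spans (`pos`: `a₊ + t v ∈ K` for small `t`).  GZE: `ue (h s (n s))` is in the class
on every set; `near`, `far` for `χ`: `χ(n)⁻¹ χ(n') = ue(h(n)) (ψ(n)⁻¹ ψ(n')) ue(h(n'))⁻¹`, CLG (for `far`: conversely).  `zero`: `χ(n)⁻¹ χ(n') = (g(n) p0(g(n))⁻¹)⁻¹ (g(n') p0(g(n'))⁻¹)`: the last line of GZE.  (Modify sequences at the `s` outside the good set, e.g. by `1`.) -/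
def GaqStmt : Prop :=
  ∀ (X Y : Dat) (hX : MB X) (H : Grd hX), Nonempty (VertQ X Y hX H) → Nonempty (AFQ X Y hX H)

/-- **AQM** (medium, uses NRE NRF RDM RNF RLG BCH LGM of QSX, proved).  The data over the residue field for the elements of `Γ`.
Proof.  `χ_F n` = the unit with matrix `redM (s ↦ (χ s 1)⁻¹ χ s n)` (moderate by `near` with `Ψ = univ` and NRE (i); its inverse is the reduction of the inverse; `1` for `n ∉ Γ`).  Constant sequences in `Γ` are good (`gam`) and bounded.  `(χ_F n)⁻¹ χ_F n'` is the reduction of `χ(n)⁻¹ χ(n')`.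
`val`: `χ s n ⁻¹ χ s n' = ue (y s)`, `y s ∈ Y.n` (BCH), `y s = mlog (..)` moderate (RLG), `redM y ∈ nF` (RNF), `redM (mexp y) = mexp (redM y)`.  `supp`: NRE (ii) with `K = dual Ψ` (`near`, `t = 0`, constant `z`); and if all `w_il(a) = 0` then `zero` says that the entry is
`0`.  `nondeg`: if `(χ_F n)⁻¹ χ_F n' = 1`, `n' = n ue (x e_l)`, then all entries `i < l` of `χ(n)⁻¹ χ(n')` are small; by NRF for every `a` there is `t ∈ (0,1]` with the class condition at `t a`; take `‖a‖ ≤ 1` with `rt l a < 0`: contradiction to `far` (`t = 0` there, `z = x e_l ≠ 0`).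
See `Pool/Agent/Helper10_QSX/GAA.lean`, `Pool/Agent/Helper41_QSX/GAB.lean`. -/
def AqmStmt : Prop :=
  ∀ (X Y : Dat) (hX : MB X) (H : Grd hX) (A : AFQ X Y hX H),
    ∃ A' : AFM X Y hX A.S.FF A.P, ∀ n ∈ hX.Gam, ∀ n' ∈ hX.Gam,
      (((A'.χ n)⁻¹ * A'.χ n' : (Matrix (Fin Y.m) (Fin Y.m) A.S.FF)ˣ) : Matrix _ _ A.S.FF) =
        A.S.redM (fun s => (((A.χ s n)⁻¹ * A.χ s n' : UX Y) : Matrix (Fin Y.m) (Fin Y.m) ℝ))

end Pool.Agent.QSB
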