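import Pool.Agent.QSB.DatH

/-!
# Squad QSB, examples (helper18): the conditions `RR` and `S3` for the classical data

The data `datD` (SL), `datO` (SO (p, p + d)), `datU` (forms of maximal index) are those of squad QSN
(`QSN/StmtsE.lean`), `datH` (SU (p, p + d), Sp (p, p + d)) is defined in `QSB/DatH.lean`.  One statement
per row; every docstring contains a complete proof.  Compare the proofs of the rows `MSD ABD MSO ABO MSU ABU
OEM UEM` of QSN (files in table `qsn`): they contain the root vectors and the comparison of weights.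
NOTATION: `R i = Fin.rev i`, `σ = sg p d`, outer = not middle.
-/

set_option autoImplicit false

namespace Pool.Agent.QSB

open Matrix Finset Pool.Agent.QSX Pool.Agent.QSN

/-- the element of `nH` with the block `a` at the place `(i, j)` and its mirror image -/
noncomputable def eH (p d : ℕ) {k : ℕ} (i j : Fin (2 * p + d)) (a : Matrix (Fin k) (Fin k) ℝ) :
    Matrix (Fin (2 * p + d)) (Fin (2 * p + d)) (Matrix (Fin k) (Fin k) ℝ) :=
  Matrix.single i j a - Matrix.single (sg p d j) (sg p d i) aᵀ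

/-- the `i`-th coordinate of `b` as a linear functional -/
noncomputable def cH (p d : ℕ) {k : ℕ} (hk : 0 < k) (𝔻 : Subalgebra ℝ (Matrix (Fin k) (Fin k) ℝ))
    (i : Fin (2 * p + d)) : (datH p d 𝔻).b →ₗ[ℝ] ℝ :=
  (LinearMap.proj i : (Fin (2 * p + d) → ℝ) →ₗ[ℝ] ℝ) ∘ₗ (Pool.Agent.QSX.H10.rd hk) ∘ₗ (datH p d 𝔻).b.subtype

/-- **RRR** (easy, no hypotheses).  A reduced datum.  Proof.  `inj` and `two` assume that `ρ` and `2 ρ` are roots (`RtV Y (2 ρ) w` makes `2 ρ` a root). -/
def RrrStmt : Prop := ∀ Y : Dat, Ray Y → Red Y → RR Y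

/-- **RYD** (medium, no hypotheses; compare ABD, MSD).  The roots of `SL_n (𝔻)`.
Proof.  A root vector `z = blk x ≠ 0` of `ρ` has a block `x i j ≠ 0`, `i < j`, and then `ρ (cst d) = d i - d j` for all `d` of sum `0`.  Let `ρ` and `c • ρ` be roots: `c (d i - d j) = d i' - d j'` for all `d` of sum `0`, so for all `d` (add a constant).
`i < j`, `i' < j'`.  `d = Pi.single i 1`: `c = δ(i,i') - δ(i,j')`; `d = Pi.single j 1`: `-c = δ(j,i') - δ(j,j')`; if `{i,j} ≠ {i',j'}` take the unit vector at an index of `{i',j'}` which is not in `{i,j}`: `0 = ± 1`.  So the pairs agree and `c = 1`.  So `Ray`, and `2 ρ` is no root. -/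
def RydStmt : Prop :=
  ∀ (k n : ℕ) (𝔻 : Subalgebra ℝ (Matrix (Fin k) (Fin k) ℝ)), 0 < k →
    Ray (datD n 𝔻) ∧ Red (datD n 𝔻)

/-- **RYO** (medium, no hypotheses; compare ABO, MSO).  The roots of `SO (p, p + d)`.
Proof.  A root vector `x ≠ 0` of `ρ` has an entry `x i j ≠ 0`, `i < j`, and `ρ(c) = c_i - c_j`.  The position `(i, R i)`, `i` outer, has entry `0` (`x = - x`).  The symmetry `x (σ j) (σ i) = - x i j` allows us to assume `i < p` and: (A) `j < p`, (B) `j` middle (`c_j = 0`), (C) `j = R h`, `i < h < p`.  In the free coordinates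
`c_i`, `i < p`, the root is `c_i - c_j`, `c_i`, `c_i + c_h`.  If `c` times one of them is another one, then evaluating at the unit vectors `b_l = Pi.single l 1 - Pi.single (R l) 1` shows that they are equal and `c = 1` (the smallest index with a nonzero value is `i` and the value is `1`). -/
def RyoStmt : Prop := ∀ p d : ℕ, Ray (datO p d) ∧ Red (datO p d)

/-- **RYU** (medium, no hypotheses; compare ABU, MSU).  The roots of the unitary groups of maximal index.
Proof.  As RYO: a nonzero block `x i j`, `i < j`, `ρ = c_i - c_j`; by symmetry `i < p` and (A) `j < p`, (C) `j = R h`, `i < h < p`, (L) `j = R i`: the roots are `c_i - c_j`, `c_i + c_h`, `2 c_i`.  If `c` times one of them is another one, then evaluating at the unit vectors they have the same first index `i`, with the values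
`1, 1, 2`, and a second index with the values `-1`, `1` or none: so they are equal and `c = 1`. -/
def RyuStmt : Prop :=
  ∀ (k p : ℕ) (𝔻 : Subalgebra ℝ (Matrix (Fin k) (Fin k) ℝ)) (ε : ℝ) (hε : ε * ε = 1), 0 < k →
    Ray (datU p 𝔻 ε hε) ∧ Red (datU p 𝔻 ε hε)

/-- **EHM** (medium, no hypotheses).  Elements of `nH` and their weights.
Proof.  (1) `single i j a - single (σ j) (σ i) aᵀ`: it is in `UD` because `i < j` and `σ j < σ i` (if `i` and `j` are outer: `rev` reverses the order; if `j` is middle and `i` is not, then `i < p` and `σ i = R i ≥ p + d > j = σ j`; if `i` is middle and `j` is not, then `j ≥ p + d` and `σ j < p ≤ i`); the symmetry because `σ σ = 1`, transpose twice;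
no block (middle, middle).  (2) `(dia c x - x dia c) i j = (c_i - c_j) x i j`, and `c_(σ j) - c_(σ i) = - c_j + c_i`.  (3) Conversely compare the blocks of `blk (dia c x - x dia c) = ρ blk x` (`blk` is injective, `x i j ≠ 0` has an entry which is not `0`). -/
def EhmStmt : Prop :=
  ∀ (p d k : ℕ) (hk : 0 < k) (𝔻 : Subalgebra ℝ (Matrix (Fin k) (Fin k) ℝ)),
    (∀ a ∈ 𝔻, aᵀ ∈ 𝔻) →
    (∀ i j, i < j → ¬ (Md p d i ∧ Md p d j) → ∀ a ∈ 𝔻, eH p d i j a ∈ nH p d 𝔻 ∧
      WtV (datH p d 𝔻) (cH p d hk 𝔻 i - cH p d hk 𝔻 j) (blk k (2 * p + d) (eH p d i j a))) ∧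
    (∀ (ρ : (datH p d 𝔻).b →ₗ[ℝ] ℝ), ∀ x ∈ nH p d 𝔻,
      WtV (datH p d 𝔻) ρ (blk k (2 * p + d) x) → ∀ i j, x i j ≠ 0 →
        ρ = cH p d hk 𝔻 i - cH p d hk 𝔻 j) ∧
    (∀ i, cH p d hk 𝔻 (sg p d i) = - cH p d hk 𝔻 i) ∧
    (∀ c : Fin p → ℝ, ∃ a : (datH p d 𝔻).b, ∀ i : Fin (2 * p + d), ∀ h : (i : ℕ) < p,
      cH p d hk 𝔻 i a = c ⟨i, h⟩)

/-- **RYH** (medium-strong, uses EHM).  The condition `RR` for `SU (p, p + d)`, `Sp (p, p + d)`.
Proof.  Write `c_i = cH i`.  Roots: as in RYO, RYU (symmetry `(i,j) ↦ (σ j, σ i)`): `c_i - c_j` (`i < j < p`), `c_i` (`j` middle), `c_i + c_h` (`i < h < p`, position `(i, R h)`), `2 c_i` (position `(i, R i)`), `i < p`; the functionals `c_i`, `i < p`, are linearly independent (last part of EHM: evaluate at unit vectors).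
`ray`: proportional roots have the same first index; either they are equal or they are `c_i` and `2 c_i`.  Let `ρ` and `2 ρ` be roots: then `ρ = c_i`.
`inj`: `w = blk x`, all nonzero blocks of `x` are at places `(a,b)` with `c_a - c_b = 2 c_i`, so `x = single i (R i) h`, `h ≠ 0`.  `γ` and `2 c_i + γ` are roots: `γ = c_j - c_i`, `j < i` (compare the list).  `z = blk y`, `y` has a block `a = y j i ≠ 0` (its blocks are at the places `(j,i)` and `(R i, R j)`).  The block `(j, R i)` of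
`x * y - y * x` is `- a h ≠ 0` (`𝔻` is a division algebra; row `j` of `x` is `0`).
`two`: `ρ = c_i`; a root `γ`, not proportional to `c_i`, with `c_i + γ` a root is `c_j` (`j ≠ i`) or `c_j - c_i` (`j < i`).  In the second case `2 c_i + γ = c_i + c_j` is a root (`eH j (R i) 1`, EHM; it is not `0`, `1 ∈ 𝔻`, `0 < k`).  If `γ = c_j` and `γ' = c_h`, then `c_i + c_j + c_h` would be a root: it is not in the list. -/
def RyhStmt : Prop :=
  ∀ (p d k : ℕ) (𝔻 : Subalgebra ℝ (Matrix (Fin k) (Fin k) ℝ)), 0 < k → (∀ a ∈ 𝔻, aᵀ ∈ 𝔻) →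
    (∀ a ∈ 𝔻, a ≠ 0 → ∃ b ∈ 𝔻, a * b = 1) → RR (datH p d 𝔻)

/-- **S3O** (medium, no hypotheses; compare MSO).  The condition `S3` for `SO (p, p + d)`.
Proof.  Roots as in RYO.  `e (i,j) = E_(i,j) - E_(σ j, σ i)`.  (A) `c_i - c_j`, (C) `c_i + c_h`: the root space has dimension one (all nonzero entries are at `(i,j)` and its mirror image, so a root vector is a multiple of `e (i,j)`; third case).  (B) `ρ = c_i`, `i ≥ 1`: fourth case with `γ = c_(i-1) - c_i`, `2 ρ + γ = c_(i-1) + c_i` (root vectors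
`e (i-1,i)`, `e (i-1, R i)`).  `ρ = c_0`: first case: a root vector is `x = ∑_(r middle) x_0r e (0,r)` and `e (0,r) = [e (0,1), e (1,r)]` (`p ≥ 2`), `c_0 - c_1` and `c_1` are not proportional and have the sum `c_0`. -/
def S3oStmt : Prop := ∀ p d : ℕ, 2 ≤ p → S3 (datO p d)

/-- **S3U** (medium-strong, no hypotheses; compare MSU).  The condition `S3` for the unitary groups of maximal index.
Proof.  Roots as in RYU, `E (i,j) a` as in MSU (`QSN/StmtsE.lean`), `g ∈ 𝔻`, `g ≠ 0`, `gᵀ = - ε g`.  (A) `ρ = c_i - c_j`: fourth case, `γ = 2 c_j` (root vector `single j (R j) g`), `2 ρ + γ = 2 c_i`.  (C) `ρ = c_i + c_h`, `i < h`: first case: a root vector is `E (i, R h) a = [E (i,h) (a g⁻¹), E (h, R h) g]`, `c_i - c_h`, `2 c_h`.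
(L) `ρ = 2 c_i`, `i ≥ 1`: fifth case with `γ = γ' = c_0 - c_i`: `ρ + γ = c_0 + c_i`, `ρ + γ + γ' = 2 c_0`.  `i = 0`: first case: a root vector is `single 0 (R 0) h`, `hᵀ = - ε h`, and it is, up to sign, `[E (0,1) 1, E (1, R 0) (h/2)]`, `c_0 - c_1`, `c_0 + c_1`. -/
def S3uStmt : Prop :=
  ∀ (k p : ℕ) (𝔻 : Subalgebra ℝ (Matrix (Fin k) (Fin k) ℝ)) (ε : ℝ) (hε : ε * ε = 1), 0 < k →
    2 ≤ p → Herm 𝔻 ε → S3 (datU p 𝔻 ε hε)

/-- **S3H** (medium-strong, uses EHM).  The condition `S3` for `SU (p, p + d)`, `Sp (p, p + d)`, `d ≥ 1`.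
Proof.  Roots as in RYH; let `r` be a middle index, `g ∈ 𝔻`, `g ≠ 0`, `gᵀ = - g`.  `c_i - c_j`: fourth case, `γ = 2 c_j` (root vector `blk (eH j (R j) g)`, `eH j (R j) g = single j (R j) (2 g)`), `2 ρ + γ = 2 c_i`.  `c_i`, `i ≥ 1`: fourth case, `γ = c_(i-1) - c_i`, `2 ρ + γ = c_(i-1) + c_i`.  `c_0`: first case:
a root vector is `blk x`, `x = ∑_(r middle) eH 0 r (x 0 r)`, and `eH 0 r a = [eH 0 1 1, eH 1 r a]`.  `c_i + c_h`, `i < h`: first case: a root vector is `eH i (R h) a = [eH i r (-a), eH h r 1]` (the product `eH i r a * eH h r b` has the block `a (- bᵀ)` at `(i, R h)`, the other product the block `- b aᵀ` at `(h, R i)`); `c_i` and `c_h`.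
`2 c_i`: second case, `2 c_i = 2 • c_i`. -/
def S3hStmt : Prop :=
  ∀ (p d k : ℕ) (𝔻 : Subalgebra ℝ (Matrix (Fin k) (Fin k) ℝ)), 0 < k → 2 ≤ p → 1 ≤ d →
    Herm 𝔻 1 → S3 (datH p d 𝔻)

/-- **HEM** (medium, no hypotheses; compare OEM, UEM).  `U_(p, p + d) (𝔻)` in `U_(p, p + d + 1) (𝔻)`; ranks and dimensions.
Proof.  As OEM, with blocks: `f = Fin.succAbove ⟨p + d, _⟩ : Fin (2 p + d) → Fin (2 p + d + 1)`, `T (blk x) = blk x'`, `x' (f i) (f j) = x i j`, the other blocks `0`; `P (cst c) = cst c'`, `c' (f i) = c i`, `c' (p + d) = 0`.  Ranks: `b ≃ (Fin p → ℝ)` (the values at the blocks `i < p`).  Dimensions: `T` is injective on `n` and not surjective if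
`1 ≤ p`: the element `blk (eH 0 (p + d) 1)` of the target is not in the image. -/
def HemStmt : Prop :=
  ∀ (p d k : ℕ) (𝔻 : Subalgebra ℝ (Matrix (Fin k) (Fin k) ℝ)), 0 < k → 1 ≤ p →
    AlgEmb (datH p d 𝔻) (datH p (d + 1) 𝔻) ∧ Module.finrank ℝ (datH p d 𝔻).b = p ∧
    Module.finrank ℝ (datH p d 𝔻).n < Module.finrank ℝ (datH p (d + 1) 𝔻).n

/-- **RRP** (medium-strong, no hypotheses; compare PRA, PRM).  Products.
Proof.  `(X₁.prod X₂).n` = the `bd x₁ x₂`, `b` = the `Fin.append c₁ c₂` (see PRA, EBD).  A root vector `bd x₁ x₂` of `ρ` with `x₁ ≠ 0`: `ρ (c₁, c₂) = ρ₁ (c₁)` where `ρ₁` is the root of `x₁`: for all `c`: `[c₁, x₁] = ρ(c) x₁`, so `ρ(c) x₁` does not depend on `c₂`, so `ρ` vanishes on `c₁ = 0`; if also `x₂ ≠ 0` then `ρ = 0`, and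
`ρ₁ = 0` is a root of `X₁`, against `Ray X₁` (`0 = 0 • ρ₁`).  So the roots of the product are the roots of `X₁` (extended by `0`, root vectors `bd x₁ 0`) and those of `X₂`; they are different and not proportional, and the sum of a root of the first kind and one of the second kind is no root.
`Ray`, `S3`, `inj`, `two`, `Spn`, `Red` for the product follow from those of the factors: in every condition all functionals which occur are of the same kind (a sum or a multiple of roots which is a root; `γ` with `2 ρ + γ` a root, etc.).  `Gnd`: root vectors and brackets are those of the factor. -/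
def RrpStmt : Prop :=
  ∀ X₁ X₂ : Dat, Ray X₁ → Ray X₂ → Ray (X₁.prod X₂) ∧ (S3 X₁ → S3 X₂ → S3 (X₁.prod X₂)) ∧
    (RR X₁ → RR X₂ → RR (X₁.prod X₂)) ∧ (Red X₁ → Red X₂ → Red (X₁.prod X₂))

end Pool.Agent.QSB
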