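import Pool.Agent.QSB.StmtsS
import Pool.Agent.QSB.DatH
import Pool.Agent.Helper10_QSX.CEX

/-!
# Squad QSB, examples of symmetric spaces (helper18)

The data of the classical groups satisfy `Sym` (`QSB/SymDefs.lean`): `datD` (SL), `datO` (SO (p, p + d)),
`datU` (forms of maximal index) of `QSN/StmtsE.lean`, `datH` (SU (p, p + d), Sp (p, p + d)) of `QSB/DatH.lean`,
products, complexifications (`Dat.C`, `cx` in `Helper10_QSX/CEX.lean`).  `σ = sg p d`, `R i = Fin.rev i`.
-/

set_option autoImplicit false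

namespace Pool.Agent.QSB

open Matrix Finset Pool.Agent.QSX Pool.Agent.QSN

/-- every nonzero element of `𝔻` is invertible in `𝔻`, and `𝔻` is closed under the transpose -/
def Div {k : ℕ} (𝔻 : Subalgebra ℝ (Matrix (Fin k) (Fin k) ℝ)) : Prop :=
  (∀ a ∈ 𝔻, aᵀ ∈ 𝔻) ∧ ∀ a ∈ 𝔻, a ≠ 0 → ∃ b ∈ 𝔻, a * b = 1

/-- **DSC** (easy-medium, no hypotheses).  A symmetric element of a division algebra of matrices is a scalar.
Proof.  `x` is a real symmetric matrix, `0 < k`, so it has a real eigenvalue `r` with an eigenvector `v ≠ 0` (`Matrix.IsHermitian` spectral theorem, `IsHermitian.eigenvalues`; or maximise `vᵀ x v`).  `x - r • 1 ∈ 𝔻` kills `v`, so it is not invertible, so it is `0`. -/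
def DscStmt : Prop :=
  ∀ (k : ℕ) (𝔻 : Subalgebra ℝ (Matrix (Fin k) (Fin k) ℝ)), 0 < k → Div 𝔻 → ∀ x ∈ 𝔻, xᵀ = x →
    ∃ r : ℝ, x = r • (1 : Matrix (Fin k) (Fin k) ℝ)

/-- **SYD** (medium, uses DSC).  `SL_n (𝔻)`.
Proof.  `g = {blk x : x i j ∈ 𝔻, trace (blk x) = 0}`; `(blk x)ᵀ = blk` of the matrix of the `(x j i)ᵀ`; the trace of a commutator is `0`.  `a₀ = cst a`, `a i = (n - 1) / 2 - i` (different, decreasing, sum `0`).  `b_mem`: a diagonal matrix `blk x ∈ g`: the blocks `x i j`, `i ≠ j`, are `0`, the blocks `x i i ∈ 𝔻` are diagonal, so symmetric, so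
scalars `d i` (DSC), and `trace = k ∑ d i = 0`; conversely `diagonal (cst d) = blk (dia k d)` (`blk_dia`), `1 ∈ 𝔻`.  `n_mem`: `a i > a j` iff `i < j`: an element of `g` whose entries vanish unless the block indices satisfy `i < j` is an element of `nD` (its trace is `0` automatically).  `reg`: `blk x` symmetric, commuting with `diagonal a₀`:
`(a i - a j) x i j = 0`, so `x` is block diagonal, with symmetric blocks in `𝔻`: scalars. -/
def SydStmt : Prop :=
  ∀ (k n : ℕ) (𝔻 : Subalgebra ℝ (Matrix (Fin k) (Fin k) ℝ)), 0 < k → Div 𝔻 →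
    Nonempty (Sym (datD n 𝔻))

/-- **SYO** (medium, no hypotheses).  `SO (p, p + d)`.
Proof.  `g = {x : x (σ j) (σ i) = - x i j}` (closed under the bracket: `(x y) (σ j) (σ i) = (y x) i j`, see `lie` of `datO`; under the transpose: exchange `i`, `j`).  `a₀ i = p - i` for `i < p`, `-(p - R i)` for `i ≥ p + d`, `0` in the middle: `a₀ (σ i) = - a₀ i`, and `a₀ j < a₀ i` iff `i < j` and not both are in the middle.  `b_mem`: clear
(`diagonal c ∈ g` iff `c (σ i) = - c i`; for `i ≠ j` both sides are `0`).  `n_mem`: an element of `g` with entries only at the places with `a₀ j < a₀ i` is strictly upper triangular and vanishes at (middle, middle), and conversely.  `reg`: `x` symmetric, `(a₀ i - a₀ j) x i j = 0`: `x i j = 0` unless `i = j` or both are in the middle; there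
`x j i = x (σ j) (σ i) = - x i j` and `x j i = x i j`, so `x i j = 0`.  So `x` is diagonal. -/
def SyoStmt : Prop := ∀ p d : ℕ, Nonempty (Sym (datO p d))

/-- **SYU** (medium, uses DSC).  Forms of maximal index.
Proof.  `g = {blk x : x i j ∈ 𝔻, x (R j) (R i) = (-(s i * s j)) • (x i j)ᵀ}`, `s = sU p ε` (bracket: see `lie` of `datU`; transpose: the condition for `(j,i)`, transposed).  `a₀ = cst a`, `a i = p - i - 1/2` (all different, `a (R i) = - a i`).  `b_mem`: diagonal blocks: scalars `c' i` by DSC, and the condition says `c' (R i) = - c' i`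
(`s i * s i = 1`).  `n_mem`: `a j < a i` iff `i < j`.  `reg`: as SYD. -/
def SyuStmt : Prop :=
  ∀ (k p : ℕ) (𝔻 : Subalgebra ℝ (Matrix (Fin k) (Fin k) ℝ)) (ε : ℝ) (hε : ε * ε = 1), 0 < k →
    Div 𝔻 → Nonempty (Sym (datU p 𝔻 ε hε))

/-- **SYH** (medium, uses DSC).  `SU (p, p + d)`, `Sp (p, p + d)`.
Proof.  `g = {blk x : x i j ∈ 𝔻, x (σ j) (σ i) = - (x i j)ᵀ}`, `a₀ = cst a`, `a` as in SYO.  `b_mem`: a diagonal matrix `blk x ∈ g`: the blocks `x i i` are diagonal, so scalars `c' i` (DSC), `c' (σ i) = - c' i` (for `i` in the middle: `x i i = -(x i i)ᵀ`, so `0`).  `n_mem`: as SYO, with blocks.  `reg`: `x i j = 0` unless `i = j` or both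
are in the middle; in the middle `x i j = -(x j i)ᵀ` (`σ` is the identity there) and `x i j = (x j i)ᵀ` (symmetric), so `x i j = 0`; the outer blocks `x i i` are symmetric, so scalars. -/
def SyhStmt : Prop :=
  ∀ (p d k : ℕ) (𝔻 : Subalgebra ℝ (Matrix (Fin k) (Fin k) ℝ)), 0 < k → Div 𝔻 →
    Nonempty (Sym (datH p d 𝔻))

/-- **SYP** (medium, no hypotheses).  Products.
Proof.  `g = {bd x₁ x₂ : x_i ∈ g_i}`, `a₀ = Fin.append a₁ a₂`.  Closed under bracket and transpose (`bd_mul`, `bd_sub`; entrywise for the transpose).  `b_mem`: `diagonal c`, `c = Fin.append c₁ c₂`, is `bd (diagonal c₁) (diagonal c₂)` (`bd_diagonal`, `bd_inj`).  `n_mem`, `reg`: entrywise (`bd_cc`, `bd_nn`, `bd_cn`, `bd_nc`). -/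
def SypStmt : Prop :=
  ∀ X₁ X₂ : Dat, Nonempty (Sym X₁) → Nonempty (Sym X₂) → Nonempty (Sym (X₁.prod X₂))

/-- **SYC** (medium, no hypotheses).  Complexifications.
Proof.  `g = {blk 2 m (cx x y) : x, y ∈ g₀}`; bracket: `cx_mul`, `cx_sub`; transpose: `(blk (cx x y))ᵀ = blk (cx xᵀ (-yᵀ))` (`jjᵀ = -jj`, `cx_apply`).  `a₀ = cst 2 m a`.  `b_mem`: if `blk (cx x y)` is diagonal then `y = 0` and `x` is diagonal (the `2 × 2` block at `(i,j)` is `x i j • 1 + y i j • jj`).  `n_mem`: the block `(i,j)` is `0` iff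
`x i j = 0` and `y i j = 0`.  `reg`: if `blk (cx x y)` is symmetric and commutes with `diagonal a₀` then `xᵀ = x`, `yᵀ = -y` and both commute with `diagonal a`; so `x` is diagonal (`reg`), and `y = 0` (hypothesis). -/
def SycStmt : Prop :=
  ∀ (X : Dat) (S : Sym X), (∀ y ∈ S.g, yᵀ = -y →
    diagonal (S.a₀ : Fin X.m → ℝ) * y = y * diagonal (S.a₀ : Fin X.m → ℝ) → y = 0) →
    Nonempty (Sym X.C)

/-- **MCX** (medium, no hypotheses).  Complexifications of data of type `MRB` without hyperbolic planes.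
Proof.  `ι' = ι × Bool`, `e' (l, false) = blk (cx (e l) 0)`, `e' (l, true) = blk (cx 0 (e l))`, `rt' (l, _) = rt l ∘ (cst d ↦ d)` (`b_C = {cst 2 m d : d ∈ b}`).  `rat`: entries `0`, `± e l i j` (`cx_apply`).  `span_e`, `lin`: `cx x y = ∑ x_l e' (l,false) + ∑ y_l e' (l,true)`, `cx_inj`.  `gen`: apply `x ↦ blk (cx x 0)` to the combination
for `e t`; for `(t, true)` multiply by the complex structure: `blk (cx 0 [a,b]) = [blk (cx 0 a), blk (cx b 0)..]` (`cx_mul`: `[cx 0 a, cx b 0] = cx 0 [a,b]`).  `J`, `comp`, `top`: those of `X` (`top' j = (top j, false)`).  `climb`: an element of the root space is `blk (cx x y)`, `x`, `y` in the root space of `X`; if it commutes with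
`blk (cx (e k) 0)`, then `x`, `y` commute with `e k`: so `x = y = 0`.  `rank1`: the hypothesis gives two different roots in every component.  `scal`: conjugate `S` with `b ≃ b_C`. -/
def McxStmt : Prop :=
  ∀ (X : Dat) (hX : MRB X), (∀ l, ∃ l', hX.comp l' = hX.comp l ∧ hX.rt l' ≠ hX.rt l) →
    Nonempty (MRB X.C)

end Pool.Agent.QSB
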