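import Pool.Agent.QSB.StmtsR

/-!
# Squad QSB: data of self adjoint Lie algebras (symmetric spaces), definitions and basic lemmas
-/

set_option autoImplicit false

namespace Pool.Agent.QSB

open Matrix Finset Pool.Agent.QSX

/-- `X` is the Iwasawa datum of a Lie algebra `g` of real matrices closed under the transpose:
`b` is the space of the diagonal matrices in `g`; `a₀ ∈ b` is a regular element: the symmetric matrices
in `g` which commute with it are diagonal (so `b` is maximal abelian in the symmetric matrices of `g`);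
`n` is the sum of the eigenspaces of `ad (diagonal a₀)` in `g` with positive eigenvalues. -/
structure Sym (X : Dat) where
  g : Submodule ℝ (Matrix (Fin X.m) (Fin X.m) ℝ)
  lie : ∀ x ∈ g, ∀ y ∈ g, x * y - y * x ∈ g
  tr : ∀ x ∈ g, xᵀ ∈ g
  b_mem : ∀ c : Fin X.m → ℝ, c ∈ X.b ↔ diagonal c ∈ g
  a₀ : X.b
  n_mem : ∀ x, x ∈ X.n ↔
    x ∈ g ∧ ∀ i j, x i j ≠ 0 → (a₀ : Fin X.m → ℝ) j < (a₀ : Fin X.m → ℝ) i
  reg : ∀ x ∈ g, xᵀ = x →
    diagonal (a₀ : Fin X.m → ℝ) * x = x * diagonal (a₀ : Fin X.m → ℝ) → ∃ c, x = diagonal c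

/-- `x ∈ g`, `x ≠ 0` has the weight `μ` -/
def GW {X : Dat} (S : Sym X) (μ : X.b →ₗ[ℝ] ℝ) (x : Matrix (Fin X.m) (Fin X.m) ℝ) : Prop :=
  x ∈ S.g ∧ x ≠ 0 ∧
    ∀ c : X.b, diagonal (c : Fin X.m → ℝ) * x - x * diagonal (c : Fin X.m → ℝ) = μ c • x

/-! ### The scalar product of functionals -/

section

variable (X : Dat)

/-- the standard scalar product on `b` -/
noncomputable def bil : X.b →ₗ[ℝ] (X.b →ₗ[ℝ] ℝ) :=
  LinearMap.mk₂ ℝ (fun c c' : X.b => ∑ i, (c : Fin X.m → ℝ) i * (c' : Fin X.m → ℝ) i)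
    (fun a b c => by simp [add_mul, Finset.sum_add_distrib])
    (fun r a b => by simp [mul_assoc, Finset.mul_sum])
    (fun a b c => by simp [mul_add, Finset.sum_add_distrib])
    (fun r a b => by simp [mul_left_comm, Finset.mul_sum])

theorem bil_apply (c c' : X.b) :
    bil X c c' = ∑ i, (c : Fin X.m → ℝ) i * (c' : Fin X.m → ℝ) i := rfl

theorem bil_comm (c c' : X.b) : bil X c c' = bil X c' c := by
  rw [bil_apply, bil_apply]
  exact Finset.sum_congr rfl fun i _ => mul_comm _ _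

theorem bil_self_nonneg (c : X.b) : 0 ≤ bil X c c := by
  rw [bil_apply]
  exact Finset.sum_nonneg fun i _ => mul_self_nonneg _

theorem bil_self_eq_zero {c : X.b} (h : bil X c c = 0) : c = 0 := by
  rw [bil_apply, Finset.sum_eq_zero_iff_of_nonneg (fun i _ => mul_self_nonneg _)] at h
  apply Subtype.ext
  funext i
  exact mul_self_eq_zero.1 (h i (Finset.mem_univ i))

theorem bil_inj : Function.Injective (bil X) := by
  rw [injective_iff_map_eq_zero]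
  intro c h
  apply bil_self_eq_zero
  rw [h]
  rfl

/-- `b` is isomorphic to its dual space -/
noncomputable def tvE : X.b ≃ₗ[ℝ] (X.b →ₗ[ℝ] ℝ) :=
  LinearEquiv.ofInjectiveOfFinrankEq (bil X) (bil_inj X) (Subspace.dual_finrank_eq).symm

/-- the dual vector of a functional: `μ c = ∑ i, (tv μ) i * c i` -/
noncomputable def tv : (X.b →ₗ[ℝ] ℝ) ≃ₗ[ℝ] X.b := (tvE X).symm

theorem bil_tv (μ : X.b →ₗ[ℝ] ℝ) (c : X.b) : bil X (tv X μ) c = μ c := by
  have h : (tvE X) (tv X μ) = μ := (tvE X).apply_symm_apply μ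
  have h2 : (tvE X) (tv X μ) = bil X (tv X μ) := rfl
  rw [← h2, h]

theorem tv_apply (μ : X.b →ₗ[ℝ] ℝ) (c : X.b) :
    μ c = ∑ i, (c : Fin X.m → ℝ) i * (tv X μ : Fin X.m → ℝ) i := by
  rw [← bil_tv, bil_comm, bil_apply]

/-- the scalar product of two functionals -/
noncomputable def ip (μ ν : X.b →ₗ[ℝ] ℝ) : ℝ := bil X (tv X μ) (tv X ν)

variable {X}

theorem ip_comm (μ ν : X.b →ₗ[ℝ] ℝ) : ip X μ ν = ip X ν μ := bil_comm X _ _

/-- `μ (tv ν) = ip μ ν` -/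
theorem ip_eq (μ ν : X.b →ₗ[ℝ] ℝ) : μ (tv X ν) = ip X μ ν := (bil_tv X μ _).symm

theorem ip_add_left (μ μ' ν : X.b →ₗ[ℝ] ℝ) : ip X (μ + μ') ν = ip X μ ν + ip X μ' ν := by
  rw [← ip_eq, ← ip_eq, ← ip_eq, LinearMap.add_apply]

theorem ip_smul_left (r : ℝ) (μ ν : X.b →ₗ[ℝ] ℝ) : ip X (r • μ) ν = r * ip X μ ν := by
  rw [← ip_eq, ← ip_eq, LinearMap.smul_apply, smul_eq_mul]

theorem ip_neg_left (μ ν : X.b →ₗ[ℝ] ℝ) : ip X (-μ) ν = - ip X μ ν := by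
  rw [← ip_eq, ← ip_eq, LinearMap.neg_apply]

theorem ip_sub_left (μ μ' ν : X.b →ₗ[ℝ] ℝ) : ip X (μ - μ') ν = ip X μ ν - ip X μ' ν := by
  rw [← ip_eq, ← ip_eq, ← ip_eq, LinearMap.sub_apply]

theorem ip_add_right (μ ν ν' : X.b →ₗ[ℝ] ℝ) : ip X μ (ν + ν') = ip X μ ν + ip X μ ν' := by
  rw [ip_comm, ip_add_left, ip_comm ν, ip_comm ν']

theorem ip_smul_right (r : ℝ) (μ ν : X.b →ₗ[ℝ] ℝ) : ip X μ (r • ν) = r * ip X μ ν := by
  rw [ip_comm, ip_smul_left, ip_comm ν]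

theorem ip_neg_right (μ ν : X.b →ₗ[ℝ] ℝ) : ip X μ (-ν) = - ip X μ ν := by
  rw [ip_comm, ip_neg_left, ip_comm ν]

theorem ip_sub_right (μ ν ν' : X.b →ₗ[ℝ] ℝ) : ip X μ (ν - ν') = ip X μ ν - ip X μ ν' := by
  rw [ip_comm, ip_sub_left, ip_comm ν, ip_comm ν']

theorem ip_self_nonneg (μ : X.b →ₗ[ℝ] ℝ) : 0 ≤ ip X μ μ := bil_self_nonneg X _

theorem ip_self_eq_zero {μ : X.b →ₗ[ℝ] ℝ} (h : ip X μ μ = 0) : μ = 0 := by
  have h1 := bil_self_eq_zero X h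
  exact (tv X).map_eq_zero_iff.1 h1

theorem ip_self_pos {μ : X.b →ₗ[ℝ] ℝ} (h : μ ≠ 0) : 0 < ip X μ μ :=
  lt_of_le_of_ne (ip_self_nonneg μ) fun e => h (ip_self_eq_zero e.symm)

/-- strict Cauchy-Schwarz -/
theorem ip_cs {μ ν : X.b →ₗ[ℝ] ℝ} (h : ∀ c : ℝ, μ ≠ c • ν) (hν : ν ≠ 0) :
    ip X μ ν * ip X μ ν < ip X μ μ * ip X ν ν := by
  have hp := ip_self_pos hν
  have h1 : μ - (ip X μ ν / ip X ν ν) • ν ≠ 0 := fun e => h _ (sub_eq_zero.1 e)
  have h2 := ip_self_pos h1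
  rw [ip_sub_left, ip_sub_right, ip_sub_right, ip_smul_left, ip_smul_right, ip_smul_left,
    ip_smul_right, ip_comm ν μ] at h2
  have h3 : ip X μ μ - ip X μ ν / ip X ν ν * ip X μ ν -
      (ip X μ ν / ip X ν ν * ip X μ ν - ip X μ ν / ip X ν ν * (ip X μ ν / ip X ν ν * ip X ν ν)) =
      ip X μ μ - ip X μ ν * ip X μ ν / ip X ν ν := by
    field_simp
    ring
  rw [h3] at h2
  have h4 : ip X μ ν * ip X μ ν / ip X ν ν < ip X μ μ := by linarith
  rwa [div_lt_iff₀ hp] at h4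

end

end Pool.Agent.QSB
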